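import Pool.Agent.W526.LL.Stm

/-! Bruhat-Iwahori decomposition of `GL₂` of a discretely valued field. -/

namespace Pool.Agent.W466.LLDec

open Matrix WithZero Pool.Agent.W526.LL

variable {F : Type} [Field F] [Valued F ℤᵐ⁰]

theorem v_pow (D : LD F) (e : ℤ) : Valued.v (D.ϖ ^ e) = exp (-e) := by
  rw [map_zpow₀, D.hϖ, ← WithZero.exp_zsmul]
  simp

theorem exists_unit (D : LD F) {x : F} (hx : x ≠ 0) :
    ∃ (e : ℤ) (u : F), Valued.v u = 1 ∧ x = D.ϖ ^ e * u := by
  have h0 : Valued.v x ≠ 0 := (Valuation.ne_zero_iff _).2 hx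
  have h1 : D.ϖ ^ (-(log (Valued.v x))) ≠ 0 := zpow_ne_zero _ D.ne
  refine ⟨-(log (Valued.v x)), x / D.ϖ ^ (-(log (Valued.v x))), ?_, ?_⟩
  · rw [map_div₀, v_pow, neg_neg, exp_log h0, div_self h0]
  · rw [mul_div_cancel₀ _ h1]

theorem z_pow (D : LD F) (j : ℤ) : D.z ^ j = sc (D.ϖ ^ j) (zpow_ne_zero _ D.ne) := by
  have hnat : ∀ n : ℕ, D.z ^ n = sc (D.ϖ ^ n) (pow_ne_zero _ D.ne) := by
    intro n
    induction n with
    | zero =>
      rw [pow_zero]
      apply ext4 <;> simp [sc]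
    | succ n ih =>
      rw [pow_succ, ih, LD.z, sc_mul]
      apply ext4 <;> simp [sc, pow_succ]
  rcases j with n | n
  · rw [Int.ofNat_eq_natCast, zpow_natCast, hnat]
    apply ext4 <;> simp [sc]
  · rw [zpow_negSucc, hnat, inv_eq_iff_mul_eq_one]
    have hne : D.ϖ ^ (n + 1) ≠ 0 := pow_ne_zero _ D.ne
    apply ext4 <;> simp [mul_ij, sc, zpow_negSucc, hne]

theorem al_pow (D : LD F) (n : ℕ) : D.al ^ n = dg (D.ϖ ^ n) (pow_ne_zero _ D.ne) := by
  induction n with
  | zero =>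
    rw [pow_zero]
    apply ext4 <;> simp [dg]
  | succ n ih =>
    rw [pow_succ, ih, LD.al, dg_mul]
    apply ext4 <;> simp [dg, pow_succ]

/-- the two forms -/
def Form (D : LD F) (g : GL (Fin 2) F) : Prop :=
  ∃ (j : ℤ) (k : GL (Fin 2) F) (m : ℕ) (i : GL (Fin 2) F), k ∈ maxK F ∧ i ∈ Iw F ∧
    (g = D.z ^ j * k * D.al ^ m * i ∨ g = D.z ^ j * k * D.al ^ m * D.w * i)

theorem form_ws (D : LD F) {g : GL (Fin 2) F} (h : Form D (ws * g)) : Form D g := by
  obtain ⟨j, k, m, i, hk, hi, h⟩ := h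
  have hg : g = ws * (ws * g) := by rw [← mul_assoc, ws_ws, one_mul]
  have hz : ws * D.z ^ j = D.z ^ j * ws := by
    rw [z_pow, sc_comm]
  refine ⟨j, ws * k, m, i, mul_mem ws_mem hk, hi, ?_⟩
  rcases h with h | h
  · left
    rw [hg, h]
    simp only [← mul_assoc]
    rw [hz]
  · right
    rw [hg, h]
    simp only [← mul_assoc]
    rw [hz]

theorem mem_Iw_gl2 {a b c d : F} {h : a * d - b * c ≠ 0} (ha : Valued.v a = 1) (hd : Valued.v d = 1)
    (hb : Valued.v b ≤ 1) (hc : Valued.v c < 1) : gl2 a b c d h ∈ Iw F := by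
  refine ⟨⟨fun i j => ?_, ?_⟩, hc⟩
  · fin_cases i <;> fin_cases j
    · exact ha.le
    · exact hb
    · exact hc.le
    · exact hd.le
  · rw [dt_gl2]
    have h1 : Valued.v (b * c) < 1 := by
      rw [map_mul]
      exact mul_lt_one_of_nonneg_of_lt_one_right hb zero_le hc
    have h2 : Valued.v (a * d) = 1 := by rw [map_mul, ha, hd, one_mul]
    rw [Valuation.map_sub_eq_of_lt_left]
    · exact h2
    · rw [h2]
      exact h1

theorem form_one (D : LD F) {g : GL (Fin 2) F} (h1 : Valued.v (g 1 0) ≤ Valued.v (g 0 0))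
    (h2 : Valued.v (g 0 1) ≤ Valued.v (g 0 0)) (h3 : Valued.v (g 1 1) ≤ Valued.v (g 0 0)) :
    Form D g := by
  have hdt := dt_ne_zero g
  have ha : g 0 0 ≠ 0 := by
    intro h0
    rw [h0, map_zero, le_zero_iff, map_eq_zero] at h1 h2
    apply hdt
    rw [dt, h0, h2]
    ring
  have hva : Valued.v (g 0 0) ≠ 0 := (Valuation.ne_zero_iff _).2 ha
  set δ : F := g 1 1 - g 0 1 * g 1 0 / g 0 0 with hδ
  have hδ0 : δ ≠ 0 := by
    intro h0
    apply hdt
    have : dt g = g 0 0 * δ := by rw [hδ, dt]; field_simp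
    rw [this, h0, mul_zero]
  have hvδ : Valued.v δ ≤ Valued.v (g 0 0) := by
    refine (Valuation.map_sub _ _ _).trans (max_le h3 ?_)
    rw [map_div₀, map_mul]
    calc Valued.v (g 0 1) * Valued.v (g 1 0) / Valued.v (g 0 0)
        ≤ Valued.v (g 0 0) * Valued.v (g 0 0) / Valued.v (g 0 0) := by
          gcongr
          exact zero_le
      _ = Valued.v (g 0 0) := by rw [mul_div_assoc, div_self hva, mul_one]
  obtain ⟨r, u, hu, hau⟩ := exists_unit D ha
  obtain ⟨e, u', hu', hδu⟩ := exists_unit D hδ0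
  have hu0 : u ≠ 0 := by
    rintro rfl
    rw [map_zero] at hu
    exact zero_ne_one hu
  have hu0' : u' ≠ 0 := by
    rintro rfl
    rw [map_zero] at hu'
    exact zero_ne_one hu'
  have hre : r ≤ e := by
    rw [hau, hδu, map_mul, map_mul, hu, hu', mul_one, mul_one, v_pow, v_pow, exp_le_exp] at hvδ
    omega
  obtain ⟨m, hm⟩ := Int.eq_ofNat_of_zero_le (sub_nonneg.2 hre)
  have hr0 : D.ϖ ^ r ≠ 0 := zpow_ne_zero _ D.ne
  have hvr : Valued.v (D.ϖ ^ r) = Valued.v (g 0 0) := by rw [hau, map_mul, hu, mul_one]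
  refine ⟨r, lo (g 1 0 / g 0 0), m, gl2 u (g 0 1 / D.ϖ ^ r) 0 u'
    (by rw [mul_zero, sub_zero]; exact mul_ne_zero hu0 hu0'), lo_mem ?_, mem_Iw_gl2 hu hu' ?_ ?_,
    Or.inl ?_⟩
  · rw [map_div₀]
    exact div_le_one_of_le₀ h1 zero_le
  · rw [map_div₀, hvr]
    exact div_le_one_of_le₀ h2 zero_le
  · rw [map_zero]
    exact zero_lt_one
  · rw [z_pow, al_pow]
    have hpe : D.ϖ ^ e = D.ϖ ^ r * D.ϖ ^ m := by
      rw [← zpow_natCast, ← zpow_add₀ D.ne]
      congr 1
      omega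
    apply ext4
    · simp only [mul_ij, sc, lo, dg, gl2_00, gl2_01, gl2_10, gl2_11]
      rw [hau]
      ring
    · simp only [mul_ij, sc, lo, dg, gl2_00, gl2_01, gl2_10, gl2_11]
      field_simp
      ring
    · simp only [mul_ij, sc, lo, dg, gl2_00, gl2_01, gl2_10, gl2_11]
      have : D.ϖ ^ r * (g 1 0 / g 0 0) * u = g 1 0 := by
        have h6 : D.ϖ ^ r * u = g 0 0 := hau.symm
        calc D.ϖ ^ r * (g 1 0 / g 0 0) * u = g 1 0 * ((D.ϖ ^ r * u) / g 0 0) := by ring
          _ = g 1 0 := by rw [h6, div_self ha, mul_one]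
      linear_combination -this
    · simp only [mul_ij, sc, lo, dg, gl2_00, gl2_01, gl2_10, gl2_11]
      have h5 : g 1 1 = D.ϖ ^ r * D.ϖ ^ m * u' + g 0 1 * g 1 0 / g 0 0 := by
        rw [← hpe, ← hδu, hδ]
        ring
      rw [h5]
      field_simp
      ring

theorem form_two (D : LD F) {g : GL (Fin 2) F} (h1 : Valued.v (g 0 0) < Valued.v (g 1 1))
    (h2 : Valued.v (g 0 1) ≤ Valued.v (g 1 1)) (h3 : Valued.v (g 1 0) < Valued.v (g 1 1)) :
    Form D g := by
  have hdt := dt_ne_zero g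
  have hvd : Valued.v (g 1 1) ≠ 0 := (zero_le.trans_lt h1).ne'
  have hd : g 1 1 ≠ 0 := (Valuation.ne_zero_iff _).1 hvd
  set δ : F := g 0 0 - g 0 1 * g 1 0 / g 1 1 with hδ
  have hδ0 : δ ≠ 0 := by
    intro h0
    apply hdt
    have : dt g = g 1 1 * δ := by rw [hδ, dt]; field_simp
    rw [this, h0, mul_zero]
  have hvδ : Valued.v δ < Valued.v (g 1 1) := by
    refine (Valuation.map_sub _ _ _).trans_lt (max_lt h1 ?_)
    rw [map_div₀, map_mul]
    calc Valued.v (g 0 1) * Valued.v (g 1 0) / Valued.v (g 1 1)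
        ≤ Valued.v (g 1 1) * Valued.v (g 1 0) / Valued.v (g 1 1) := by
          gcongr
          exact zero_le
      _ = Valued.v (g 1 0) := by rw [mul_comm, mul_div_assoc, div_self hvd, mul_one]
      _ < Valued.v (g 1 1) := h3
  obtain ⟨r, u, hu, hau⟩ := exists_unit D hd
  obtain ⟨e, u', hu', hδu⟩ := exists_unit D hδ0
  have hu0 : u ≠ 0 := by
    rintro rfl
    rw [map_zero] at hu
    exact zero_ne_one hu
  have hu0' : u' ≠ 0 := by
    rintro rfl
    rw [map_zero] at hu'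
    exact zero_ne_one hu'
  have hre : r < e := by
    rw [hau, hδu, map_mul, map_mul, hu, hu', mul_one, mul_one, v_pow, v_pow, exp_lt_exp] at hvδ
    omega
  obtain ⟨m, hm⟩ := Int.eq_ofNat_of_zero_le (show 0 ≤ e - r - 1 by omega)
  have hr0 : D.ϖ ^ r ≠ 0 := zpow_ne_zero _ D.ne
  have hvr : Valued.v (D.ϖ ^ r) = Valued.v (g 1 1) := by rw [hau, map_mul, hu, mul_one]
  refine ⟨r, up (g 0 1 / g 1 1) * ws, m, gl2 u' 0 (g 1 0 / D.ϖ ^ r) u
    (by rw [zero_mul, sub_zero]; exact mul_ne_zero hu0' hu0), mul_mem (up_mem ?_) ws_mem,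
    mem_Iw_gl2 hu' hu ?_ ?_, Or.inr ?_⟩
  · rw [map_div₀]
    exact div_le_one_of_le₀ h2 zero_le
  · rw [map_zero]
    exact zero_le
  · rw [map_div₀, hvr]
    exact (div_lt_one₀ (zero_lt_iff.2 hvd)).2 h3
  · rw [z_pow, al_pow, LD.w, LD.al]
    have hpe : D.ϖ ^ e = D.ϖ ^ r * (D.ϖ ^ m * D.ϖ) := by
      rw [← pow_succ, ← zpow_natCast, ← zpow_add₀ D.ne]
      congr 1
      push_cast
      omega
    apply ext4
    · simp only [mul_ij, sc, up, ws, dg, gl2_00, gl2_01, gl2_10, gl2_11]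
      have h5 : g 0 0 = D.ϖ ^ r * (D.ϖ ^ m * D.ϖ) * u' + g 0 1 * g 1 0 / g 1 1 := by
        rw [← hpe, ← hδu, hδ]
        ring
      rw [h5]
      field_simp
      ring
    · simp only [mul_ij, sc, up, ws, dg, gl2_00, gl2_01, gl2_10, gl2_11]
      have : D.ϖ ^ r * (g 0 1 / g 1 1) * u = g 0 1 := by
        have h6 : D.ϖ ^ r * u = g 1 1 := hau.symm
        calc D.ϖ ^ r * (g 0 1 / g 1 1) * u = g 0 1 * ((D.ϖ ^ r * u) / g 1 1) := by ring
          _ = g 0 1 := by rw [h6, div_self hd, mul_one]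
      linear_combination -this
    · simp only [mul_ij, sc, up, ws, dg, gl2_00, gl2_01, gl2_10, gl2_11]
      field_simp
      ring
    · simp only [mul_ij, sc, up, ws, dg, gl2_00, gl2_01, gl2_10, gl2_11]
      rw [hau]
      ring

theorem main : S_dec := by
  intro F _ _ D g
  show Form D g
  have e00 : (ws * g : GL (Fin 2) F) 0 0 = g 1 0 := by simp [mul_ij, ws]
  have e01 : (ws * g : GL (Fin 2) F) 0 1 = g 1 1 := by simp [mul_ij, ws]
  have e10 : (ws * g : GL (Fin 2) F) 1 0 = g 0 0 := by simp [mul_ij, ws]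
  have e11 : (ws * g : GL (Fin 2) F) 1 1 = g 0 1 := by simp [mul_ij, ws]
  by_cases hcase : max (Valued.v (g 0 1)) (Valued.v (g 1 1)) ≤
      max (Valued.v (g 0 0)) (Valued.v (g 1 0))
  · rcases le_total (Valued.v (g 1 0)) (Valued.v (g 0 0)) with h | h
    · rw [max_eq_left h] at hcase
      exact form_one D h ((le_max_left _ _).trans hcase) ((le_max_right _ _).trans hcase)
    · rw [max_eq_right h] at hcase
      apply form_ws
      apply form_one
      · rw [e00, e10]; exact h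
      · rw [e00, e01]; exact (le_max_right _ _).trans hcase
      · rw [e00, e11]; exact (le_max_left _ _).trans hcase
  · rw [not_le] at hcase
    rcases le_total (Valued.v (g 0 1)) (Valued.v (g 1 1)) with h | h
    · rw [max_eq_right h] at hcase
      exact form_two D ((le_max_left _ _).trans_lt hcase) h ((le_max_right _ _).trans_lt hcase)
    · rw [max_eq_left h] at hcase
      apply form_ws
      apply form_two
      · rw [e00, e11]; exact (le_max_right _ _).trans_lt hcase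
      · rw [e01, e11]; exact h
      · rw [e10, e11]; exact (le_max_left _ _).trans_lt hcase

end Pool.Agent.W466.LLDec
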