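import Pool.Agent.W466.EL

/-!
Division hulls (helper file for Zilber-Pink for products of powers of elliptic curves and of the
multiplicative group).
-/

namespace Pool.Agent.W466.EP

open WeierstrassCurve WeierstrassCurve.Affine

theorem divhull_rat {A B : ℂ} {F : Subfield ℂ} (hA : A ∈ F) {s : Set (crv A B).Point}
    (hs : ∀ P ∈ s, Rat F P) {ν : ℕ} (R : Fin ν → (crv A B).Point)
    (hR : ∀ i, ∃ t : ℕ, 0 < t ∧ t • R i ∈ AddSubgroup.closure s) (a : Fin ν → ℤ) :
    ∃ t : ℕ, 0 < t ∧ Rat F (t • ∑ i, a i • R i) := by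
  classical
  choose t ht htR using hR
  refine ⟨∏ i, t i, Finset.prod_pos fun i _ => ht i, ?_⟩
  apply Rat.closure hA hs
  rw [Finset.smul_sum]
  refine AddSubgroup.sum_mem _ fun i _ => ?_
  obtain ⟨T', hT'⟩ : t i ∣ ∏ i, t i := Finset.dvd_prod_of_mem t (Finset.mem_univ i)
  rw [smul_comm, hT', mul_comm, mul_smul]
  exact zsmul_mem (nsmul_mem (htR i) T') (a i)

theorem divhull_val (V : ValuationSubring ℂ) {s : Set ℂˣ} (hs : ∀ γ ∈ s, V.valuation (γ : ℂ) = 1)
    {q : ℕ} (η : Fin q → ℂˣ)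
    (hη : ∀ j, ∃ t : ℕ, 0 < t ∧ η j ^ t ∈ Subgroup.closure s) (b : Fin q → ℤ) :
    V.valuation (((∏ j, η j ^ b j : ℂˣ)) : ℂ) = 1 := by
  have h1 : ∀ x ∈ Subgroup.closure s, V.valuation (x : ℂ) = 1 := by
    intro x hx
    induction hx using Subgroup.closure_induction with
    | mem x hx => exact hs x hx
    | one => rw [Units.val_one, map_one]
    | mul x y _ _ hx hy => rw [Units.val_mul, map_mul, hx, hy, mul_one]
    | inv x _ hx => rw [Units.val_inv_eq_inv_val, map_inv₀, hx, inv_one]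
  have h2 : ∀ j, V.valuation (η j : ℂ) = 1 := by
    intro j
    obtain ⟨t, ht, htη⟩ := hη j
    have h3 := h1 _ htη
    rw [Units.val_pow_eq_pow_val, map_pow] at h3
    rcases lt_trichotomy (V.valuation (η j : ℂ)) 1 with h4 | h4 | h4
    · exact absurd h3 (pow_lt_one₀ zero_le h4 ht.ne').ne
    · exact h4
    · exact absurd h3 (one_lt_pow₀ h4 ht.ne').ne'
  rw [Units.coe_prod, map_prod]
  refine Finset.prod_eq_one fun j _ => ?_
  rw [Units.val_zpow_eq_zpow_val, map_zpow₀, h2, one_zpow]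

end Pool.Agent.W466.EP
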