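import Pool.Agent.W466.CC

/-!
Smooth numbers are rare, and almost all members of a one-parameter family of scaling vectors are
spread out (helper file for Zilber-Pink for curves in `Y(1)^n`).
-/

open Function

namespace Pool.Agent.W466.ZC

open Classical in
/-- There are at most `(1 + log M)^(E+1)` numbers up to `M` without prime factors larger than `E`. -/
theorem smooth_card (E M : ℕ) :
    ((Finset.Icc 1 M).filter fun m => ∀ p, p.Prime → p ∣ m → p ≤ E).card ≤
      (Nat.log 2 M + 1) ^ (E + 1) := by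
  classical
  let f : ℕ → (Fin (E + 1) → Fin (Nat.log 2 M + 1)) := fun m q =>
    ⟨min (m.factorization q) (Nat.log 2 M), by omega⟩
  have hcard : Fintype.card (Fin (E + 1) → Fin (Nat.log 2 M + 1)) =
      (Nat.log 2 M + 1) ^ (E + 1) := by
    rw [Fintype.card_fun, Fintype.card_fin, Fintype.card_fin]
  rw [← hcard, ← Finset.card_univ]
  refine Finset.card_le_card_of_injOn f (fun _ _ => Finset.mem_coe.2 (Finset.mem_univ _)) ?_
  intro m hm m' hm' h
  rw [Finset.mem_coe, Finset.mem_filter, Finset.mem_Icc] at hm hm'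
  obtain ⟨⟨h1, h2⟩, h3⟩ := hm
  obtain ⟨⟨h1', h2'⟩, h3'⟩ := hm'
  have hle : ∀ t, 1 ≤ t → t ≤ M → ∀ q, t.factorization q ≤ Nat.log 2 M := by
    intro t ht1 ht2 q
    by_cases hq : q.Prime
    · refine Nat.le_log_of_pow_le (by norm_num) ?_
      calc 2 ^ t.factorization q ≤ q ^ t.factorization q := Nat.pow_le_pow_left hq.two_le _
        _ ≤ t := Nat.ordProj_le q (by omega)
        _ ≤ M := ht2
    · rw [Nat.factorization_eq_zero_of_not_prime t hq]
      exact Nat.zero_le _
  refine Nat.eq_of_factorization_eq (by omega) (by omega) fun q => ?_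
  by_cases hq : q.Prime
  · by_cases hqE : q ≤ E
    · have h4 := congrArg Fin.val (congrFun h ⟨q, by omega⟩)
      have h5 : min (m.factorization q) (Nat.log 2 M) = min (m'.factorization q) (Nat.log 2 M) := h4
      rwa [min_eq_left (hle m h1 h2 q), min_eq_left (hle m' h1' h2' q)] at h5
    · rw [Nat.factorization_eq_zero_of_not_dvd (fun hd => hqE (h3 q hq hd)),
        Nat.factorization_eq_zero_of_not_dvd (fun hd => hqE (h3' q hq hd))]
  · rw [Nat.factorization_eq_zero_of_not_prime m hq, Nat.factorization_eq_zero_of_not_prime m' hq]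

/-- the exponents are independent modulo squares -/
def Indep {n : ℕ} (a : Fin 4 → Fin n → ℕ) : Prop :=
  (∀ l i, 0 < a l i) ∧ ∀ l l', l ≠ l' → ∀ i j, i ≠ j →
    ¬ IsSquare (a l i * a l j * (a l' i * a l' j))

theorem isSquare_of_mul_sq {m x : ℕ} (hm : 0 < m) (h : IsSquare (m ^ 2 * x)) : IsSquare x := by
  obtain ⟨a, ha⟩ := h
  have h4 : m ∣ a := by
    rw [← Nat.pow_dvd_pow_iff (two_ne_zero)]
    exact ⟨x, by rw [ha]; ring⟩
  obtain ⟨c, hc⟩ := h4
  refine ⟨c, ?_⟩
  rw [hc] at ha
  have h5 : m ^ 2 * x = m ^ 2 * (c * c) := by rw [ha]; ring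
  exact Nat.eq_of_mul_eq_mul_left (pow_pos hm 2) h5

/-- the scaling vectors of a one-parameter family -/
def fam {n : ℕ} (a : Fin 4 → Fin n → ℕ) (k : ℕ) (i : Fin n) : ℕ := ∏ l : Fin 4, (k + l) ^ a l i

theorem spread_of {n D k : ℕ} (hk : 1 ≤ k) (a : Fin 4 → Fin n → ℕ) (ha : Indep a)
    (h : ∀ l : Fin 4, ∃ p, p.Prime ∧ p ∣ k + l ∧ D + 3 < p) : Spread D (fam a k) := by
  classical
  choose p hp hpk hpD using h
  have hfac : ∀ l i, (fam a k i).factorization (p l) = a l i * (k + l).factorization (p l) := by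
    intro l i
    rw [fam, Nat.factorization_prod (fun l' _ => pow_ne_zero _ (by omega))]
    simp only [Finsupp.coe_finsetSum, Finset.sum_apply]
    rw [Finset.sum_eq_single l]
    · rw [Nat.factorization_pow]
      rfl
    · intro l' _ hne
      rw [Nat.factorization_pow]
      have h1 : ¬ p l ∣ k + l' := by
        intro hd
        have h2 := hpk l
        have h3 : (p l : ℤ) ∣ ((k + l : ℕ) : ℤ) - ((k + l' : ℕ) : ℤ) :=
          dvd_sub (Int.natCast_dvd_natCast.2 h2) (Int.natCast_dvd_natCast.2 hd)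
        have h4 : ((k + l : ℕ) : ℤ) - ((k + l' : ℕ) : ℤ) = (l : ℤ) - (l' : ℤ) := by
          push_cast
          ring
        rw [h4] at h3
        have h5 : (l : ℤ) - (l' : ℤ) ≠ 0 := by
          intro h0
          apply hne
          apply Fin.ext
          omega
        have h6 := Int.le_of_dvd (abs_pos.2 h5) ((dvd_abs _ _).2 h3)
        have h7 := hpD l
        have h8 : |(l : ℤ) - (l' : ℤ)| ≤ 3 := by
          rw [abs_le]
          constructor <;> omega
        omega
      show a l' i * (k + l').factorization (p l) = 0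
      rw [Nat.factorization_eq_zero_of_not_dvd h1, mul_zero]
    · intro hl
      exact absurd (Finset.mem_univ l) hl
  have hpos : ∀ l : Fin 4, 0 < (k + l).factorization (p l) := fun l =>
    (hp l).factorization_pos_of_dvd (by omega) (hpk l)
  refine ⟨p, fun l => ⟨hp l, by have := hpD l; omega, fun i => ?_⟩, ?_⟩
  · rw [hfac]
    exact Nat.mul_pos (ha.1 l i) (hpos l)
  · intro l l' hll i j hij hsq
    rw [hfac, hfac, hfac, hfac] at hsq
    refine ha.2 l l' hll i j hij (isSquare_of_mul_sq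
      (m := (k + l).factorization (p l) * (k + l').factorization (p l'))
      (Nat.mul_pos (hpos l) (hpos l')) ?_)
    convert hsq using 1
    ring

theorem count {n : ℕ} (D : ℕ) (a : Fin 4 → Fin n → ℕ) (ha : Indep a) (H : ℕ) :
    Set.ncard {k : ℕ | 1 ≤ k ∧ k ≤ H ∧ ¬ Spread D (fam a k)} ≤
      4 * (Nat.log 2 (H + 3) + 1) ^ (D + 4) := by
  classical
  let S : Finset ℕ := (Finset.Icc 1 (H + 3)).filter fun m => ∀ p, p.Prime → p ∣ m → p ≤ D + 3
  have hsub : {k : ℕ | 1 ≤ k ∧ k ≤ H ∧ ¬ Spread D (fam a k)} ⊆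
      (((Finset.univ : Finset (Fin 4)).biUnion fun l => S.image fun m => m - (l : ℕ)) : Finset ℕ)
      := by
    rintro k ⟨hk1, hk2, hk3⟩
    have h1 : ∃ l : Fin 4, ∀ p, p.Prime → p ∣ k + l → p ≤ D + 3 := by
      by_contra hcon
      push Not at hcon
      apply hk3
      refine spread_of hk1 a ha fun l => ?_
      obtain ⟨p, h2, h3, h4⟩ := hcon l
      exact ⟨p, h2, h3, h4⟩
    obtain ⟨l, hl⟩ := h1
    rw [Finset.mem_coe, Finset.mem_biUnion]
    refine ⟨l, Finset.mem_univ l, ?_⟩
    rw [Finset.mem_image]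
    refine ⟨k + l, ?_, by omega⟩
    rw [Finset.mem_filter, Finset.mem_Icc]
    exact ⟨⟨by omega, by omega⟩, hl⟩
  refine (Set.ncard_le_ncard hsub (Finset.finite_toSet _)).trans ?_
  rw [Set.ncard_coe_finset]
  refine Finset.card_biUnion_le.trans ?_
  have h2 : ∀ l ∈ (Finset.univ : Finset (Fin 4)), (S.image fun m => m - (l : ℕ)).card ≤
      (Nat.log 2 (H + 3) + 1) ^ (D + 4) := fun l _ =>
    Finset.card_image_le.trans (smooth_card (D + 3) (H + 3))
  refine (Finset.sum_le_sum h2).trans ?_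
  rw [Finset.sum_const, Finset.card_univ, Fintype.card_fin, smul_eq_mul]

end Pool.Agent.W466.ZC
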