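import Mathlib

/-!
The number of integers all of whose large prime divisors are multiple is `O(√x)` (helper file).
-/

namespace Pool.Agent.W466.EP

/-- all large prime divisors are multiple -/
def Full (D n : ℕ) : Prop := ∀ p, p.Prime → D < p → p ∣ n → p ^ 2 ∣ n

theorem full_decomp {D n : ℕ} (hn : n ≠ 0) (h : Full D n) :
    ∃ s₁ s₂ c : ℕ, s₁ ≤ D.factorial ∧ s₂ ≠ 0 ∧ c ≠ 0 ∧ n = s₁ * s₂ ^ 3 * c ^ 2 ∧ s₁ ≠ 0 := by
  obtain ⟨s, a, hsa, hs⟩ := Nat.sq_mul_squarefree n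
  have hs0 : s ≠ 0 := hs.ne_zero
  have ha0 : a ≠ 0 := by
    rintro rfl
    rw [zero_pow two_ne_zero, zero_mul] at hsa
    exact hn hsa.symm
  obtain ⟨s₂, hs₂⟩ := Nat.gcd_dvd_left s D.factorial
  have hs₂0 : s₂ ≠ 0 := by
    rintro rfl
    rw [mul_zero] at hs₂
    exact hs0 hs₂
  have hs₂sq : Squarefree s₂ := hs.squarefree_of_dvd (Dvd.intro_left _ hs₂.symm)
  have hdvd : s₂ ∣ a := by
    rw [← Nat.prod_primeFactors_of_squarefree hs₂sq]
    refine Finset.prod_primes_dvd a (fun p hp => (Nat.prime_of_mem_primeFactors hp).prime) ?_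
    intro p hp
    have hpp := Nat.prime_of_mem_primeFactors hp
    have hps₂ := Nat.dvd_of_mem_primeFactors hp
    have hps : p ∣ s := hps₂.trans (Dvd.intro_left _ hs₂.symm)
    have hpD : D < p := by
      by_contra hcon
      push Not at hcon
      have h1 : p ∣ Nat.gcd s D.factorial :=
        Nat.dvd_gcd hps ((Nat.Prime.dvd_factorial hpp).2 hcon)
      have h2 : p * p ∣ s := by
        rw [hs₂]
        exact mul_dvd_mul h1 hps₂
      exact hpp.one_lt.ne' (Nat.isUnit_iff.1 (hs p h2))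
    have h3 := h p hpp hpD (hsa ▸ hps.mul_left (a ^ 2))
    obtain ⟨s', hs'⟩ := hps
    have h4 : ¬ p ∣ s' := by
      intro h5
      have h6 : p * p ∣ s := by
        rw [hs']
        exact mul_dvd_mul_left p h5
      exact hpp.one_lt.ne' (Nat.isUnit_iff.1 (hs p h6))
    rw [← hsa, hs', pow_two] at h3
    have h5 : p * p ∣ p * (a ^ 2 * s') := by
      convert h3 using 1
      ring
    have h6 := Nat.dvd_of_mul_dvd_mul_left hpp.pos h5
    rcases (Nat.Prime.dvd_mul hpp).1 h6 with h7 | h7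
    · exact hpp.dvd_of_dvd_pow h7
    · exact absurd h7 h4
  obtain ⟨c, hc⟩ := hdvd
  refine ⟨Nat.gcd s D.factorial, s₂, c, Nat.gcd_le_right _ (Nat.factorial_pos D), hs₂0, ?_, ?_,
    ?_⟩
  · rintro rfl
    rw [mul_zero] at hc
    exact ha0 hc
  · have h1 : n = a ^ 2 * s := hsa.symm
    have h2 : a ^ 2 * s = (s₂ * c) ^ 2 * (Nat.gcd s D.factorial * s₂) := by
      rw [← hs₂, ← hc]
    rw [h1, h2]
    ring
  · exact (Nat.gcd_pos_of_pos_left _ (Nat.pos_of_ne_zero hs0)).ne'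

theorem full_count (D : ℕ) : ∃ C : ℝ, 0 ≤ C ∧ ∀ X : ℕ,
    (Set.ncard {n : ℕ | 1 ≤ n ∧ n ≤ X ∧ Full D n} : ℝ) ≤ C * √X := by
  classical
  have hsum : Summable (fun n : ℕ => (((n : ℝ)) ^ (3 / 2 : ℝ))⁻¹) :=
    Real.summable_nat_rpow_inv.2 (by norm_num)
  set Z := ∑' n : ℕ, (((n : ℝ)) ^ (3 / 2 : ℝ))⁻¹ with hZ
  have hZ0 : 0 ≤ Z := tsum_nonneg fun n => inv_nonneg.2 (Real.rpow_nonneg (Nat.cast_nonneg n) _)
  refine ⟨(D.factorial + 1 : ℕ) * Z, mul_nonneg (Nat.cast_nonneg _) hZ0, fun X => ?_⟩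
  let T : Finset (ℕ × (Σ _ : ℕ, ℕ)) := (Finset.range (D.factorial + 1)) ×ˢ
    ((Finset.Icc 1 X).sigma fun s => Finset.Icc 1 (Nat.sqrt (X / s ^ 3)))
  have hsub : {n : ℕ | 1 ≤ n ∧ n ≤ X ∧ Full D n} ⊆
      (T.image fun t => t.1 * t.2.1 ^ 3 * t.2.2 ^ 2 : Finset ℕ) := by
    rintro n ⟨hn1, hnX, hn⟩
    obtain ⟨s₁, s₂, c, h1, h2, h3, h4, h5⟩ := full_decomp (by omega) hn
    rw [Finset.mem_coe, Finset.mem_image]
    refine ⟨⟨s₁, ⟨s₂, c⟩⟩, ?_, h4.symm⟩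
    have h6 : s₂ ^ 3 * c ^ 2 ≤ n := by
      rw [h4, mul_assoc]
      exact Nat.le_mul_of_pos_left _ (Nat.pos_of_ne_zero h5)
    have h7 : s₂ ≤ s₂ ^ 3 := Nat.le_self_pow (by norm_num) _
    have h8 : 0 < c ^ 2 := pow_pos (Nat.pos_of_ne_zero h3) 2
    have h9 : 0 < s₂ ^ 3 := pow_pos (Nat.pos_of_ne_zero h2) 3
    rw [Finset.mem_product, Finset.mem_range, Finset.mem_sigma, Finset.mem_Icc, Finset.mem_Icc]
    refine ⟨by omega, ⟨Nat.pos_of_ne_zero h2, ?_⟩, Nat.pos_of_ne_zero h3, ?_⟩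
    · change s₂ ≤ X
      have h10 : s₂ ^ 3 ≤ s₂ ^ 3 * c ^ 2 := Nat.le_mul_of_pos_right _ h8
      omega
    · change c ≤ Nat.sqrt (X / s₂ ^ 3)
      rw [Nat.le_sqrt', Nat.le_div_iff_mul_le h9, mul_comm]
      exact h6.trans hnX
  have h1 : Set.ncard {n : ℕ | 1 ≤ n ∧ n ≤ X ∧ Full D n} ≤ T.card := by
    refine (Set.ncard_le_ncard hsub (Finset.finite_toSet _)).trans ?_
    rw [Set.ncard_coe_finset]
    exact Finset.card_image_le
  have h2 : (T.card : ℝ) ≤ (D.factorial + 1 : ℕ) * (Z * √X) := by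
    have h3 : T.card = (D.factorial + 1) * ∑ s ∈ Finset.Icc 1 X, Nat.sqrt (X / s ^ 3) := by
      rw [Finset.card_product, Finset.card_range, Finset.card_sigma]
      congr 1
      refine Finset.sum_congr rfl fun s _ => ?_
      rw [Nat.card_Icc]
      omega
    rw [h3, Nat.cast_mul]
    refine mul_le_mul_of_nonneg_left ?_ (Nat.cast_nonneg _)
    rw [Nat.cast_sum]
    have h4 : ∀ s ∈ Finset.Icc 1 X, ((Nat.sqrt (X / s ^ 3) : ℕ) : ℝ) ≤
        (((s : ℝ)) ^ (3 / 2 : ℝ))⁻¹ * √X := by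
      intro s hs
      have hs1 : 1 ≤ s := (Finset.mem_Icc.1 hs).1
      have hs0 : (0 : ℝ) < s := by exact_mod_cast hs1
      have h5 : ((Nat.sqrt (X / s ^ 3) : ℕ) : ℝ) ≤ √((X / s ^ 3 : ℕ) : ℝ) :=
        Real.nat_sqrt_le_real_sqrt
      refine h5.trans ?_
      have h6 : ((X / s ^ 3 : ℕ) : ℝ) ≤ (X : ℝ) / (s : ℝ) ^ 3 := by
        have := @Nat.cast_div_le ℝ _ _ _ X (s ^ 3)
        rwa [Nat.cast_pow] at this
      refine (Real.sqrt_le_sqrt h6).trans ?_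
      rw [Real.sqrt_div (Nat.cast_nonneg X), div_eq_inv_mul]
      refine le_of_eq ?_
      congr 2
      rw [Real.sqrt_eq_rpow, ← Real.rpow_natCast, ← Real.rpow_mul hs0.le]
      norm_num
    refine (Finset.sum_le_sum h4).trans ?_
    rw [← Finset.sum_mul]
    refine mul_le_mul_of_nonneg_right ?_ (Real.sqrt_nonneg _)
    exact hsum.sum_le_tsum _ fun s _ => inv_nonneg.2 (Real.rpow_nonneg (Nat.cast_nonneg s) _)
  calc (Set.ncard {n : ℕ | 1 ≤ n ∧ n ≤ X ∧ Full D n} : ℝ) ≤ (T.card : ℝ) := by exact_mod_cast h1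
    _ ≤ (D.factorial + 1 : ℕ) * (Z * √X) := h2
    _ = (D.factorial + 1 : ℕ) * Z * √X := by ring

end Pool.Agent.W466.EP
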