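import Pool.Agent.W466.EI
import Pool.Agent.W466.EJ

/-!
Spread out scalings in one-parameter families, and the case of any field of constants (helper file
for Zilber-Pink for products of powers of an elliptic curve and of the multiplicative group).
-/

open MvPolynomial

namespace Pool.Agent.W466.EP

open Pool.Agent.W466.ZC WeierstrassCurve WeierstrassCurve.Affine

/-- exponents of a product of consecutive factors at a prime dividing exactly one of them -/
theorem fac_prod {L k p : ℕ} (hp : p.Prime) (hk : 1 ≤ k) (hpL : L ≤ p) (a : Fin L → ℕ) (l : Fin L)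
    (h1 : p ∣ k + l) (h2 : ¬ p ^ 2 ∣ k + l) :
    (∏ l' : Fin L, (k + (l' : ℕ)) ^ a l').factorization p = a l := by
  have h3 : (∏ l' : Fin L, (k + (l' : ℕ)) ^ a l').factorization p =
      ∑ l' : Fin L, a l' * (k + (l' : ℕ)).factorization p := by
    rw [Nat.factorization_prod fun l' _ => pow_ne_zero _ (by omega), Finset.sum_apply']
    refine Finset.sum_congr rfl fun l' _ => ?_
    rw [Nat.factorization_pow]
    rfl
  rw [h3, Finset.sum_eq_single l]
  · have h4 : (k + (l : ℕ)).factorization p = 1 := by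
      have h5 : 1 ≤ (k + (l : ℕ)).factorization p :=
        (Nat.Prime.dvd_iff_one_le_factorization hp (by omega)).1 h1
      have h6 : ¬ 2 ≤ (k + (l : ℕ)).factorization p := by
        intro h7
        exact h2 ((Nat.Prime.pow_dvd_iff_le_factorization hp (by omega)).2 h7)
      omega
    rw [h4, mul_one]
  · intro l' _ hne
    have h4 : ¬ p ∣ k + (l' : ℕ) := by
      intro h5
      have h6 : (p : ℤ) ∣ ((k + (l : ℕ) : ℕ) : ℤ) - ((k + (l' : ℕ) : ℕ) : ℤ) :=
        dvd_sub (Int.natCast_dvd_natCast.2 h1) (Int.natCast_dvd_natCast.2 h5)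
      have h7 := Int.eq_zero_of_abs_lt_dvd h6 (by
        have h8 := l.2
        have h9 := l'.2
        rw [abs_lt]
        constructor <;> push_cast <;> omega)
      apply hne
      apply Fin.ext
      push_cast at h7
      omega
    rw [Nat.factorization_eq_zero_of_not_dvd h4, mul_zero]
  · intro h
    exact absurd (Finset.mem_univ l) h

/-- exponents for the families of scalings -/
def GoodExp {α : Type} (q b : ℕ) (e : Fin ((q - 1) * 2 ^ q + 1) → α → ℕ)
    (a : Fin ((q - 1) * 2 ^ q + 1) → Fin q → ℕ) : Prop :=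
  (∀ l i, b ≤ e l i ∧ ¬ b ∣ e l i) ∧ (∀ l i j, i ≠ j → ¬ e l i ≡ e l j [MOD 2 * b]) ∧
    ∀ I : Finset (Fin ((q - 1) * 2 ^ q + 1)), I.card = q → ∀ β : Fin q → ℤ,
      (∀ l ∈ I, ∑ j, β j * (a l j : ℤ) = 0) → β = 0

/-- good exponents exist -/
theorem goodExp_vandermonde {α : Type} (q b : ℕ) (σ : α → ℕ) (hσ : Function.Injective σ)
    (hb : ∀ i, σ i + 1 < b) :
    GoodExp q b (fun _ i => b + 1 + σ i)
      (fun (l : Fin ((q - 1) * 2 ^ q + 1)) (j : Fin q) => ((l : ℕ) + 1) ^ (j : ℕ)) := by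
  refine ⟨?_, ?_, ?_⟩
  · intro l i
    change b ≤ b + 1 + σ i ∧ ¬ b ∣ b + 1 + σ i
    refine ⟨by omega, ?_⟩
    intro h1
    have h2 : b ∣ 1 + σ i := by
      rw [add_assoc] at h1
      exact (Nat.dvd_add_right (dvd_refl b)).1 h1
    have h3 := Nat.le_of_dvd (by omega) h2
    have h4 := hb i
    omega
  · intro l i j hij h1
    have h4 := hb i
    have h5 := hb j
    apply hij
    apply hσ
    have h6 : (b + 1 + σ i) % (2 * b) = b + 1 + σ i := Nat.mod_eq_of_lt (by omega)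
    have h7 : (b + 1 + σ j) % (2 * b) = b + 1 + σ j := Nat.mod_eq_of_lt (by omega)
    have h8 : (b + 1 + σ i) % (2 * b) = (b + 1 + σ j) % (2 * b) := h1
    omega
  · intro I hI β hβ
    let f : Polynomial ℤ := ∑ j : Fin q, Polynomial.C (β j) * Polynomial.X ^ (j : ℕ)
    have hf0 : f = 0 := by
      refine Polynomial.eq_zero_of_degree_lt_of_eval_finset_eq_zero
        (I.image fun l : Fin ((q - 1) * 2 ^ q + 1) => ((l : ℕ) : ℤ) + 1) ?_ ?_
      · rw [Finset.card_image_of_injective _ (by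
          intro x y hxy
          apply Fin.ext
          have h2 : (((x : ℕ) : ℤ) + 1) = ((y : ℕ) : ℤ) + 1 := hxy
          omega), hI]
        exact Polynomial.degree_sum_fin_lt β
      · intro x hx
        obtain ⟨l, hl, rfl⟩ := Finset.mem_image.1 hx
        have h2 := hβ l hl
        rw [Polynomial.eval_finsetSum, ← h2]
        refine Finset.sum_congr rfl fun j _ => ?_
        rw [Polynomial.eval_mul, Polynomial.eval_C, Polynomial.eval_pow, Polynomial.eval_X]
        push_cast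
        rfl
    funext j
    have h2 := congrArg (fun g => Polynomial.coeff g (j : ℕ)) hf0
    have h3 : f.coeff (j : ℕ) = β j := by
      change (∑ j : Fin q, Polynomial.C (β j) * Polynomial.X ^ (j : ℕ)).coeff (j : ℕ) = β j
      rw [Polynomial.finsetSum_coeff, Finset.sum_eq_single j]
      · rw [Polynomial.coeff_C_mul_X_pow, if_pos rfl]
      · intro j' _ hne
        rw [Polynomial.coeff_C_mul_X_pow, if_neg]
        intro h4
        exact hne (Fin.ext h4.symm)
      · intro h4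
        exact absurd (Finset.mem_univ j) h4
    rw [← h3]
    exact h2

/-- the families of scalings -/
theorem spread_family {α : Type} {q D b k : ℕ} (hk : 1 ≤ k)
    {e : Fin ((q - 1) * 2 ^ q + 1) → α → ℕ} {a : Fin ((q - 1) * 2 ^ q + 1) → Fin q → ℕ}
    (hea : GoodExp q b e a)
    (h : ∀ l : Fin ((q - 1) * 2 ^ q + 1), ¬ Full (D + ((q - 1) * 2 ^ q + 1)) (k + l)) :
    SpreadE q D b
      (fun i => ∏ l : Fin ((q - 1) * 2 ^ q + 1), (k + (l : ℕ)) ^ e l i)
      (fun j => ∏ l : Fin ((q - 1) * 2 ^ q + 1), (k + (l : ℕ)) ^ a l j) := by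
  refine ⟨fun j => Finset.prod_ne_zero_iff.2 fun l _ => pow_ne_zero _ (by omega), ?_⟩
  unfold Full at h
  push Not at h
  choose p hp hpD hp1 hp2 using h
  have hf : ∀ (a : Fin ((q - 1) * 2 ^ q + 1) → ℕ) (l : Fin ((q - 1) * 2 ^ q + 1)),
      (∏ l' : Fin ((q - 1) * 2 ^ q + 1), (k + (l' : ℕ)) ^ a l').factorization (p l) = a l :=
    fun a l => fac_prod (hp l) hk (by have := hpD l; omega) a l (hp1 l) (hp2 l)
  refine ⟨p, fun l => ⟨hp l, by have := hpD l; omega⟩, ?_, ?_, ?_⟩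
  · intro l i
    rw [hf (fun l => e l i) l]
    exact hea.1 l i
  · intro l i j hij
    rw [hf (fun l => e l i) l, hf (fun l => e l j) l]
    exact hea.2.1 l i j hij
  · intro I hI β hβ
    refine hea.2.2 I hI β fun l hl => ?_
    rw [← hβ l hl]
    refine Finset.sum_congr rfl fun j _ => ?_
    rw [hf (fun l => a l j) l]

/-- the exceptions in the families -/
theorem family_count (α : Type) (q D : ℕ) : ∃ C : ℝ, ∀ (b : ℕ)
    (e : Fin ((q - 1) * 2 ^ q + 1) → α → ℕ) (a : Fin ((q - 1) * 2 ^ q + 1) → Fin q → ℕ),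
    GoodExp q b e a → ∀ H : ℕ,
    (Set.ncard {k : ℕ | 1 ≤ k ∧ k ≤ H ∧ ¬ SpreadE q D b
      (fun i : α => ∏ l : Fin ((q - 1) * 2 ^ q + 1), (k + (l : ℕ)) ^ e l i)
      (fun j => ∏ l : Fin ((q - 1) * 2 ^ q + 1), (k + (l : ℕ)) ^ a l j)} : ℝ) ≤
      C * √H := by
  classical
  set L := (q - 1) * 2 ^ q + 1 with hL
  obtain ⟨C, hC0, hC⟩ := full_count (D + L)
  refine ⟨L * (C * √(1 + L)), fun b e a hea H => ?_⟩
  rcases Nat.eq_zero_or_pos H with rfl | hH
  · have h1 : {k : ℕ | 1 ≤ k ∧ k ≤ 0 ∧ ¬ SpreadE q D b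
      (fun i : α => ∏ l : Fin L, (k + (l : ℕ)) ^ e l i)
      (fun j => ∏ l : Fin L, (k + (l : ℕ)) ^ a l j)} = ∅ := by
      ext k
      simp only [Set.mem_ofPred_eq, Set.mem_empty_iff_false, iff_false]
      rintro ⟨h1, h2, -⟩
      omega
    rw [h1, Set.ncard_empty, Nat.cast_zero, Real.sqrt_zero, mul_zero]
  let E : Fin L → Set ℕ := fun l => {k : ℕ | 1 ≤ k ∧ k ≤ H ∧ Full (D + L) (k + l)}
  have hfin : ∀ l, (E l).Finite := fun l =>
    (Set.finite_Icc 1 H).subset fun k hk => ⟨hk.1, hk.2.1⟩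
  have hsub : {k : ℕ | 1 ≤ k ∧ k ≤ H ∧ ¬ SpreadE q D b
      (fun i : α => ∏ l : Fin L, (k + (l : ℕ)) ^ e l i)
      (fun j => ∏ l : Fin L, (k + (l : ℕ)) ^ a l j)} ⊆ ⋃ l, E l := by
    rintro k ⟨hk1, hkH, hk⟩
    rw [Set.mem_iUnion]
    by_contra hcon
    push Not at hcon
    exact hk (spread_family hk1 hea fun l hl => hcon l ⟨hk1, hkH, hl⟩)
  have h1 : Set.ncard (⋃ l, E l) ≤ ∑ l, (E l).ncard := Set.ncard_iUnion_le_of_fintype _
  have h2 : ∀ l, ((E l).ncard : ℝ) ≤ C * √(1 + L) * √H := by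
    intro l
    have h3 : (E l).ncard ≤ Set.ncard {n : ℕ | 1 ≤ n ∧ n ≤ H + L ∧ Full (D + L) n} := by
      refine Set.ncard_le_ncard_of_injOn (fun k => k + (l : ℕ)) ?_ ?_
        ((Set.finite_Icc 1 (H + L)).subset fun k hk => ⟨hk.1, hk.2.1⟩)
      · rintro k ⟨hk1, hkH, hk⟩
        have := l.2
        exact ⟨by omega, by omega, hk⟩
      · intro x _ y _ hxy
        exact Nat.add_right_cancel hxy
    have h4 : ((E l).ncard : ℝ) ≤ C * √((H + L : ℕ) : ℝ) :=
      le_trans (by exact_mod_cast h3) (hC (H + L))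
    refine h4.trans ?_
    rw [mul_assoc]
    refine mul_le_mul_of_nonneg_left ?_ hC0
    rw [← Real.sqrt_mul (by positivity)]
    refine Real.sqrt_le_sqrt ?_
    push_cast
    have h5 : (1 : ℝ) ≤ H := by exact_mod_cast hH
    have h6 : (0 : ℝ) ≤ L := Nat.cast_nonneg L
    nlinarith
  calc (Set.ncard {k : ℕ | 1 ≤ k ∧ k ≤ H ∧ ¬ SpreadE q D b
      (fun i : α => ∏ l : Fin L, (k + (l : ℕ)) ^ e l i)
      (fun j => ∏ l : Fin L, (k + (l : ℕ)) ^ a l j)} : ℝ)
      ≤ ((⋃ l, E l).ncard : ℝ) := by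
        exact_mod_cast Set.ncard_le_ncard hsub (Set.finite_iUnion hfin)
    _ ≤ ((∑ l, (E l).ncard : ℕ) : ℝ) := by exact_mod_cast h1
    _ = ∑ l, ((E l).ncard : ℝ) := by push_cast; rfl
    _ ≤ ∑ _l : Fin L, C * √(1 + L) * √H := Finset.sum_le_sum fun l _ => h2 l
    _ = L * (C * √(1 + L)) * √H := by
      rw [Finset.sum_const, Finset.card_univ, Fintype.card_fin, nsmul_eq_mul]
      ring

end Pool.Agent.W466.EP
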