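import Pool.Agent.W466.EG

/-!
Zilber-Pink without atypical intersections for subvarieties of `E^n × G_m^q` with spread out
scalings: the case of an algebraically closed field of constants (helper file).
-/

open MvPolynomial

namespace Pool.Agent.W466.EP

open Pool.Agent.W466.ZC WeierstrassCurve WeierstrassCurve.Affine

/-- elements integral over an algebraically closed field are in the field -/
theorem exists_alg {k : Type} [Field k] [Algebra k ℂ] [IsAlgClosed k] {z : ℂ} (w : k) {m : ℕ}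
    (hm : 0 < m) (h : z ^ m = algebraMap k ℂ w) : ∃ c : k, algebraMap k ℂ c = z := by
  have hz : IsIntegral k z := by
    refine ⟨Polynomial.X ^ m - Polynomial.C w, Polynomial.monic_X_pow_sub_C w hm.ne', ?_⟩
    rw [Polynomial.eval₂_sub, Polynomial.eval₂_X_pow, Polynomial.eval₂_C, h, sub_self]
  obtain ⟨c, hc⟩ := RingHom.mem_range.1 (minpoly.mem_range_of_degree_eq_one k z
    (IsAlgClosed.degree_eq_one_of_irreducible k (minpoly.irreducible hz)))
  exact ⟨c, hc⟩

/-- scaling of algebraically independent numbers -/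
theorem algInd_smul {k : Type} [Field k] [Algebra k ℂ] {τ : Type} {x : τ → ℂ}
    (hx : AlgebraicIndependent k x) (μ : τ → k) (hμ : ∀ s, μ s ≠ 0) :
    AlgebraicIndependent k (fun s => algebraMap k ℂ (μ s) * x s) := by
  let φ : MvPolynomial τ k →ₐ[k] MvPolynomial τ k := aeval fun s => C (μ s) * X s
  let ψ : MvPolynomial τ k →ₐ[k] MvPolynomial τ k := aeval fun s => C (μ s)⁻¹ * X s
  have h1 : ψ.comp φ = AlgHom.id k _ := by
    apply MvPolynomial.algHom_ext
    intro s
    rw [AlgHom.comp_apply, AlgHom.id_apply]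
    change ψ (aeval (fun s => C (μ s) * X s) (X s)) = X s
    rw [aeval_X, map_mul]
    change ψ (C (μ s)) * aeval (fun s => C (μ s)⁻¹ * X s) (X s) = X s
    rw [aeval_X, ← algebraMap_eq, AlgHom.commutes, ← mul_assoc, algebraMap_eq, ← C_mul,
      mul_inv_cancel₀ (hμ s), C_1, one_mul]
  have hφ : Function.Injective φ := by
    intro a b hab
    have h2 := congrArg ψ hab
    rw [← AlgHom.comp_apply, ← AlgHom.comp_apply, h1] at h2
    exact h2
  have h2 : aeval (fun s => algebraMap k ℂ (μ s) * x s) =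
      (aeval x : MvPolynomial τ k →ₐ[k] ℂ).comp φ := by
    apply MvPolynomial.algHom_ext
    intro s
    rw [AlgHom.comp_apply, aeval_X]
    change _ = aeval x (aeval (fun s => C (μ s) * X s) (X s))
    rw [aeval_X, map_mul, aeval_X, ← algebraMap_eq, AlgHom.commutes]
  rw [AlgebraicIndependent, h2]
  have h3 : Function.Injective (aeval x : MvPolynomial τ k →ₐ[k] ℂ) := hx
  exact h3.comp hφ

/-- the spread condition -/
def SpreadE {α : Type} (q D b : ℕ) (N : α → ℕ) (d : Fin q → ℕ) : Prop :=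
  (∀ j, d j ≠ 0) ∧ ∃ p : Fin ((q - 1) * 2 ^ q + 1) → ℕ,
    (∀ l, (p l).Prime ∧ D < p l) ∧
    (∀ l i, b ≤ (N i).factorization (p l) ∧ ¬ b ∣ (N i).factorization (p l)) ∧
    (∀ l i j, i ≠ j →
      ¬ (N i).factorization (p l) ≡ (N j).factorization (p l) [MOD 2 * b]) ∧
    ∀ I : Finset (Fin ((q - 1) * 2 ^ q + 1)), I.card = q → ∀ β : Fin q → ℤ,
      (∀ l ∈ I, ∑ j, β j * ((d j).factorization (p l) : ℤ) = 0) → β = 0

/-- arithmetic of the exponents -/
theorem exps {n b W M : ℕ} (hb : b.Prime) (hM : M < b) (hW : 2 * (M + 1) ≤ W)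
    (e δ : Fin n → ℕ) (hδ : ∀ i, δ i ≤ 1) (he : ∀ i, b ≤ e i ∧ ¬ b ∣ e i)
    (hee : ∀ i j, i ≠ j → ¬ e i ≡ e j [MOD 2 * b]) :
    (∀ i, 1 ≤ W * e i) ∧ (∀ i, b * W < 2 * (W * e i - δ i)) ∧
    (∀ i j, i ≠ j → ¬ W * e i - δ i ≡ W * e j - δ j [MOD 2 * (b * W)]) ∧
    ∀ i h, 0 < h → h ≤ M → ¬ 2 * (b * W) ∣ h * (W * e i - δ i) := by
  have hb2 := hb.two_le
  have hW0 : 0 < W := by omega
  have h1 : ∀ i, b * W ≤ W * e i := fun i => by
    rw [mul_comm]
    exact Nat.mul_le_mul_left W (he i).1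
  have h2 : 4 ≤ b * W := by nlinarith
  have h3 : ∀ i, 1 ≤ W * e i := fun i => by
    have := h1 i
    omega
  have hcast : ∀ i, ((W * e i - δ i : ℕ) : ℤ) = W * e i - δ i := by
    intro i
    rw [Nat.cast_sub ((hδ i).trans (h3 i))]
    push_cast
    rfl
  refine ⟨h3, ?_, ?_, ?_⟩
  · intro i
    have h4 := h1 i
    have h5 := hδ i
    omega
  · intro i j hij h
    rw [Nat.modEq_iff_dvd, hcast, hcast] at h
    have h4 : (W : ℤ) ∣ (W * e j - δ j) - (W * e i - δ i) := by
      refine dvd_trans ⟨2 * b, ?_⟩ h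
      push_cast
      ring
    have h5 : (W : ℤ) ∣ (δ i : ℤ) - δ j := by
      have h6 : (δ i : ℤ) - δ j = ((W * e j - δ j) - (W * e i - δ i)) - W * (e j - e i) := by ring
      rw [h6]
      exact dvd_sub h4 (dvd_mul_right _ _)
    have h6 : (δ i : ℤ) - δ j = 0 := by
      refine Int.eq_zero_of_abs_lt_dvd h5 ?_
      have h7 := hδ i
      have h8 := hδ j
      rw [abs_lt]
      constructor <;> omega
    have h7 : ((2 * (b * W) : ℕ) : ℤ) ∣ W * (e j - e i) := by
      have h8 : (W : ℤ) * (e j - e i) = ((W * e j - δ j) - (W * e i - δ i)) - (δ i - δ j) := by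
        ring
      rw [h8, h6, sub_zero]
      exact h
    have h8 : ((2 * b : ℕ) : ℤ) ∣ (e j : ℤ) - e i := by
      have h9 : (W : ℤ) * ((2 * b : ℕ) : ℤ) ∣ W * (e j - e i) := by
        convert h7 using 1
        push_cast
        ring
      exact (mul_dvd_mul_iff_left (by exact_mod_cast hW0.ne')).1 h9
    exact hee i j hij (Nat.modEq_iff_dvd.2 h8)
  · intro i h hh0 hhM hdvd
    rcases Nat.le_one_iff_eq_zero_or_eq_one.1 (hδ i) with h4 | h4
    · rw [h4, Nat.sub_zero] at hdvd
      have h5 : W * (2 * b) ∣ W * (h * e i) := by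
        convert hdvd using 1 <;> ring
      have h6 : 2 * b ∣ h * e i := Nat.dvd_of_mul_dvd_mul_left hW0 h5
      have h7 : b ∣ h * e i := (Dvd.intro_left 2 rfl).trans h6
      rcases (Nat.Prime.dvd_mul hb).1 h7 with h8 | h8
      · exact absurd (Nat.le_of_dvd hh0 h8) (by omega)
      · exact (he i).2 h8
    · have h5 : (W : ℤ) ∣ (h * (W * e i - δ i) : ℕ) := by
        rw [Int.natCast_dvd_natCast]
        exact (Dvd.intro_left (2 * b) (by ring)).trans hdvd
      rw [Nat.cast_mul, hcast, h4] at h5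
      have h6 : (W : ℤ) ∣ (h : ℤ) := by
        have h7 : (h : ℤ) = W * (h * e i) - h * (W * e i - (1 : ℕ)) := by
          push_cast
          ring
        rw [h7]
        exact dvd_sub (dvd_mul_right _ _) h5
      have h7 := Nat.le_of_dvd hh0 (Int.natCast_dvd_natCast.1 h6)
      omega

end Pool.Agent.W466.EP
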