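import Pool.Agent.W466.ZV

/-!
Valuation rings of `ℂ` above almost all primes containing given complex numbers; points of a
projective algebraic set in such rings (helper file for Zilber-Pink for curves in `Y(1)^n`).
-/

open Function MvPolynomial

namespace Pool.Agent.W466.ZC

/-- numbers integral over a subring of a valuation ring lie in the valuation ring -/
theorem mem_of_integral {R : Subalgebra ℤ ℂ} (V : ValuationSubring ℂ) (hR : ∀ z ∈ R, z ∈ V)
    {z : ℂ} (hz : IsIntegral R z) : z ∈ V := by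
  obtain ⟨P, hP, hPe⟩ := hz
  let φ : R →+* V :=
    { toFun := fun x => ⟨x, hR x x.2⟩
      map_one' := rfl
      map_mul' := fun _ _ => rfl
      map_zero' := rfl
      map_add' := fun _ _ => rfl }
  have h1 : IsIntegral V z := by
    refine ⟨P.map φ, hP.map φ, ?_⟩
    rw [Polynomial.eval₂_map]
    exact hPe
  obtain ⟨y, hy⟩ := IsIntegrallyClosed.isIntegral_iff.1 h1
  rw [← hy]
  exact y.2

/-- Above almost every prime there is a valuation ring of `ℂ` containing given complex numbers. -/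
theorem exists_val {ι : Type*} [Finite ι] (t : ι → ℂ) :
    ∃ D : ℕ, ∀ p : ℕ, p.Prime → D < p → ∃ V : ValuationSubring ℂ,
      (p : ℂ) ∈ V.nonunits ∧ ∀ i, t i ∈ V := by
  classical
  have := Fintype.ofFinite ι
  obtain ⟨s, hs⟩ := exists_isTranscendenceBasis ℤ ℂ
  have : Algebra.IsAlgebraic ℤ ℚ := IsLocalization.isAlgebraic ℚ (nonZeroDivisors ℤ)
  have hsQ : AlgebraicIndependent ℚ ((↑) : s → ℂ) := hs.1.extendScalars ℚ
  have halg : Algebra.IsAlgebraic (Algebra.adjoin ℤ (Set.range ((↑) : s → ℂ))) ℂ := hs.isAlgebraic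
  have h1 : ∀ i, ∃ f : MvPolynomial s ℤ, f ≠ 0 ∧
      IsIntegral (Algebra.adjoin ℤ (Set.range ((↑) : s → ℂ)))
        (aeval ((↑) : s → ℂ) f * t i) := by
    intro i
    obtain ⟨a, ha, hint⟩ := (halg.1 (t i)).exists_integral_multiple
    have h2 : (a : ℂ) ∈ (aeval ((↑) : s → ℂ) : MvPolynomial s ℤ →ₐ[ℤ] ℂ).range := by
      rw [← Algebra.adjoin_range_eq_range_aeval]
      exact a.2
    obtain ⟨f, hf⟩ := h2
    refine ⟨f, ?_, ?_⟩
    · rintro rfl
      apply ha
      apply Subtype.ext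
      rw [← hf]
      simp
    · have h3 : aeval ((↑) : s → ℂ) f = (a : ℂ) := hf
      rw [h3]
      exact hint
  choose f hf hint using h1
  have h2 : ∀ i, ∃ m, (f i).coeff m ≠ 0 := fun i => by
    by_contra h
    push Not at h
    exact hf i (MvPolynomial.ext _ _ fun m => by rw [h m, coeff_zero])
  choose m hm using h2
  refine ⟨∑ i, ((f i).coeff (m i)).natAbs, fun p hp hpD => ?_⟩
  obtain ⟨V, hV1, hV2, hV3⟩ := ZP.exists_gauss ((↑) : s → ℂ) hsQ hp
  refine ⟨V, hV1, fun i => ?_⟩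
  have hnd : ¬ (C (p : ℤ) ∣ f i) := by
    intro h
    rw [C_dvd_iff_dvd_coeff] at h
    have h3 : p ∣ ((f i).coeff (m i)).natAbs := Int.natCast_dvd.1 (h (m i))
    have h4 := Nat.le_of_dvd (Int.natAbs_pos.2 (hm i)) h3
    have h5 : ((f i).coeff (m i)).natAbs ≤ ∑ i, ((f i).coeff (m i)).natAbs :=
      Finset.single_le_sum (f := fun i => ((f i).coeff (m i)).natAbs)
        (fun _ _ => Nat.zero_le _) (Finset.mem_univ i)
    omega
  have h3 := hV3 (f i) hnd
  have h4 : aeval ((↑) : s → ℂ) (f i) * t i ∈ V := by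
    refine mem_of_integral V ?_ (hint i)
    intro z hz
    have hle : Algebra.adjoin ℤ (Set.range ((↑) : s → ℂ)) ≤ subalgebraOfSubring V.toSubring := by
      refine Algebra.adjoin_le ?_
      rintro _ ⟨x, rfl⟩
      exact hV2 x
    exact hle hz
  rw [← ValuationSubring.valuation_le_one_iff, map_mul, h3, one_mul] at h4
  exact (ValuationSubring.valuation_le_one_iff _ _).1 h4

variable {σ : Type*} [Fintype σ]

omit [Fintype σ] in
/-- A form vanishes at `c y` if it vanishes at `y`. -/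
theorem eval_smul {P : MvPolynomial σ ℂ} {e : ℕ} (hP : P.IsHomogeneous e) (c : ℂ) (y : σ → ℂ) :
    eval (c • y) P = c ^ e * eval y P := by
  rw [eval_eq, eval_eq, Finset.mul_sum]
  refine Finset.sum_congr rfl fun u hu => ?_
  have h1 : u.degree = e := by
    by_contra hne'
    exact (mem_support_iff.1 hu) (hP.coeff_eq_zero hne')
  have h2 : ∏ i ∈ u.support, (c • y) i ^ u i = c ^ e * ∏ i ∈ u.support, y i ^ u i := by
    rw [← h1, Finsupp.degree_apply, ← Finset.prod_pow_eq_pow_sum, ← Finset.prod_mul_distrib]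
    refine Finset.prod_congr rfl fun i _ => ?_
    rw [Pi.smul_apply, smul_eq_mul, mul_pow]
  rw [h2]
  ring

/-- The certificate. -/
theorem cert {β κ : Type*} [Fintype β] (G : κ → MvPolynomial σ ℂ) (F : β → MvPolynomial σ ℂ)
    (hs : ∀ y : σ → ℂ, (∀ k, eval y (G k) = 0) → (∀ b, eval y (F b) = 0) → y = 0) :
    ∃ (M : ℕ) (U : σ → β → MvPolynomial σ ℂ), ∀ y : σ → ℂ, (∀ k, eval y (G k) = 0) → ∀ j,
      y j ^ M = ∑ b, eval y (U j b) * eval y (F b) := by
  classical
  let J1 : Ideal (MvPolynomial σ ℂ) := Ideal.span (Set.range F)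
  let J2 : Ideal (MvPolynomial σ ℂ) := Ideal.span (Set.range G)
  have hrad : ∀ j, X j ∈ (J1 ⊔ J2).radical := by
    intro j
    rw [← vanishingIdeal_zeroLocus_eq_radical (K := ℂ), mem_vanishingIdeal_iff]
    intro y hy
    rw [mem_zeroLocus_iff] at hy
    have hy0 : y = 0 := by
      apply hs y
      · intro k
        rw [← aeval_eq_eval]
        exact hy _ (Ideal.mem_sup_right (Ideal.subset_span ⟨k, rfl⟩))
      · intro b
        rw [← aeval_eq_eval]
        exact hy _ (Ideal.mem_sup_left (Ideal.subset_span ⟨b, rfl⟩))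
    rw [aeval_X, hy0]
    rfl
  choose Mj hMj using hrad
  refine ⟨∑ j, Mj j, ?_⟩
  have h1 : ∀ j, (X j : MvPolynomial σ ℂ) ^ (∑ j, Mj j) ∈ J1 ⊔ J2 := by
    intro j
    have h2 : ∑ j, Mj j = Mj j + (∑ j, Mj j - Mj j) :=
      (Nat.add_sub_cancel' (Finset.single_le_sum (f := Mj) (fun i _ => Nat.zero_le _)
        (Finset.mem_univ j))).symm
    rw [h2, pow_add]
    exact Ideal.mul_mem_right _ _ (hMj j)
  have h2 : ∀ j, ∃ U : β → MvPolynomial σ ℂ, ∀ y : σ → ℂ, (∀ k, eval y (G k) = 0) →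
        y j ^ (∑ j, Mj j) = ∑ b, eval y (U b) * eval y (F b) := by
    intro j
    obtain ⟨u, hu, w, hw, huw⟩ := Submodule.mem_sup.1 (h1 j)
    obtain ⟨A, hA⟩ := (Ideal.mem_span_range_iff_exists_fun).1 hu
    refine ⟨A, fun y hy => ?_⟩
    have hw0 : eval y w = 0 := by
      have h3 : J2 ≤ RingHom.ker (eval y : MvPolynomial σ ℂ →+* ℂ) := by
        rw [Ideal.span_le]
        rintro _ ⟨k, rfl⟩
        rw [SetLike.mem_coe, RingHom.mem_ker]
        exact hy k
      exact h3 hw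
    have h4 := congrArg (MvPolynomial.eval y) huw
    rw [map_add, hw0, add_zero, ← hA, map_sum, map_pow, eval_X] at h4
    rw [← h4]
    refine Finset.sum_congr rfl fun b _ => ?_
    rw [map_mul]
  choose U hU using h2
  exact ⟨U, fun y hy j => hU j y hy⟩

/-- value of a polynomial with coefficients in the valuation ring -/
theorem eval_mem (V : ValuationSubring ℂ) (P : MvPolynomial σ ℂ)
    (hP : ∀ u ∈ P.support, P.coeff u ∈ V) {y : σ → ℂ} (hy : ∀ j, y j ∈ V) : eval y P ∈ V := by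
  rw [eval_eq']
  exact sum_mem fun u hu => mul_mem (hP u hu) (prod_mem fun j _ => pow_mem (hy j) _)

/-- Good valuation rings: every point has coordinates in the ring such that at most `m` of the
given products are non-units. -/
theorem good {κ : Type*} {n m : ℕ} (G : κ → MvPolynomial σ ℂ)
    (hhom : ∀ k, ∃ e, (G k).IsHomogeneous e) (A B : Fin n → MvPolynomial σ ℂ)
    (hdis : ∀ I : Finset (Fin n), I.card = m + 1 → ∀ y : σ → ℂ, (∀ k, eval y (G k) = 0) →
      (∀ i ∈ I, eval y (A i) * eval y (B i) = 0) → y = 0) :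
    ∃ D : ℕ, ∀ p : ℕ, p.Prime → D < p → ∃ V : ValuationSubring ℂ, (p : ℂ) ∈ V.nonunits ∧
      ∀ y : σ → ℂ, y ≠ 0 → (∀ k, eval y (G k) = 0) →
        ∃ c : ℂ, c ≠ 0 ∧ (∀ i, eval (c • y) (A i) ∈ V ∧ eval (c • y) (B i) ∈ V) ∧
          ∀ I : Finset (Fin n), I.card = m + 1 → ∃ i ∈ I,
            V.valuation (eval (c • y) (A i) * eval (c • y) (B i)) = 1 := by
  classical
  have hcert := fun I : {I : Finset (Fin n) // I.card = m + 1} =>
    cert G (fun b : I.1 => A b * B b) (fun y hy hb => hdis I.1 I.2 y hy fun i hi => by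
      have := hb ⟨i, hi⟩
      rwa [map_mul] at this)
  choose M U hU using hcert
  let ι1 := (I : {I : Finset (Fin n) // I.card = m + 1}) × (j : σ) × (b : I.1) × (U I j b).support
  let ι2 := (i : Fin n) × (A i).support
  let ι3 := (i : Fin n) × (B i).support
  let t : ι1 ⊕ (ι2 ⊕ ι3) → ℂ := Sum.elim (fun i => (U i.1 i.2.1 i.2.2.1).coeff i.2.2.2.1)
    (Sum.elim (fun i => (A i.1).coeff i.2.1) (fun i => (B i.1).coeff i.2.1))
  obtain ⟨D, hD⟩ := exists_val t
  refine ⟨D, fun p hp hpD => ?_⟩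
  obtain ⟨V, hV, hVt⟩ := hD p hp hpD
  refine ⟨V, hV, fun y hy0 hyG => ?_⟩
  have hUV : ∀ I j b, ∀ u ∈ (U I j b).support, (U I j b).coeff u ∈ V := fun I j b u hu =>
    hVt (Sum.inl ⟨I, j, b, u, hu⟩)
  have hAV : ∀ i, ∀ u ∈ (A i).support, (A i).coeff u ∈ V := fun i u hu =>
    hVt (Sum.inr (Sum.inl ⟨i, u, hu⟩))
  have hBV : ∀ i, ∀ u ∈ (B i).support, (B i).coeff u ∈ V := fun i u hu =>
    hVt (Sum.inr (Sum.inr ⟨i, u, hu⟩))
  set v := V.valuation with hv
  have hne : (Finset.univ : Finset σ).Nonempty := by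
    by_contra h
    rw [Finset.not_nonempty_iff_eq_empty, Finset.univ_eq_empty_iff] at h
    exact hy0 (funext fun j => (h.false j).elim)
  obtain ⟨j0, -, hj0⟩ := Finset.exists_max_image Finset.univ (fun j => v (y j)) hne
  have hyj0 : y j0 ≠ 0 := by
    intro h
    apply hy0
    funext j
    have h1 := hj0 j (Finset.mem_univ j)
    simp only [h, map_zero, le_zero_iff] at h1
    exact (map_eq_zero v).1 h1
  set z := (y j0)⁻¹ • y with hz
  have hzV : ∀ j, z j ∈ V := by
    intro j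
    rw [← ValuationSubring.valuation_le_one_iff, hz, Pi.smul_apply, smul_eq_mul, map_mul, map_inv₀]
    have h1 := hj0 j (Finset.mem_univ j)
    have h2 : v (y j0) ≠ 0 := (map_ne_zero v).2 hyj0
    calc (v (y j0))⁻¹ * v (y j) ≤ (v (y j0))⁻¹ * v (y j0) := mul_le_mul_right h1 _
      _ = 1 := inv_mul_cancel₀ h2
  have hzG : ∀ k, eval z (G k) = 0 := by
    intro k
    obtain ⟨e, he⟩ := hhom k
    rw [hz, eval_smul he, hyG k, mul_zero]
  refine ⟨(y j0)⁻¹, inv_ne_zero hyj0, fun i => ⟨eval_mem V _ (hAV i) hzV,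
    eval_mem V _ (hBV i) hzV⟩, ?_⟩
  intro I hI
  by_contra hcon
  push Not at hcon
  have hlt : ∀ i ∈ I, v (eval z (A i) * eval z (B i)) < 1 := by
    intro i hi
    refine lt_of_le_of_ne ?_ (hcon i hi)
    rw [ValuationSubring.valuation_le_one_iff]
    exact mul_mem (eval_mem V _ (hAV i) hzV) (eval_mem V _ (hBV i) hzV)
  have h1 := hU ⟨I, hI⟩ z hzG j0
  have h2 : z j0 = 1 := by
    rw [hz, Pi.smul_apply, smul_eq_mul, inv_mul_cancel₀ hyj0]
  rw [h2, one_pow] at h1
  have h3 : v (∑ b : I, eval z (U ⟨I, hI⟩ j0 b) * eval z (A b * B b)) < 1 := by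
    refine Valuation.map_sum_lt _ one_ne_zero fun b _ => ?_
    have e1 : MvPolynomial.eval z (A b * B b) = MvPolynomial.eval z (A b) *
      MvPolynomial.eval z (B b) := map_mul _ _ _
    rw [map_mul, e1]
    exact (mul_le_of_le_one_left' ((ValuationSubring.valuation_le_one_iff _ _).2
      (eval_mem V _ (hUV ⟨I, hI⟩ j0 b) hzV))).trans_lt (hlt b b.2)
  rw [← h1, map_one] at h3
  exact lt_irrefl _ h3

end Pool.Agent.W466.ZC
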