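import Pool.Agent.W466.CA
import Pool.Agent.W282.ZP.Geo

/-!
Coordinates of the same class with poles of exact orders (helper file for Zilber-Pink for curves in
`Y(1)^n`). The Newton polygon of the modular equation is due to the files `Pool.Agent.W282.ZP`.
-/

open Function UpperHalfPlane H294ZP

namespace Pool.Agent.W466.ZC

/-- the degree of the isogeny between two coordinates of the same class -/
def deg {n r : ℕ} (Z : SpecialDatum n r) (i j : Fin n) : ℕ :=
  ((Z.mat i).det * (Z.mat j).det).toNat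

theorem deg_pos {n r : ℕ} (Z : SpecialDatum n r) (i j : Fin n) : 0 < deg Z i j := by
  have := mul_pos (Z.det_pos i) (Z.det_pos j)
  rw [deg]
  omega

theorem rel {n r : ℕ} (Z : SpecialDatum n r) {x : Fin n → ℂ} (hx : x ∈ Z.locus) {i j : Fin n}
    {k : Fin r} (hi : Z.cls i = some k) (hj : Z.cls j = some k) (V : ValuationSubring ℂ) :
    (V.valuation (x i) ≤ 1 → V.valuation (x j) ≤ 1) ∧
    (1 < V.valuation (x i) → ∃ a : ℕ, V.valuation (x j) ^ deg Z i j =
      V.valuation (x i) ^ (a ^ 2)) := by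
  obtain ⟨z, hz⟩ := hx
  obtain ⟨w, hw, hxw⟩ := (hz i).2 k hi
  obtain ⟨w', hw', hxw'⟩ := (hz j).2 k hj
  have h1 := W282.ZP.eval_relPoly_eq_zero (x := x) (i := i) (i' := j) (Z.det_pos i) (Z.det_pos j)
    hw hw' hxw hxw'
  rw [W282.ZP.eval_relPoly] at h1
  exact (W282.ZP.Psi_spec (deg_pos Z i j)).2.2 ℂ V (x i) (x j) h1

theorem pow_inj {V : ValuationSubring ℂ} {u : V.ValueGroup} (h0 : 0 < u) (h1 : u < 1) {a b : ℕ}
    (h : u ^ a = u ^ b) : a = b := by
  rcases lt_trichotomy a b with hlt | heq | hgt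
  · exact absurd h (pow_lt_pow_right_of_lt_one₀ h0 h1 hlt).ne'
  · exact heq
  · exact absurd h (pow_lt_pow_right_of_lt_one₀ h0 h1 hgt).ne

/-- the coordinate has a pole of exact order `e` -/
def Polar (V : ValuationSubring ℂ) (p e : ℕ) (z : ℂ) : Prop :=
  V.valuation z * V.valuation (p : ℂ) ^ e = 1

theorem Polar.one_lt {V : ValuationSubring ℂ} {p e : ℕ} (hp : (p : ℂ) ∈ V.nonunits) (he : 0 < e)
    {z : ℂ} (h : Polar V p e z) : 1 < V.valuation z := by
  rw [ValuationSubring.mem_nonunits_iff] at hp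
  by_contra hle
  push Not at hle
  have h1 : V.valuation z * V.valuation (p : ℂ) ^ e < 1 :=
    (mul_le_of_le_one_left' hle).trans_lt (pow_lt_one₀ zero_le hp he.ne')
  rw [Polar] at h
  rw [h] at h1
  exact lt_irrefl _ h1

/-- Two coordinates of the same class with poles of exact orders `e` and `e'`: the number
`N e e'` is a square. -/
theorem sq_of_polar {n r : ℕ} (Z : SpecialDatum n r) {x : Fin n → ℂ} (hx : x ∈ Z.locus)
    {i j : Fin n} {k : Fin r} (hi : Z.cls i = some k) (hj : Z.cls j = some k)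
    (V : ValuationSubring ℂ) {p e e' : ℕ} (hp : (p : ℂ) ∈ V.nonunits) (he : 0 < e)
    (h : Polar V p e (x i)) (h' : Polar V p e' (x j)) : IsSquare (deg Z i j * (e * e')) := by
  obtain ⟨a, ha⟩ := (rel Z hx hi hj V).2 (h.one_lt hp he)
  have hp1 : V.valuation (p : ℂ) < 1 := by rwa [ValuationSubring.mem_nonunits_iff] at hp
  have hp0 : 0 < V.valuation (p : ℂ) := by
    rw [zero_lt_iff]
    intro h0
    rw [Polar, h0, zero_pow he.ne', mul_zero] at h
    exact zero_ne_one h
  rw [Polar] at h h'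
  have h1 : V.valuation (x i) ^ (a ^ 2) * V.valuation (p : ℂ) ^ (e * a ^ 2) = 1 := by
    rw [pow_mul, ← mul_pow, h, one_pow]
  have h2 : V.valuation (x i) ^ (a ^ 2) * V.valuation (p : ℂ) ^ (e' * deg Z i j) = 1 := by
    rw [← ha, pow_mul, ← mul_pow, h', one_pow]
  have h3 : V.valuation (x i) ^ (a ^ 2) ≠ 0 := by
    intro h0
    rw [h0, zero_mul] at h1
    exact zero_ne_one h1
  have h4 := pow_inj hp0 hp1 (mul_left_cancel₀ h3 (h1.trans h2.symm))
  refine ⟨a * e, ?_⟩
  calc deg Z i j * (e * e') = e * (e' * deg Z i j) := by ring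
    _ = e * (e * a ^ 2) := by rw [h4]
    _ = a * e * (a * e) := by ring

/-- from two primes: a square free of `N` -/
theorem sq_two {N u v : ℕ} (hN : 0 < N) (h1 : IsSquare (N * u)) (h2 : IsSquare (N * v)) :
    IsSquare (u * v) := by
  obtain ⟨a, ha⟩ := h1
  obtain ⟨b, hb⟩ := h2
  have h3 : N ^ 2 * (u * v) = (a * b) ^ 2 := by
    calc N ^ 2 * (u * v) = (N * u) * (N * v) := by ring
      _ = (a * a) * (b * b) := by rw [ha, hb]
      _ = (a * b) ^ 2 := by ring
  have h4 : N ∣ a * b := by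
    rw [← Nat.pow_dvd_pow_iff (two_ne_zero)]
    exact ⟨u * v, h3.symm⟩
  obtain ⟨c, hc⟩ := h4
  refine ⟨c, ?_⟩
  rw [hc] at h3
  have h5 : N ^ 2 * (u * v) = N ^ 2 * (c * c) := by rw [h3]; ring
  exact Nat.eq_of_mul_eq_mul_left (pow_pos hN 2) h5

/-- constant coordinates are integral -/
theorem cm_le {n r : ℕ} (Z : SpecialDatum n r) {x : Fin n → ℂ} (hx : x ∈ Z.locus) {i : Fin n}
    (hi : Z.cls i = none) (V : ValuationSubring ℂ) : V.valuation (x i) ≤ 1 := by
  obtain ⟨z, hz⟩ := hx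
  rw [(hz i).1 hi, ValuationSubring.valuation_le_one_iff]
  exact H294ZP.mem_of_integral_int V (singular_modulus_integral (Z.cm i) (Z.isCM i))

end Pool.Agent.W466.ZC
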