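import Pool.Agent.W466.CB

/-!
The criterion (helper file for Zilber-Pink for curves in `Y(1)^n`).
-/

open Function UpperHalfPlane H294ZP MvPolynomial

namespace Pool.Agent.W466.ZC

/-- pigeonhole for the pairs -/
theorem pairs {n r : ℕ} (h : r + 2 ≤ n) (cls : Fin n → Option (Fin r))
    (hcls : ∀ i, cls i ≠ none) : ∃ P : Fin 3 → Fin n × Fin n,
      (∀ t, (P t).1 ≠ (P t).2 ∧ cls (P t).1 = cls (P t).2) ∧
      ∀ b : Fin n, ∃ t, (P t).1 ≠ b ∧ (P t).2 ≠ b := by
  classical
  have hmem : ∀ i, cls i ∈ (Finset.univ : Finset (Fin r)).image some := by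
    intro i
    obtain ⟨k, hk⟩ := Option.ne_none_iff_exists'.1 (hcls i)
    rw [hk]
    exact Finset.mem_image_of_mem _ (Finset.mem_univ k)
  have hcard : ((Finset.univ : Finset (Fin r)).image (some : Fin r → Option (Fin r))).card ≤ r := by
    refine Finset.card_image_le.trans ?_
    rw [Finset.card_univ, Fintype.card_fin]
  obtain ⟨a, -, b, -, hab, hcab⟩ := Finset.exists_ne_map_eq_of_card_lt_of_maps_to
    (s := (Finset.univ : Finset (Fin n))) (t := (Finset.univ : Finset (Fin r)).image some)
    (f := cls) (by rw [Finset.card_univ, Fintype.card_fin]; omega) (fun i _ => hmem i)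
  obtain ⟨c, hc, d, hd, hcd, hccd⟩ := Finset.exists_ne_map_eq_of_card_lt_of_maps_to
    (s := (Finset.univ : Finset (Fin n)).erase b) (t := (Finset.univ : Finset (Fin r)).image some)
    (f := cls) (by rw [Finset.card_erase_of_mem (Finset.mem_univ b), Finset.card_univ,
      Fintype.card_fin]; omega) (fun i _ => hmem i)
  have hcb : c ≠ b := (Finset.mem_erase.1 hc).1
  have hdb : d ≠ b := (Finset.mem_erase.1 hd).1
  by_cases hca : c = a
  · subst hca
    refine ⟨![(c, b), (c, d), (b, d)], ?_, ?_⟩
    · intro t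
      fin_cases t
      · exact ⟨hab, hcab⟩
      · exact ⟨hcd, hccd⟩
      · exact ⟨hdb.symm, hcab.symm.trans hccd⟩
    · intro e
      by_cases h1 : e = c
      · subst h1
        exact ⟨2, hcb.symm, hcd.symm⟩
      · by_cases h2 : e = b
        · subst h2
          exact ⟨1, hcb, hdb⟩
        · exact ⟨0, fun h => h1 h.symm, fun h => h2 h.symm⟩
  · by_cases hda : d = a
    · subst hda
      refine ⟨![(d, b), (d, c), (b, c)], ?_, ?_⟩
      · intro t
        fin_cases t
        · exact ⟨hab, hcab⟩
        · exact ⟨hcd.symm, hccd.symm⟩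
        · exact ⟨hcb.symm, hcab.symm.trans hccd.symm⟩
      · intro e
        by_cases h1 : e = d
        · subst h1
          exact ⟨2, hdb.symm, hcd⟩
        · by_cases h2 : e = b
          · subst h2
            exact ⟨1, hdb, hcb⟩
          · exact ⟨0, fun h => h1 h.symm, fun h => h2 h.symm⟩
    · refine ⟨![(a, b), (c, d), (c, d)], ?_, ?_⟩
      · intro t
        fin_cases t
        · exact ⟨hab, hcab⟩
        · exact ⟨hcd, hccd⟩
        · exact ⟨hcd, hccd⟩
      · intro e
        by_cases h1 : e = a
        · subst h1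
          exact ⟨1, hca, hda⟩
        · by_cases h2 : e = b
          · subst h2
            exact ⟨1, hcb, hdb⟩
          · exact ⟨0, fun h => h1 h.symm, fun h => h2 h.symm⟩

/-- Two coordinates of the same class that are good at two of the four primes. -/
theorem comb {n r : ℕ} (h : r + 2 ≤ n) (cls : Fin n → Option (Fin r))
    (Good : Fin 4 → Fin n → Prop) (hbad : ∀ l i j, i ≠ j → Good l i ∨ Good l j)
    (hcm : ∀ i, cls i = none → ∀ l, ¬ Good l i) :
    ∃ l l', l ≠ l' ∧ ∃ i j, i ≠ j ∧ ∃ k, cls i = some k ∧ cls j = some k ∧ Good l i ∧ Good l j ∧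
      Good l' i ∧ Good l' j := by
  classical
  by_cases hex : ∃ i0, cls i0 = none
  · obtain ⟨i0, hi0⟩ := hex
    have hg : ∀ i, i ≠ i0 → ∀ l, Good l i := by
      intro i hi l
      rcases hbad l i i0 hi with h1 | h1
      · exact h1
      · exact absurd h1 (hcm i0 hi0 l)
    have hsome : ∀ i, i ≠ i0 → cls i ≠ none := fun i hi h0 => hcm i h0 0 (hg i hi 0)
    have hcard : ((Finset.univ : Finset (Fin r)).image
        (some : Fin r → Option (Fin r))).card ≤ r := by
      refine Finset.card_image_le.trans ?_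
      rw [Finset.card_univ, Fintype.card_fin]
    obtain ⟨c, hc, d, hd, hcd, hccd⟩ := Finset.exists_ne_map_eq_of_card_lt_of_maps_to
      (s := (Finset.univ : Finset (Fin n)).erase i0)
      (t := (Finset.univ : Finset (Fin r)).image some)
      (f := cls) (by rw [Finset.card_erase_of_mem (Finset.mem_univ i0), Finset.card_univ,
        Fintype.card_fin]; omega) (by
          intro i hi
          obtain ⟨k, hk⟩ := Option.ne_none_iff_exists'.1 (hsome i (Finset.mem_erase.1 hi).1)
          rw [hk]
          exact Finset.mem_image_of_mem _ (Finset.mem_univ k))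
    have hc0 := (Finset.mem_erase.1 hc).1
    have hd0 := (Finset.mem_erase.1 hd).1
    obtain ⟨k, hk⟩ := Option.ne_none_iff_exists'.1 (hsome c hc0)
    exact ⟨0, 1, by decide, c, d, hcd, k, hk, hccd ▸ hk, hg c hc0 0, hg d hd0 0, hg c hc0 1,
      hg d hd0 1⟩
  · push Not at hex
    obtain ⟨P, hP1, hP2⟩ := pairs h cls hex
    have hb : ∀ l, ∃ b, ∀ i, i ≠ b → Good l i := by
      intro l
      by_cases hall : ∀ i, Good l i
      · exact ⟨⟨0, by omega⟩, fun i _ => hall i⟩
      · push Not at hall
        obtain ⟨b, hb⟩ := hall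
        refine ⟨b, fun i hi => ?_⟩
        rcases hbad l i b hi with h1 | h1
        · exact h1
        · exact absurd h1 hb
    choose b hb using hb
    choose t ht using fun l => hP2 (b l)
    obtain ⟨l, l', hll, htt⟩ := Fintype.exists_ne_map_eq_of_card_lt t (by simp)
    obtain ⟨k, hk⟩ := Option.ne_none_iff_exists'.1 (hex (P (t l)).1)
    refine ⟨l, l', hll, (P (t l)).1, (P (t l)).2, (hP1 _).1, k, hk, (hP1 (t l)).2 ▸ hk,
      hb l _ (ht l).1, hb l _ (ht l).2, ?_, ?_⟩
    · rw [htt]
      exact hb l' _ (ht l').1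
    · rw [htt]
      exact hb l' _ (ht l').2

/-- The scaling vector `c` is spread out: at four primes larger than `D` all the `c i` have
positive exponents, and the exponents at different primes are independent modulo squares. -/
def Spread {n : ℕ} (D : ℕ) (c : Fin n → ℕ) : Prop :=
  ∃ p : Fin 4 → ℕ, (∀ l, (p l).Prime ∧ D < p l ∧ ∀ i, 0 < (c i).factorization (p l)) ∧
    ∀ l l', l ≠ l' → ∀ i j, i ≠ j →
      ¬ IsSquare ((c i).factorization (p l) * (c j).factorization (p l) *
        ((c i).factorization (p l') * (c j).factorization (p l')))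

/-- the value of a natural number at a valuation ring above `p` -/
theorem val_nat (V : ValuationSubring ℂ) {p : ℕ} (hp : p.Prime) (hV : (p : ℂ) ∈ V.nonunits)
    {c : ℕ} (hc : c ≠ 0) : V.valuation (c : ℂ) = V.valuation (p : ℂ) ^ c.factorization p := by
  have h1 := Nat.ordProj_mul_ordCompl_eq_self c p
  have h2 : ¬ (p : ℤ) ∣ ((c / p ^ c.factorization p : ℕ) : ℤ) := by
    rw [Int.natCast_dvd_natCast]
    exact Nat.not_dvd_ordCompl hp hc
  have h3 := ZP.int_unit V hp hV _ h2
  conv_lhs => rw [← h1]
  rw [Nat.cast_mul, map_mul, Nat.cast_pow, map_pow]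
  have h4 : (((c / p ^ c.factorization p : ℕ) : ℤ) : ℂ) = ((c / p ^ c.factorization p : ℕ) : ℂ) :=
    Int.cast_natCast _
  rw [← h4, h3, mul_one]

/-- a good coordinate has a pole of exact order -/
theorem polar_of_good (V : ValuationSubring ℂ) {p : ℕ} (hp : p.Prime) (hV : (p : ℂ) ∈ V.nonunits)
    {c : ℕ} (hc : c ≠ 0) {a b x : ℂ} (ha : a ∈ V) (hb : b ∈ V) (hab : V.valuation (a * b) = 1)
    (h : (c : ℂ) * b * x = a) : Polar V p (c.factorization p) x := by
  rw [← ValuationSubring.valuation_le_one_iff] at ha hb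
  rw [map_mul] at hab
  have ha1 : V.valuation a = 1 := by
    refine le_antisymm ha ?_
    by_contra hlt
    push Not at hlt
    have : V.valuation a * V.valuation b < 1 :=
      (mul_le_of_le_one_right' hb).trans_lt hlt
    rw [hab] at this
    exact lt_irrefl _ this
  have hb1 : V.valuation b = 1 := by rwa [ha1, one_mul] at hab
  have h1 := congrArg V.valuation h
  rw [map_mul, map_mul, hb1, mul_one, ha1, val_nat V hp hV hc] at h1
  rw [Polar, mul_comm]
  exact h1

end Pool.Agent.W466.ZC
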