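import Pool.Agent.W466.CC

/-!
Zilber-Pink for scaled curves in `Y(1)^n` (helper file).
-/

open Function UpperHalfPlane H294ZP MvPolynomial

namespace Pool.Agent.W466.ZC

variable {κ : Type*} {N n : ℕ}

theorem main (hn : 2 ≤ n) (G : κ → MvPolynomial (Fin (N + 1)) ℂ)
    (hG : ∀ k, ∃ e, (G k).IsHomogeneous e) (A B : Fin n → MvPolynomial (Fin (N + 1)) ℂ)
    (d : Fin n → ℕ) (hA : ∀ i, (A i).IsHomogeneous (d i)) (hB : ∀ i, (B i).IsHomogeneous (d i))
    (hdisj : ∀ i j, i ≠ j → ∀ y : Fin (N + 1) → ℂ, y ≠ 0 → (∀ k, eval y (G k) = 0) →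
      eval y (A i) * eval y (B i) = 0 → eval y (A j) * eval y (B j) ≠ 0)
    (hzero : ∀ i, ∃ y : Fin (N + 1) → ℂ, y ≠ 0 ∧ (∀ k, eval y (G k) = 0) ∧
      eval y (A i) = 0 ∧ eval y (B i) ≠ 0) :
    ∃ D : ℕ, ∀ c : Fin n → ℕ, Spread D c →
      (∀ r, r < n → ∀ Z : SpecialDatum n r, ∃ y : Fin (N + 1) → ℂ, y ≠ 0 ∧
        (∀ k, eval y (G k) = 0) ∧ (∀ i, eval y (B i) ≠ 0) ∧
        (fun i => eval y (A i) / ((c i : ℂ) * eval y (B i))) ∉ Z.locus) ∧
      (∀ r, r + 2 ≤ n → ∀ Z : SpecialDatum n r, ∀ x ∈ Z.locus, ∀ y : Fin (N + 1) → ℂ, y ≠ 0 →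
        (∀ k, eval y (G k) = 0) → ¬ ∀ i, (c i : ℂ) * eval y (B i) * x i = eval y (A i)) := by
  classical
  obtain ⟨D, hD⟩ := good (m := 1) G hG A B (by
    intro I hI y hyG hyI
    by_contra hy0
    obtain ⟨i, j, hij, rfl⟩ := Finset.card_eq_two.1 hI
    exact hdisj i j hij y hy0 hyG (hyI i (by simp)) (hyI j (by simp)))
  refine ⟨D, fun c hc => ?_⟩
  obtain ⟨p, hp, hsq⟩ := hc
  choose V hV hVy using fun l => hD (p l) (hp l).1 (hp l).2.1
  have hc0 : ∀ i, c i ≠ 0 := by
    intro i h0
    have := (hp 0).2.2 i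
    rw [h0] at this
    simp at this
  -- a point: at every prime, at most one coordinate does not have a pole of exact order
  have key : ∀ (y : Fin (N + 1) → ℂ), y ≠ 0 → (∀ k, eval y (G k) = 0) →
      ∀ l, ∃ Gd : Fin n → Prop, (∀ i j, i ≠ j → Gd i ∨ Gd j) ∧
        (∀ i, eval y (A i) = 0 → ¬ Gd i) ∧
        ∀ i, Gd i → ∀ x : ℂ, (c i : ℂ) * eval y (B i) * x = eval y (A i) →
          Polar (V l) (p l) ((c i).factorization (p l)) x := by
    intro y hy0 hyG l
    obtain ⟨a, ha0, hAB, hI⟩ := hVy l y hy0 hyG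
    refine ⟨fun i => (V l).valuation (eval (a • y) (A i) * eval (a • y) (B i)) = 1, ?_, ?_, ?_⟩
    · intro i j hij
      obtain ⟨t, ht, ht1⟩ := hI {i, j} (Finset.card_pair hij)
      rw [Finset.mem_insert, Finset.mem_singleton] at ht
      rcases ht with rfl | rfl
      · exact Or.inl ht1
      · exact Or.inr ht1
    · intro i hi0 hgd
      rw [eval_smul (hA i), hi0, mul_zero, zero_mul, map_zero] at hgd
      exact zero_ne_one hgd
    · intro i hgd x hx
      refine polar_of_good (V l) (hp l).1 (hV l) (hc0 i) (hAB i).1 (hAB i).2 hgd ?_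
      rw [eval_smul (hA i), eval_smul (hB i), ← hx]
      ring
  constructor
  · -- the image is contained in no proper special subvariety
    intro r hr Z
    by_cases hex : ∃ i0, Z.cls i0 = none
    · obtain ⟨i0, hi0⟩ := hex
      obtain ⟨j, hj⟩ : ∃ j : Fin n, j ≠ i0 := by
        have : Nontrivial (Fin n) := Fin.nontrivial_iff_two_le.2 hn
        exact exists_ne i0
      obtain ⟨y, hy0, hyG, hAj, hBj⟩ := hzero j
      refine ⟨y, hy0, hyG, ?_, ?_⟩
      · intro i
        by_cases hij : i = j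
        · rw [hij]
          exact hBj
        · exact right_ne_zero_of_mul (hdisj j i (Ne.symm hij) y hy0 hyG (by rw [hAj, zero_mul]))
      · intro hx
        obtain ⟨Gd, hG1, hG2, hG3⟩ := key y hy0 hyG 0
        have hgi : Gd i0 := by
          rcases hG1 i0 j hj.symm with h1 | h1
          · exact h1
          · exact absurd h1 (hG2 j hAj)
        have hBi : eval y (B i0) ≠ 0 :=
          right_ne_zero_of_mul (hdisj j i0 hj y hy0 hyG (by rw [hAj, zero_mul]))
        have hci : (c i0 : ℂ) ≠ 0 := by exact_mod_cast hc0 i0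
        have h1 := hG3 i0 hgi (eval y (A i0) / ((c i0 : ℂ) * eval y (B i0))) (by field_simp)
        have h2 := h1.one_lt (hV 0) ((hp 0).2.2 i0)
        have h3 := cm_le Z hx hi0 (V 0)
        exact absurd h3 (not_le.2 h2)
    · push Not at hex
      have hmem : ∀ i, Z.cls i ∈ (Finset.univ : Finset (Fin r)).image some := by
        intro i
        obtain ⟨k, hk⟩ := Option.ne_none_iff_exists'.1 (hex i)
        rw [hk]
        exact Finset.mem_image_of_mem _ (Finset.mem_univ k)
      have hcard : ((Finset.univ : Finset (Fin r)).image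
          (some : Fin r → Option (Fin r))).card ≤ r := by
        refine Finset.card_image_le.trans ?_
        rw [Finset.card_univ, Fintype.card_fin]
      obtain ⟨i, -, j, -, hij, hcij⟩ := Finset.exists_ne_map_eq_of_card_lt_of_maps_to
        (s := (Finset.univ : Finset (Fin n))) (t := (Finset.univ : Finset (Fin r)).image some)
        (f := Z.cls) (by rw [Finset.card_univ, Fintype.card_fin]; omega) (fun i _ => hmem i)
      obtain ⟨k, hk⟩ := Option.ne_none_iff_exists'.1 (hex i)
      obtain ⟨y, hy0, hyG, hAi, hBi⟩ := hzero i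
      refine ⟨y, hy0, hyG, ?_, ?_⟩
      · intro t
        by_cases hti : t = i
        · rw [hti]
          exact hBi
        · exact right_ne_zero_of_mul (hdisj i t (Ne.symm hti) y hy0 hyG (by rw [hAi, zero_mul]))
      · intro hx
        obtain ⟨Gd, hG1, hG2, hG3⟩ := key y hy0 hyG 0
        have hgj : Gd j := by
          rcases hG1 i j hij with h1 | h1
          · exact absurd h1 (hG2 i hAi)
          · exact h1
        have hBj : eval y (B j) ≠ 0 :=
          right_ne_zero_of_mul (hdisj i j hij y hy0 hyG (by rw [hAi, zero_mul]))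
        have hcj : (c j : ℂ) ≠ 0 := by exact_mod_cast hc0 j
        have h1 := hG3 j hgj (eval y (A j) / ((c j : ℂ) * eval y (B j))) (by field_simp)
        have h2 := h1.one_lt (hV 0) ((hp 0).2.2 j)
        have h3 := (rel Z hx hk (hcij ▸ hk) (V 0)).1 (by
          show (V 0).valuation (eval y (A i) / ((c i : ℂ) * eval y (B i))) ≤ 1
          rw [hAi, zero_div, map_zero]
          exact zero_le)
        exact absurd h3 (not_le.2 h2)
  · intro r hr Z x hx y hy0 hyG hxy
    choose Gd hG1 hG2 hG3 using key y hy0 hyG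
    obtain ⟨l, l', hll, i, j, hij, k, hki, hkj, g1, g2, g3, g4⟩ := comb hr Z.cls Gd hG1 (by
      intro i hi l hgd
      have h1 := hG3 l i hgd (x i) (hxy i)
      have h2 := h1.one_lt (hV l) ((hp l).2.2 i)
      exact absurd (cm_le Z hx hi (V l)) (not_le.2 h2))
    have s1 := sq_of_polar Z hx hki hkj (V l) (hV l) ((hp l).2.2 i) (hG3 l i g1 (x i) (hxy i))
      (hG3 l j g2 (x j) (hxy j))
    have s2 := sq_of_polar Z hx hki hkj (V l') (hV l') ((hp l').2.2 i)
      (hG3 l' i g3 (x i) (hxy i)) (hG3 l' j g4 (x j) (hxy j))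
    exact hsq l l' hll i j hij (sq_two (deg_pos Z i j) s1 s2)

end Pool.Agent.W466.ZC
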