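import Pool.Agent.W466.CC

/-!
Valuation rings of `ℂ` above almost all primes which contain given elements of a field `k` and given
numbers algebraically independent over `k` (helper file for Zilber-Pink for scaled images in
`Y(1)^n`).
-/

open Function MvPolynomial

namespace Pool.Agent.W466.ZC

/-- Above almost every prime there is a valuation ring of `ℂ` containing given elements of `k` and
given numbers algebraically independent over `k`. -/
theorem exists_val' {k : Type} [Field k] [Algebra k ℂ] [CharZero k] {ι : Type*} [Finite ι]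
    (t : ι → k) : ∃ D : ℕ, ∀ p : ℕ, p.Prime → D < p → ∀ (τ : Type) (x : τ → ℂ),
      AlgebraicIndependent k x → ∃ V : ValuationSubring ℂ,
        (p : ℂ) ∈ V.nonunits ∧ (∀ i, algebraMap k ℂ (t i) ∈ V) ∧ ∀ j, x j ∈ V := by
  classical
  have := Fintype.ofFinite ι
  have : FaithfulSMul ℤ k := (faithfulSMul_iff_algebraMap_injective ℤ k).2 Int.cast_injective
  obtain ⟨s, hs⟩ := exists_isTranscendenceBasis ℤ k
  have : Algebra.IsAlgebraic ℤ ℚ := IsLocalization.isAlgebraic ℚ (nonZeroDivisors ℤ)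
  have halg : Algebra.IsAlgebraic (Algebra.adjoin ℤ (Set.range ((↑) : s → k))) k := hs.isAlgebraic
  have h1 : ∀ i, ∃ f : MvPolynomial s ℤ, f ≠ 0 ∧
      IsIntegral (Algebra.adjoin ℤ (Set.range ((↑) : s → k)))
        (aeval ((↑) : s → k) f * t i) := by
    intro i
    obtain ⟨a, ha, hint⟩ := (halg.1 (t i)).exists_integral_multiple
    have h2 : (a : k) ∈ (aeval ((↑) : s → k) : MvPolynomial s ℤ →ₐ[ℤ] k).range := by
      rw [← Algebra.adjoin_range_eq_range_aeval]
      exact a.2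
    obtain ⟨f, hf⟩ := h2
    refine ⟨f, ?_, ?_⟩
    · rintro rfl
      apply ha
      apply Subtype.ext
      rw [← hf]
      simp
    · have h3 : aeval ((↑) : s → k) f = (a : k) := hf
      rw [h3]
      exact hint
  choose f hf hint using h1
  have h2 : ∀ i, ∃ m, (f i).coeff m ≠ 0 := fun i => by
    by_contra h
    push Not at h
    exact hf i (MvPolynomial.ext _ _ fun m => by rw [h m, coeff_zero])
  choose m hm using h2
  refine ⟨∑ i, ((f i).coeff (m i)).natAbs, fun p hp hpD τ x hx => ?_⟩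
  let y : s ⊕ τ → ℂ := Sum.elim (fun a => algebraMap k ℂ a) x
  have hsum : AlgebraicIndependent ℤ (Sum.elim x (algebraMap k ℂ ∘ ((↑) : s → k))) :=
    hs.1.sumElim_comp hx
  have hyZ : AlgebraicIndependent ℤ y := by
    have h3 := hsum.comp (Equiv.sumComm s τ) (Equiv.injective _)
    have h4 : Sum.elim x (algebraMap k ℂ ∘ ((↑) : s → k)) ∘ (Equiv.sumComm s τ) = y := by
      funext a
      rcases a with a | a <;> rfl
    rwa [h4] at h3
  have hyQ : AlgebraicIndependent ℚ y := hyZ.extendScalars ℚ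
  obtain ⟨V, hV1, hV2, hV3⟩ := ZP.exists_gauss y hyQ hp
  refine ⟨V, hV1, fun i => ?_, fun j => hV2 (Sum.inr j)⟩
  have hnd : ¬ (C (p : ℤ) ∣ rename (Sum.inl : s → s ⊕ τ) (f i)) := by
    intro h
    rw [C_dvd_iff_dvd_coeff] at h
    have h3' := h ((m i).mapDomain (Sum.inl : s → s ⊕ τ))
    rw [coeff_rename_mapDomain _ Sum.inl_injective] at h3'
    have h3 : p ∣ ((f i).coeff (m i)).natAbs := Int.natCast_dvd.1 h3'
    have h4 := Nat.le_of_dvd (Int.natAbs_pos.2 (hm i)) h3
    have h5 : ((f i).coeff (m i)).natAbs ≤ ∑ i, ((f i).coeff (m i)).natAbs :=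
      Finset.single_le_sum (f := fun i => ((f i).coeff (m i)).natAbs)
        (fun _ _ => Nat.zero_le _) (Finset.mem_univ i)
    omega
  have h3 := hV3 _ hnd
  rw [aeval_rename] at h3
  have h6 : y ∘ Sum.inl = fun a : s => algebraMap k ℂ a := rfl
  rw [h6] at h3
  have h7 : aeval (fun a : s => algebraMap k ℂ a) (f i) =
      algebraMap k ℂ (aeval ((↑) : s → k) (f i)) := by
    have h8 := MvPolynomial.map_aeval (R := ℤ) ((↑) : s → k) (algebraMap k ℂ) (f i)
    rw [h8, aeval_def, coe_eval₂Hom]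
    congr 1
    exact RingHom.ext_int _ _
  rw [h7] at h3
  have h4 : algebraMap k ℂ (aeval ((↑) : s → k) (f i) * t i) ∈ V := by
    obtain ⟨P, hP, hPe⟩ := hint i
    have hle : ∀ z ∈ Algebra.adjoin ℤ (Set.range ((↑) : s → k)), algebraMap k ℂ z ∈ V := by
      intro z hz
      have h9 : Algebra.adjoin ℤ (Set.range ((↑) : s → k)) ≤
          (subalgebraOfSubring V.toSubring).comap ((algebraMap k ℂ).toIntAlgHom) := by
        refine Algebra.adjoin_le ?_
        rintro _ ⟨a, rfl⟩
        exact hV2 (Sum.inl a)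
      exact h9 hz
    let φ : Algebra.adjoin ℤ (Set.range ((↑) : s → k)) →+* V :=
      { toFun := fun a => ⟨algebraMap k ℂ a, hle a a.2⟩
        map_one' := Subtype.ext (map_one _)
        map_mul' := fun _ _ => Subtype.ext (map_mul (algebraMap k ℂ) _ _)
        map_zero' := Subtype.ext (map_zero _)
        map_add' := fun _ _ => Subtype.ext (map_add (algebraMap k ℂ) _ _) }
    have h1 : IsIntegral V (algebraMap k ℂ (aeval ((↑) : s → k) (f i) * t i)) := by
      refine ⟨P.map φ, hP.map φ, ?_⟩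
      rw [Polynomial.eval₂_map]
      have h10 := congrArg (algebraMap k ℂ) hPe
      rw [Polynomial.hom_eval₂, map_zero] at h10
      exact h10
    obtain ⟨y, hy⟩ := IsIntegrallyClosed.isIntegral_iff.1 h1
    rw [← hy]
    exact y.2
  rw [← ValuationSubring.valuation_le_one_iff, map_mul, map_mul, h3, one_mul] at h4
  exact (ValuationSubring.valuation_le_one_iff _ _).1 h4

variable {k : Type} [Field k] [Algebra k ℂ] {σ : Type*} [Fintype σ]

omit [Fintype σ] in
/-- A form vanishes at `c y` if it vanishes at `y`. -/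
theorem aeval_smul' {P : MvPolynomial σ k} {e : ℕ} (hP : P.IsHomogeneous e) (c : ℂ) (y : σ → ℂ) :
    aeval (c • y) P = c ^ e * aeval y P := by
  have h1 := eval_smul (hP.map (algebraMap k ℂ)) c y
  rwa [eval_map, eval_map, ← aeval_def, ← aeval_def] at h1

/-- The certificate. -/
theorem cert' [IsAlgClosed k] {β κ : Type*} [Fintype β] (G : κ → MvPolynomial σ k)
    (F : β → MvPolynomial σ k)
    (hs : ∀ y : σ → ℂ, (∀ i, aeval y (G i) = 0) → (∀ b, aeval y (F b) = 0) → y = 0) :
    ∃ (M : ℕ) (U : σ → β → MvPolynomial σ k), ∀ y : σ → ℂ, (∀ i, aeval y (G i) = 0) → ∀ j,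
      y j ^ M = ∑ b, aeval y (U j b) * aeval y (F b) := by
  classical
  let J1 : Ideal (MvPolynomial σ k) := Ideal.span (Set.range F)
  let J2 : Ideal (MvPolynomial σ k) := Ideal.span (Set.range G)
  have hrad : ∀ j, X j ∈ (J1 ⊔ J2).radical := by
    intro j
    rw [← vanishingIdeal_zeroLocus_eq_radical (K := k), mem_vanishingIdeal_iff]
    intro y hy
    rw [mem_zeroLocus_iff] at hy
    have hmap : ∀ P : MvPolynomial σ k, aeval (fun j => algebraMap k ℂ (y j)) P =
        algebraMap k ℂ (aeval y P) := by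
      intro P
      exact MvPolynomial.aeval_algebraMap_apply ℂ y P
    have hy0 : (fun j => algebraMap k ℂ (y j)) = 0 := by
      apply hs
      · intro i
        rw [hmap, hy _ (Ideal.mem_sup_right (Ideal.subset_span ⟨i, rfl⟩)), map_zero]
      · intro b
        rw [hmap, hy _ (Ideal.mem_sup_left (Ideal.subset_span ⟨b, rfl⟩)), map_zero]
    rw [aeval_X]
    have h1 := congrFun hy0 j
    rw [Pi.zero_apply] at h1
    exact (map_eq_zero _).1 h1
  choose Mj hMj using hrad
  refine ⟨∑ j, Mj j, ?_⟩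
  have h1 : ∀ j, (X j : MvPolynomial σ k) ^ (∑ j, Mj j) ∈ J1 ⊔ J2 := by
    intro j
    have h2 : ∑ j, Mj j = Mj j + (∑ j, Mj j - Mj j) :=
      (Nat.add_sub_cancel' (Finset.single_le_sum (f := Mj) (fun i _ => Nat.zero_le _)
        (Finset.mem_univ j))).symm
    rw [h2, pow_add]
    exact Ideal.mul_mem_right _ _ (hMj j)
  have h2 : ∀ j, ∃ U : β → MvPolynomial σ k, ∀ y : σ → ℂ, (∀ i, aeval y (G i) = 0) →
        y j ^ (∑ j, Mj j) = ∑ b, aeval y (U b) * aeval y (F b) := by
    intro j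
    obtain ⟨u, hu, w, hw, huw⟩ := Submodule.mem_sup.1 (h1 j)
    obtain ⟨A, hA⟩ := (Ideal.mem_span_range_iff_exists_fun).1 hu
    refine ⟨A, fun y hy => ?_⟩
    have hw0 : aeval y w = 0 := by
      have h3 : J2 ≤ RingHom.ker (aeval y : MvPolynomial σ k →ₐ[k] ℂ) := by
        rw [Ideal.span_le]
        rintro _ ⟨i, rfl⟩
        rw [SetLike.mem_coe, RingHom.mem_ker]
        exact hy i
      exact h3 hw
    have h4 := congrArg (aeval (R := k) y) huw
    rw [map_add, hw0, add_zero, ← hA, map_sum, map_pow, aeval_X] at h4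
    rw [← h4]
    refine Finset.sum_congr rfl fun b _ => ?_
    rw [map_mul]
  choose U hU using h2
  exact ⟨U, fun y hy j => hU j y hy⟩

/-- value of a polynomial with coefficients in the valuation ring -/
theorem aeval_mem (V : ValuationSubring ℂ) (P : MvPolynomial σ k)
    (hP : ∀ u ∈ P.support, algebraMap k ℂ (P.coeff u) ∈ V) {y : σ → ℂ} (hy : ∀ j, y j ∈ V) :
    aeval y P ∈ V := by
  rw [aeval_def, eval₂_eq']
  exact sum_mem fun u hu => mul_mem (hP u hu) (prod_mem fun j _ => pow_mem (hy j) _)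

/-- Good valuation rings: every point has coordinates in the ring such that at most `m` of the
given products are non-units. -/
theorem good' [IsAlgClosed k] [CharZero k] {κ : Type*} {n m : ℕ} (G : κ → MvPolynomial σ k)
    (hhom : ∀ i, ∃ e, (G i).IsHomogeneous e) (A B : Fin n → MvPolynomial σ k)
    (hdis : ∀ I : Finset (Fin n), I.card = m + 1 → ∀ y : σ → ℂ, (∀ i, aeval y (G i) = 0) →
      (∀ i ∈ I, aeval y (A i) * aeval y (B i) = 0) → y = 0) {ι : Type*} [Finite ι]
    (Γ : ι → k) :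
    ∃ D : ℕ, ∀ p : ℕ, p.Prime → D < p → ∀ (τ : Type) (x : τ → ℂ), AlgebraicIndependent k x →
      ∃ V : ValuationSubring ℂ, (p : ℂ) ∈ V.nonunits ∧ (∀ i, algebraMap k ℂ (Γ i) ∈ V) ∧
      (∀ j, x j ∈ V) ∧
      ∀ y : σ → ℂ, y ≠ 0 → (∀ i, aeval y (G i) = 0) →
        ∃ c : ℂ, c ≠ 0 ∧ (∀ i, aeval (c • y) (A i) ∈ V ∧ aeval (c • y) (B i) ∈ V) ∧
          ∀ I : Finset (Fin n), I.card = m + 1 → ∃ i ∈ I,
            V.valuation (aeval (c • y) (A i) * aeval (c • y) (B i)) = 1 := by
  classical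
  have hcert := fun I : {I : Finset (Fin n) // I.card = m + 1} =>
    cert' G (fun b : I.1 => A b * B b) (fun y hy hb => hdis I.1 I.2 y hy fun i hi => by
      have := hb ⟨i, hi⟩
      rwa [map_mul] at this)
  choose M U hU using hcert
  let ι1 := (I : {I : Finset (Fin n) // I.card = m + 1}) × (j : σ) × (b : I.1) × (U I j b).support
  let ι2 := (i : Fin n) × (A i).support
  let ι3 := (i : Fin n) × (B i).support
  let t : (ι1 ⊕ (ι2 ⊕ ι3)) ⊕ ι → k := Sum.elim
    (Sum.elim (fun i => (U i.1 i.2.1 i.2.2.1).coeff i.2.2.2.1)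
    (Sum.elim (fun i => (A i.1).coeff i.2.1) (fun i => (B i.1).coeff i.2.1))) Γ
  obtain ⟨D, hD⟩ := exists_val' t
  refine ⟨D, fun p hp hpD τ x hx => ?_⟩
  obtain ⟨V, hV, hVt, hVx⟩ := hD p hp hpD τ x hx
  refine ⟨V, hV, fun i => hVt (Sum.inr i), hVx, fun y hy0 hyG => ?_⟩
  have hUV : ∀ I j b, ∀ u ∈ (U I j b).support, algebraMap k ℂ ((U I j b).coeff u) ∈ V :=
    fun I j b u hu => hVt (Sum.inl (Sum.inl ⟨I, j, b, u, hu⟩))
  have hAV : ∀ i, ∀ u ∈ (A i).support, algebraMap k ℂ ((A i).coeff u) ∈ V := fun i u hu =>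
    hVt (Sum.inl (Sum.inr (Sum.inl ⟨i, u, hu⟩)))
  have hBV : ∀ i, ∀ u ∈ (B i).support, algebraMap k ℂ ((B i).coeff u) ∈ V := fun i u hu =>
    hVt (Sum.inl (Sum.inr (Sum.inr ⟨i, u, hu⟩)))
  set v := V.valuation with hv
  have hne : (Finset.univ : Finset σ).Nonempty := by
    by_contra h
    rw [Finset.not_nonempty_iff_eq_empty, Finset.univ_eq_empty_iff] at h
    exact hy0 (funext fun j => (h.false j).elim)
  obtain ⟨j0, -, hj0⟩ := Finset.exists_max_image Finset.univ (fun j => v (y j)) hne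
  have hyj0 : y j0 ≠ 0 := by
    intro h
    apply hy0
    funext j
    have h1 := hj0 j (Finset.mem_univ j)
    simp only [h, map_zero, le_zero_iff] at h1
    exact (map_eq_zero v).1 h1
  set z := (y j0)⁻¹ • y with hz
  have hzV : ∀ j, z j ∈ V := by
    intro j
    rw [← ValuationSubring.valuation_le_one_iff, hz, Pi.smul_apply, smul_eq_mul, map_mul, map_inv₀]
    have h1 := hj0 j (Finset.mem_univ j)
    have h2 : v (y j0) ≠ 0 := (map_ne_zero v).2 hyj0
    calc (v (y j0))⁻¹ * v (y j) ≤ (v (y j0))⁻¹ * v (y j0) := mul_le_mul_right h1 _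
      _ = 1 := inv_mul_cancel₀ h2
  have hzG : ∀ i, aeval z (G i) = 0 := by
    intro i
    obtain ⟨e, he⟩ := hhom i
    rw [hz, aeval_smul' he, hyG i, mul_zero]
  refine ⟨(y j0)⁻¹, inv_ne_zero hyj0, fun i => ⟨aeval_mem V _ (hAV i) hzV,
    aeval_mem V _ (hBV i) hzV⟩, ?_⟩
  intro I hI
  by_contra hcon
  push Not at hcon
  have hlt : ∀ i ∈ I, v (aeval z (A i) * aeval z (B i)) < 1 := by
    intro i hi
    refine lt_of_le_of_ne ?_ (hcon i hi)
    rw [ValuationSubring.valuation_le_one_iff]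
    exact mul_mem (aeval_mem V _ (hAV i) hzV) (aeval_mem V _ (hBV i) hzV)
  have h1 := hU ⟨I, hI⟩ z hzG j0
  have h2 : z j0 = 1 := by
    rw [hz, Pi.smul_apply, smul_eq_mul, inv_mul_cancel₀ hyj0]
  rw [h2, one_pow] at h1
  have h3 : v (∑ b : I, aeval z (U ⟨I, hI⟩ j0 b) * aeval z (A b * B b)) < 1 := by
    refine Valuation.map_sum_lt _ one_ne_zero fun b _ => ?_
    have e1 : aeval z (A b * B b) = aeval z (A b) * aeval z (B b) := map_mul _ _ _
    rw [map_mul, e1]
    exact (mul_le_of_le_one_left' ((ValuationSubring.valuation_le_one_iff _ _).2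
      (aeval_mem V _ (hUV ⟨I, hI⟩ j0 b) hzV))).trans_lt (hlt b b.2)
  rw [← h1, map_one] at h3
  exact lt_irrefl _ h3

end Pool.Agent.W466.ZC
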