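import Pool.Agent.W466.CJ
import Pool.Agent.W466.CI

/-!
Zilber-Pink for scaled images in `Y(1)^n` of projective algebraic sets of any dimension: from the
algebraically closed field to any countable field (helper file).
-/

open Function UpperHalfPlane H294ZP MvPolynomial

namespace Pool.Agent.W466.ZC

theorem mainK (K : Subfield ℂ) {κ : Type*}
    {N n m : ℕ} (G : κ → MvPolynomial (Fin (N + 1)) K)
    (hG : ∀ i, ∃ e, (G i).IsHomogeneous e) (A B : Fin n → MvPolynomial (Fin (N + 1)) K)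
    (d : Fin n → ℕ) (hA : ∀ i, (A i).IsHomogeneous (d i)) (hB : ∀ i, (B i).IsHomogeneous (d i))
    (hdis : ∀ I : Finset (Fin n), I.card = m + 1 → ∀ y : Fin (N + 1) → ℂ,
      (∀ i, aeval y (G i) = 0) → (∀ i ∈ I, aeval y (A i) * aeval y (B i) = 0) → y = 0)
    (Γ : Finset ℂ) (hΓ : ∀ γ ∈ Γ, γ ∈ K) :
    ∃ D : ℕ, ∀ c : Fin n → ℕ, SpreadL (n.choose 2 + 1) D c →
      ∀ (r : ℕ) (cls : Fin n → Option (Fin r)) (Q : Fin n → Fin n → ℕ) (x : Fin n → ℂ),
      (∀ i j, 0 < Q i j) →
      (∀ i, cls i = none → IsIntegral (Algebra.adjoin ℤ (Γ : Set ℂ)) (x i)) →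
      (∀ i j l, cls i = some l → cls j = some l →
        IsIntegral (Algebra.adjoin ℤ {x i}) (x j) ∧
        Polynomial.eval₂ (Polynomial.aeval (x i) : Polynomial ℂ →ₐ[ℂ] ℂ).toRingHom (x j)
          (W282.ZP.Psi (Q i j)) = 0) →
      ∀ y : Fin (N + 1) → ℂ, y ≠ 0 → (∀ i, aeval y (G i) = 0) →
      (∀ i, (c i : ℂ) * aeval y (B i) * x i = aeval y (A i)) →
      ∀ S : Finset (Fin n), AlgebraicIndependent K (fun i : S => x i) →
        S.card + n ≤ r + m := by
  classical
  let k := algebraicClosure K ℂ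
  have hcl : IsAlgClosure K k := inferInstance
  have hac : IsAlgClosed k := hcl.isAlgClosed
  have hmap : ∀ (y : Fin (N + 1) → ℂ) (P : MvPolynomial (Fin (N + 1)) K),
      aeval y (MvPolynomial.map (algebraMap K k) P) = aeval y P := fun y P =>
    MvPolynomial.aeval_map_algebraMap k y P
  let Γ' : Γ → k := fun γ => algebraMap K k ⟨γ, hΓ γ γ.2⟩
  have hΓ' : (Set.range fun g => algebraMap k ℂ (Γ' g)) = (Γ : Set ℂ) := by
    ext z
    constructor
    · rintro ⟨g, rfl⟩
      exact g.2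
    · intro hz
      exact ⟨⟨z, hz⟩, rfl⟩
  obtain ⟨D, hD⟩ := mainL (k := k) (m := m) (fun i => MvPolynomial.map (algebraMap K k) (G i))
    (fun i => by
      obtain ⟨e, he⟩ := hG i
      exact ⟨e, he.map _⟩)
    (fun i => MvPolynomial.map (algebraMap K k) (A i))
    (fun i => MvPolynomial.map (algebraMap K k) (B i)) d (fun i => (hA i).map _)
    (fun i => (hB i).map _)
    (fun I hI y h1 h2 => hdis I hI y (fun i => by rw [← hmap]; exact h1 i)
      (fun i hi => by rw [← hmap, ← hmap y (B i)]; exact h2 i hi)) Γ'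
  refine ⟨D, fun c hc r cls Q x hQ hconst hrel y hy0 hyG hxy S hS => ?_⟩
  refine hD c hc r cls Q x hQ ?_ hrel y hy0 (fun i => (hmap y _).trans (hyG i)) ?_ S ?_
  · intro i hi
    rw [hΓ']
    exact hconst i hi
  · intro i
    rw [hmap, hmap]
    exact hxy i
  · exact hS.extendScalars k

end Pool.Agent.W466.ZC
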