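import Mathlib

/-!
The group law of an elliptic curve `y² = x³ + A x + B` near the origin over a valued field: the
parameter `x / y` is additive up to terms of order five (helper file for Zilber-Pink for powers of
elliptic curves).
-/

namespace Pool.Agent.W466.EP

section algebra

variable {L : Type*} [Field L]

/-- The third point of intersection of a line with the curve `w = t³ + A t w² + B w³`. -/
theorem third (A B t1 t2 w1 w2 l u : L) (hw1 : w1 = l * t1 + u) (hw2 : w2 = l * t2 + u)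
    (h1 : w1 = t1 ^ 3 + A * t1 * w1 ^ 2 + B * w1 ^ 3)
    (H2 : (1 + A * l ^ 2 + B * l ^ 3) * (t1 ^ 2 + t1 * t2 + t2 ^ 2) +
      (2 * A * l * u + 3 * B * l ^ 2 * u) * (t1 + t2) + (A * u ^ 2 + 3 * B * l * u ^ 2 - l) = 0)
    (hZ : 1 + A * l ^ 2 + B * l ^ 3 ≠ 0) (hu : u ≠ 0) (h1' : w1 ≠ 0) (h2' : w2 ≠ 0) {t3 : L}
    (ht3 : t3 = -t1 - t2 - (2 * A * l * u + 3 * B * l ^ 2 * u) / (1 + A * l ^ 2 + B * l ^ 3)) :
    l * t3 + u ≠ 0 ∧ t3 / (l * t3 + u) = (l / u) ^ 2 - t1 / w1 - t2 / w2 := by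
  set Z := 1 + A * l ^ 2 + B * l ^ 3 with hZd
  have e1 : Z * (t1 + t2 + t3) = -(2 * A * l * u + 3 * B * l ^ 2 * u) := by
    rw [ht3]
    field_simp
    ring
  have e2 : Z * (t1 * t2 + t3 * (t1 + t2)) = A * u ^ 2 + 3 * B * l * u ^ 2 - l := by
    linear_combination (t1 + t2) * e1 - H2
  have e3 : Z * (t1 * t2 * t3) = -(B * u ^ 3 - u) := by
    have h3 : Z * t1 ^ 3 + (2 * A * l * u + 3 * B * l ^ 2 * u) * t1 ^ 2 +
        (A * u ^ 2 + 3 * B * l * u ^ 2 - l) * t1 + (B * u ^ 3 - u) = 0 := by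
      rw [hw1] at h1
      linear_combination -h1
    linear_combination t1 * e2 - t1 ^ 2 * e1 + h3
  have p3 : Z * (w1 * w2 * (l * t3 + u)) = u ^ 3 := by
    rw [hw1, hw2]
    linear_combination l ^ 3 * e3 + l ^ 2 * u * e2 + l * u ^ 2 * e1
  have hne : l * t3 + u ≠ 0 := by
    intro h
    rw [h, mul_zero, mul_zero] at p3
    exact pow_ne_zero 3 hu p3.symm
  refine ⟨hne, ?_⟩
  have p4 : Z * (t1 * w2 * (l * t3 + u) + t2 * w1 * (l * t3 + u) + t3 * w1 * w2) =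
      l ^ 2 * u := by
    rw [hw1, hw2]
    linear_combination 3 * l ^ 2 * e3 + 2 * l * u * e2 + u ^ 2 * e1
  have p5 : Z * (u ^ 2 * (t1 * w2 * (l * t3 + u) + t2 * w1 * (l * t3 + u) + t3 * w1 * w2) -
      l ^ 2 * (w1 * w2 * (l * t3 + u))) = 0 := by
    linear_combination u ^ 2 * p4 - l ^ 2 * p3
  have p6 := (mul_eq_zero.1 p5).resolve_left hZ
  have p7 : (l / u) ^ 2 - t1 / w1 - t2 / w2 =
      (l ^ 2 * w1 * w2 - u ^ 2 * (t1 * w2 + t2 * w1)) / (u ^ 2 * w1 * w2) := by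
    field_simp
    ring
  rw [p7, div_eq_div_iff hne (mul_ne_zero (mul_ne_zero (pow_ne_zero 2 hu) h1') h2')]
  linear_combination p6

end algebra

end Pool.Agent.W466.EP
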