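import Pool.Agent.W466.EA

/-!
The group law of an elliptic curve `y² = x³ + A x + B` near the origin over a valued field: the
parameter `x / y` is additive up to terms of order five (helper file for Zilber-Pink for powers of
elliptic curves).
-/

namespace Pool.Agent.W466.EP

open WeierstrassCurve WeierstrassCurve.Affine

variable {L : Type*} [Field L]

/-- the curve `y² = x³ + A x + B` -/
def crv (A B : L) : WeierstrassCurve.Affine L := ⟨0, 0, 0, A, B⟩

/-- the parameter `x / y` at the origin -/
def tt {A B : L} : (crv A B).Point → L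
  | .zero => 0
  | .some x y _ => x / y

section val

variable {Γ₀ : Type*} [LinearOrderedCommGroupWithZero Γ₀] (v : Valuation L Γ₀)

/-- points near the origin -/
def Fm {A B : L} : (crv A B).Point → Prop
  | .zero => True
  | .some x _ _ => 1 < v x

theorem eqn {A B x y : L} (h : (crv A B).Nonsingular x y) : y ^ 2 = x ^ 3 + A * x + B := by
  have h1 := (WeierstrassCurve.Affine.equation_iff x y).1 h.1
  simp only [crv] at h1
  linear_combination h1

variable {v}

theorem v_two (v : Valuation L Γ₀) : v 2 ≤ 1 := by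
  have h := v.map_add 1 1
  rwa [map_one, max_self, one_add_one_eq_two] at h

theorem v_three (v : Valuation L Γ₀) : v 3 ≤ 1 := by
  have h := v.map_add 2 1
  rw [map_one, max_eq_right (v_two v)] at h
  have e : (2 : L) + 1 = 3 := by norm_num
  rwa [e] at h

/-- local coordinates -/
theorem loc {A B x y : L} (hA : v A ≤ 1) (hB : v B ≤ 1) (h : y ^ 2 = x ^ 3 + A * x + B)
    (hx : 1 < v x) : y ≠ 0 ∧ x ≠ 0 ∧ v (x / y) < 1 ∧ v (x / y) ^ 2 * v x = 1 ∧
      v (1 / y) = v (x / y) ^ 3 ∧
      1 / y = (x / y) ^ 3 + A * (x / y) * (1 / y) ^ 2 + B * (1 / y) ^ 3 := by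
  have hx0 : x ≠ 0 := by
    rintro rfl
    rw [map_zero] at hx
    exact absurd hx (not_lt.2 zero_le_one)
  have hvx : 0 < v x := zero_lt_one.trans hx
  have h1 : v (A * x + B) < v (x ^ 3) := by
    refine v.map_add_lt ?_ ?_
    · rw [map_mul, map_pow]
      calc v A * v x ≤ 1 * v x := by gcongr
        _ = v x ^ 1 := by rw [one_mul, pow_one]
        _ < v x ^ 3 := pow_lt_pow_right₀ hx (by norm_num)
    · rw [map_pow]
      exact hB.trans_lt (one_lt_pow₀ hx (by norm_num))
  have h2 : v y ^ 2 = v x ^ 3 := by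
    rw [← map_pow, h, add_assoc, Valuation.map_add_eq_of_lt_left _ h1, map_pow]
  have hy0 : y ≠ 0 := by
    rintro rfl
    rw [map_zero, zero_pow two_ne_zero] at h2
    exact (pow_pos hvx 3).ne h2
  have hvy : 0 < v y := zero_lt_iff.2 ((map_ne_zero v).2 hy0)
  have h3 : v (x / y) ^ 2 * v x = 1 := by
    rw [map_div₀, div_pow, h2]
    have : v x ^ 3 = v x ^ 2 * v x := by rw [pow_succ]
    rw [this]
    have hx2 : v x ^ 2 ≠ 0 := (pow_pos hvx 2).ne'
    field_simp
  have h4 : v (x / y) < 1 := by
    by_contra hcon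
    push Not at hcon
    have h5 : 1 < v (x / y) ^ 2 * v x := by
      calc 1 < v x := hx
        _ = 1 * v x := (one_mul _).symm
        _ ≤ v (x / y) ^ 2 * v x := by
          gcongr
          exact one_le_pow₀ hcon
    rw [h3] at h5
    exact lt_irrefl _ h5
  refine ⟨hy0, hx0, h4, h3, ?_, ?_⟩
  · have h5 : v (1 / y) ^ 2 = (v (x / y) ^ 3) ^ 2 := by
      rw [map_div₀, map_div₀, map_one, div_pow, div_pow, div_pow, ← pow_mul, ← pow_mul,
        show (3 * 2 : ℕ) = 2 * 3 from rfl, pow_mul (v y), h2, one_pow]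
      have hx3 : v x ^ 3 ≠ 0 := (pow_pos hvx 3).ne'
      field_simp
    exact (pow_left_inj₀ zero_le zero_le two_ne_zero).1 h5
  · have h6 : x ^ 3 = y ^ 2 - A * x - B := by linear_combination -h
    field_simp
    linear_combination h

end val

end Pool.Agent.W466.EP
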