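import Pool.Agent.W466.EB

/-!
The parameter `x / y` of an elliptic curve over a valued field is additive up to terms of order
five (helper file for Zilber-Pink for powers of elliptic curves).
-/

namespace Pool.Agent.W466.EP

open WeierstrassCurve WeierstrassCurve.Affine

variable {L : Type*} [Field L] {Γ₀ : Type*} [LinearOrderedCommGroupWithZero Γ₀]
  {v : Valuation L Γ₀}

theorem v_le_of {x y : L} {a : Γ₀} (hx : v x ≤ a) (hy : v y ≤ a) : v (x + y) ≤ a :=
  v.map_add_le hx hy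

theorem v_one_add {x : L} (hx : v x < 1) : v (1 + x) = 1 := v.map_one_add_of_lt hx

/-- The line through two points near the origin, or the tangent. -/
theorem line {A B t1 t2 w1 w2 : L} {a : Γ₀} (hA : v A ≤ 1) (hB : v B ≤ 1) (ha : a < 1)
    (ht1 : v t1 ≤ a) (ht2 : v t2 ≤ a) (hw1 : v w1 ≤ a ^ 3) (hw2 : v w2 ≤ a ^ 3)
    (h1 : w1 = t1 ^ 3 + A * t1 * w1 ^ 2 + B * w1 ^ 3)
    (h2 : w2 = t2 ^ 3 + A * t2 * w2 ^ 2 + B * w2 ^ 3) :
    ∃ U C : L, v U = 1 ∧ v C ≤ a ^ 2 ∧
      U = 1 - A * t2 * (w1 + w2) - B * (w1 ^ 2 + w1 * w2 + w2 ^ 2) ∧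
      C = t1 ^ 2 + t1 * t2 + t2 ^ 2 + A * w1 ^ 2 ∧ (w1 - w2) * U = (t1 - t2) * C := by
  have ha1 : a ≤ 1 := ha.le
  have ha3 : a ^ 3 ≤ a ^ 2 := pow_le_pow_of_le_one zero_le ha1 (by norm_num)
  have ha2 : a ^ 2 ≤ a := by
    calc a ^ 2 ≤ a ^ 1 := pow_le_pow_of_le_one zero_le ha1 (by norm_num)
      _ = a := pow_one a
  have hw1' : v w1 ≤ a := hw1.trans (ha3.trans ha2)
  have hw2' : v w2 ≤ a := hw2.trans (ha3.trans ha2)
  have mul2 : ∀ x y : L, v x ≤ a → v y ≤ a → v (x * y) ≤ a ^ 2 := by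
    intro x y hx hy
    rw [map_mul, pow_two]
    exact mul_le_mul' hx hy
  have sq2 : ∀ x : L, v x ≤ a → v (x ^ 2) ≤ a ^ 2 := by
    intro x hx
    rw [pow_two]
    exact mul2 x x hx hx
  have mulA : ∀ x : L, v x ≤ a ^ 2 → v (A * x) ≤ a ^ 2 := by
    intro x hx
    rw [map_mul]
    calc v A * v x ≤ 1 * a ^ 2 := mul_le_mul' hA hx
      _ = a ^ 2 := one_mul _
  have mulB : ∀ x : L, v x ≤ a ^ 2 → v (B * x) ≤ a ^ 2 := by
    intro x hx
    rw [map_mul]
    calc v B * v x ≤ 1 * a ^ 2 := mul_le_mul' hB hx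
      _ = a ^ 2 := one_mul _
  refine ⟨_, _, ?_, ?_, rfl, rfl, ?_⟩
  · have h3 : v (A * (t2 * (w1 + w2)) + B * (w1 ^ 2 + w1 * w2 + w2 ^ 2)) ≤ a ^ 2 := by
      refine v_le_of (mulA _ (mul2 _ _ ht2 (v_le_of hw1' hw2'))) (mulB _ ?_)
      exact v_le_of (v_le_of (sq2 _ hw1') (mul2 _ _ hw1' hw2')) (sq2 _ hw2')
    have h4 : v (-(A * (t2 * (w1 + w2)) + B * (w1 ^ 2 + w1 * w2 + w2 ^ 2))) < 1 := by
      rw [Valuation.map_neg]
      exact h3.trans_lt (ha2.trans_lt ha)
    have h5 := v_one_add h4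
    have h6 : 1 - A * t2 * (w1 + w2) - B * (w1 ^ 2 + w1 * w2 + w2 ^ 2) =
        1 + -(A * (t2 * (w1 + w2)) + B * (w1 ^ 2 + w1 * w2 + w2 ^ 2)) := by ring
    rw [h6]
    exact h5
  · exact v_le_of (v_le_of (v_le_of (sq2 _ ht1) (mul2 _ _ ht1 ht2)) (sq2 _ ht2))
      (mulA _ (sq2 _ hw1'))
  · linear_combination h1 - h2

theorem crv_a1 (A B : L) : (crv A B).a₁ = 0 := rfl
theorem crv_a2 (A B : L) : (crv A B).a₂ = 0 := rfl
theorem crv_a3 (A B : L) : (crv A B).a₃ = 0 := rfl
theorem crv_a4 (A B : L) : (crv A B).a₄ = A := rfl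

variable [DecidableEq L]

/-- The sum of two points near the origin is near the origin, and its parameter is the sum of the
parameters up to terms of order five. -/
theorem add_near {A B : L} (hA : v A ≤ 1) (hB : v B ≤ 1) (h2 : (2 : L) ≠ 0)
    (P Q : (crv A B).Point) (hP : Fm v P) (hQ : Fm v Q) {a : Γ₀} (ha : a < 1)
    (hPa : v (tt P) ≤ a) (hQa : v (tt Q) ≤ a) :
    Fm v (P + Q) ∧ v (tt (P + Q) - (tt P + tt Q)) ≤ a ^ 5 := by
  rcases P with _ | ⟨x1, y1, hn1⟩
  · change Fm v (0 + Q) ∧ v (tt (0 + Q) - (0 + tt Q)) ≤ a ^ 5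
    rw [zero_add, zero_add, sub_self, map_zero]
    exact ⟨hQ, zero_le⟩
  rcases Q with _ | ⟨x2, y2, hn2⟩
  · change Fm v (_ + 0) ∧ v (tt (_ + 0) - (_ + 0)) ≤ a ^ 5
    rw [add_zero, add_zero, sub_self, map_zero]
    exact ⟨hP, zero_le⟩
  change 1 < v x1 at hP
  change 1 < v x2 at hQ
  change v (x1 / y1) ≤ a at hPa
  change v (x2 / y2) ≤ a at hQa
  have e1 := eqn hn1
  have e2 := eqn hn2
  obtain ⟨hy1, hx1, -, -, hw1, hc1⟩ := loc hA hB e1 hP
  obtain ⟨hy2, hx2, -, -, hw2, hc2⟩ := loc hA hB e2 hQ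
  by_cases hxy : x1 = x2 ∧ y1 = (crv A B).negY x2 y2
  · have h3 : y1 = -y2 := by
      rw [hxy.2, negY, crv_a1, crv_a3]
      ring
    rw [Point.add_of_Y_eq hxy.1 hxy.2]
    refine ⟨trivial, ?_⟩
    change v (0 - (x1 / y1 + x2 / y2)) ≤ a ^ 5
    rw [hxy.1, h3, div_neg, neg_add_cancel, sub_self, map_zero]
    exact zero_le
  rw [Point.add_some hxy]
  set t1 := x1 / y1 with ht1
  set t2 := x2 / y2 with ht2
  set w1 := 1 / y1 with hw1d
  set w2 := 1 / y2 with hw2d
  have hw1' : v w1 ≤ a ^ 3 := by rw [hw1]; gcongr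
  have hw2' : v w2 ≤ a ^ 3 := by rw [hw2]; gcongr
  have hw10 : w1 ≠ 0 := one_div_ne_zero hy1
  have hw20 : w2 ≠ 0 := one_div_ne_zero hy2
  have hy1w : y1 = 1 / w1 := by rw [hw1d, one_div_one_div]
  have hy2w : y2 = 1 / w2 := by rw [hw2d, one_div_one_div]
  have hx1t : x1 = t1 / w1 := by rw [ht1, hw1d]; field_simp
  have hx2t : x2 = t2 / w2 := by rw [ht2, hw2d]; field_simp
  obtain ⟨U, C, hU, hC, hUd, hCd, hUC⟩ := line hA hB ha hPa hQa hw1' hw2' hc1 hc2
  have hU0 : U ≠ 0 := by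
    rintro rfl
    rw [map_zero] at hU
    exact zero_ne_one hU
  clear_value t1 t2 w1 w2
  -- the line `w = l t + u`
  set l := C / U with hl
  set u := w1 - l * t1 with hu
  have hlU : l * U = C := div_mul_cancel₀ C hU0
  have hvl : v l ≤ a ^ 2 := by
    rw [hl, map_div₀, hU, div_one]
    exact hC
  have hvu : v u ≤ a ^ 3 := by
    rw [hu]
    refine v.map_sub_le hw1' ?_
    rw [map_mul, pow_succ]
    exact mul_le_mul' hvl hPa
  have hL1 : w1 = l * t1 + u := by rw [hu]; ring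
  have hL2 : w2 = l * t2 + u := by
    have h3 : (w1 - w2 - l * (t1 - t2)) * U = 0 := by
      rw [sub_mul, hUC]
      linear_combination (-(t1 - t2)) * hlU
    have h4 := (mul_eq_zero.1 h3).resolve_right hU0
    linear_combination hL1 - h4
  have H2 : (1 + A * l ^ 2 + B * l ^ 3) * (t1 ^ 2 + t1 * t2 + t2 ^ 2) +
      (2 * A * l * u + 3 * B * l ^ 2 * u) * (t1 + t2) +
      (A * u ^ 2 + 3 * B * l * u ^ 2 - l) = 0 := by
    rw [hUd, hCd, hL1, hL2] at hlU
    linear_combination -hlU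
  have hu0 : u ≠ 0 := by
    intro hu0
    by_cases htt : t1 = t2
    · -- tangent
      have hww : w1 = w2 := by rw [hL1, hL2, htt]
      have h3 : u * U = -2 * w1 := by
        have h4 : u * U = w1 * U - t1 * C := by
          rw [hu, sub_mul]
          linear_combination (-t1) * hlU
        rw [h4, hUd, hCd, ← htt, ← hww]
        linear_combination 3 * hc1
      rw [hu0, zero_mul] at h3
      have h4 : (2 : L) * w1 = 0 := by linear_combination h3
      rcases mul_eq_zero.1 h4 with h5 | h5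
      · exact h2 h5
      · exact hw10 h5
    · -- secant
      have hl0 : l ≠ 0 := by
        rintro hl0
        rw [hl0, hu0] at hL1
        exact hw10 (by rw [hL1]; ring)
      have h3 : x1 = x2 := by
        rw [hx1t, hx2t, hL1, hL2, hu0, add_zero, add_zero]
        have ht10 : t1 ≠ 0 := by
          rintro rfl
          apply hw10
          rw [hL1, hu0]; ring
        have ht20 : t2 ≠ 0 := by
          rintro rfl
          apply hw20
          rw [hL2, hu0]; ring
        field_simp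
      apply hxy
      refine ⟨h3, ?_⟩
      rw [negY, crv_a1, crv_a3, zero_mul, sub_zero, sub_zero]
      have h4 : (y1 - y2) * (y1 + y2) = 0 := by
        have : y1 ^ 2 = y2 ^ 2 := by rw [e1, e2, h3]
        linear_combination this
      rcases mul_eq_zero.1 h4 with h5 | h5
      · exfalso
        have h6 : y1 = y2 := sub_eq_zero.1 h5
        have h7 : w1 = w2 := by
          have : (1 : L) / w1 = 1 / w2 := by rw [← hy1w, ← hy2w, h6]
          rwa [div_eq_div_iff hw10 hw20, one_mul, one_mul, eq_comm] at this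
        apply htt
        have h8 : l * (t1 - t2) = 0 := by linear_combination h7 - hL1 + hL2
        exact sub_eq_zero.1 ((mul_eq_zero.1 h8).resolve_left hl0)
      · exact eq_neg_of_add_eq_zero_left h5
  have hZ1 : v (1 + A * l ^ 2 + B * l ^ 3) = 1 := by
    have h3 : v (A * l ^ 2 + B * l ^ 3) < 1 := by
      have hl1 : v l < 1 := hvl.trans_lt (pow_lt_one₀ zero_le ha two_ne_zero)
      refine v.map_add_lt ?_ ?_
      · rw [map_mul, map_pow]
        calc v A * v l ^ 2 ≤ 1 * v l ^ 2 := by gcongr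
          _ = v l ^ 2 := one_mul _
          _ < 1 := pow_lt_one₀ zero_le hl1 two_ne_zero
      · rw [map_mul, map_pow]
        calc v B * v l ^ 3 ≤ 1 * v l ^ 3 := by gcongr
          _ = v l ^ 3 := one_mul _
          _ < 1 := pow_lt_one₀ zero_le hl1 three_ne_zero
    rw [add_assoc]
    exact v_one_add h3
  have hZ0 : 1 + A * l ^ 2 + B * l ^ 3 ≠ 0 := by
    intro h
    rw [h, map_zero] at hZ1
    exact zero_ne_one hZ1
  obtain ⟨hw3, hx3⟩ := third A B t1 t2 w1 w2 l u hL1 hL2 hc1 H2 hZ0 hu0 hw10 hw20 rfl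
  set t3 := -t1 - t2 - (2 * A * l * u + 3 * B * l ^ 2 * u) / (1 + A * l ^ 2 + B * l ^ 3) with ht3
  -- the slope
  have hslope : (crv A B).slope x1 x2 y1 y2 = -l / u := by
    by_cases hxx : x1 = x2
    · have hny : y1 ≠ (crv A B).negY x2 y2 := fun h => hxy ⟨hxx, h⟩
      have hyy : y1 = y2 := by
        rw [negY, crv_a1, crv_a3, zero_mul, sub_zero, sub_zero] at hny
        have h4 : (y1 - y2) * (y1 + y2) = 0 := by
          have : y1 ^ 2 = y2 ^ 2 := by rw [e1, e2, hxx]
          linear_combination this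
        rcases mul_eq_zero.1 h4 with h5 | h5
        · exact sub_eq_zero.1 h5
        · exact absurd (eq_neg_of_add_eq_zero_left h5) hny
      have hww : w1 = w2 := by
        have : (1 : L) / w1 = 1 / w2 := by rw [← hy1w, ← hy2w, hyy]
        rwa [div_eq_div_iff hw10 hw20, one_mul, one_mul, eq_comm] at this
      have htt : t1 = t2 := by
        have : t1 / w1 = t2 / w2 := by rw [← hx1t, ← hx2t, hxx]
        rw [hww] at this
        exact (div_left_inj' hw20).1 this
      rw [slope_of_Y_ne hxx hny, negY, crv_a1, crv_a2, crv_a3, crv_a4, hx1t, hy1w]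
      have h3 : u * U = -2 * w1 := by
        have h4 : u * U = w1 * U - t1 * C := by
          rw [hu, sub_mul]
          linear_combination (-t1) * hlU
        rw [h4, hUd, hCd, ← htt, ← hww]
        linear_combination 3 * hc1
      have h5 : C = 3 * t1 ^ 2 + A * w1 ^ 2 := by
        rw [hCd, ← htt]; ring
      have h6 : u * C = -2 * w1 * l := by
        rw [← hlU]
        linear_combination l * h3
      rw [div_eq_div_iff ?_ hu0]
      · field_simp
        rw [h5] at h6
        linear_combination h6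
      · intro h
        apply h2
        have h7 : (2 : L) * (1 / w1) = 0 := by linear_combination h
        exact (mul_eq_zero.1 h7).resolve_right (one_div_ne_zero hw10)
    · rw [slope_of_X_ne hxx]
      have h3 : x1 - x2 ≠ 0 := sub_ne_zero.2 hxx
      rw [div_eq_div_iff h3 hu0, hx1t, hx2t, hy1w, hy2w]
      have h4 : w2 - w1 = l * (t2 - t1) := by linear_combination hL2 - hL1
      have h5 : t1 * w2 - t2 * w1 = u * (t1 - t2) := by
        rw [hL1, hL2]; ring
      field_simp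
      linear_combination u * h4 + l * h5
  have hX : (crv A B).addX x1 x2 ((crv A B).slope x1 x2 y1 y2) = t3 / (l * t3 + u) := by
    rw [hslope, addX, crv_a1, crv_a2, hx3, hx1t, hx2t]
    ring
  have hY : (crv A B).addY x1 x2 y1 ((crv A B).slope x1 x2 y1 y2) = -(1 / (l * t3 + u)) := by
    rw [addY, negAddY, hX, negY, crv_a1, crv_a3, hslope, hx1t, hy1w, hL1]
    have hL0 : l * t1 + u ≠ 0 := by rw [← hL1]; exact hw10
    field_simp
    ring
  have htt3 : t3 / (l * t3 + u) / -(1 / (l * t3 + u)) = -t3 := by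
    rw [div_neg, one_div, div_inv_eq_mul, div_mul_cancel₀ _ hw3]
  have hdiff : v (-t3 - (t1 + t2)) ≤ a ^ 5 := by
    have h3 : -t3 - (t1 + t2) = l * u * (2 * A + 3 * B * l) / (1 + A * l ^ 2 + B * l ^ 3) := by
      rw [ht3]
      field_simp
      ring
    rw [h3, map_div₀, hZ1, div_one, map_mul, map_mul]
    have h4 : v (2 * A + 3 * B * l) ≤ 1 := by
      refine v_le_of ?_ ?_
      · rw [map_mul]
        exact mul_le_one' (v_two v) hA
      · rw [map_mul, map_mul]
        refine mul_le_one' (mul_le_one' (v_three v) hB) (hvl.trans ?_)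
        exact pow_le_one₀ zero_le ha.le
    calc v l * v u * v (2 * A + 3 * B * l) ≤ a ^ 2 * a ^ 3 * 1 := by gcongr
      _ = a ^ 5 := by rw [mul_one, ← pow_add]
  refine ⟨?_, ?_⟩
  · -- near the origin
    change 1 < v ((crv A B).addX x1 x2 ((crv A B).slope x1 x2 y1 y2))
    have h3 : v (l * t3 + u) < 1 := by
      have h4 : v t3 ≤ a := by
        have h5 : t3 = -((-t3 - (t1 + t2)) + (t1 + t2)) := by ring
        rw [h5, Valuation.map_neg]
        refine v_le_of (hdiff.trans ?_) (v_le_of hPa hQa)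
        calc a ^ 5 ≤ a ^ 1 := pow_le_pow_of_le_one zero_le ha.le (by norm_num)
          _ = a := pow_one a
      refine v.map_add_lt ?_ (hvu.trans_lt (pow_lt_one₀ zero_le ha three_ne_zero))
      rw [map_mul]
      calc v l * v t3 ≤ a ^ 2 * a := mul_le_mul' hvl h4
        _ = a ^ 3 := by rw [← pow_succ]
        _ < 1 := pow_lt_one₀ zero_le ha three_ne_zero
    by_contra hcon
    push Not at hcon
    have h4 := eqn (nonsingular_add hn1 hn2 hxy)
    rw [hY] at h4
    set X3 := (crv A B).addX x1 x2 ((crv A B).slope x1 x2 y1 y2) with hX3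
    have h5 : v ((-(1 / (l * t3 + u))) ^ 2) ≤ 1 := by
      rw [h4]
      refine v_le_of (v_le_of ?_ ?_) hB
      · rw [map_pow]
        exact pow_le_one₀ zero_le hcon
      · rw [map_mul]
        exact mul_le_one' hA hcon
    rw [map_pow, Valuation.map_neg, map_div₀, map_one, one_div, inv_pow] at h5
    have h6 : v (l * t3 + u) ^ 2 < 1 := pow_lt_one₀ zero_le h3 two_ne_zero
    have h7 : 0 < v (l * t3 + u) ^ 2 := by
      have : v (l * t3 + u) ≠ 0 := (map_ne_zero v).2 hw3
      exact pow_pos (zero_lt_iff.2 this) 2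
    have h8 := (one_lt_inv₀ h7).2 h6
    exact absurd h5 (not_le.2 h8)
  · change v ((crv A B).addX x1 x2 ((crv A B).slope x1 x2 y1 y2) /
      (crv A B).addY x1 x2 y1 ((crv A B).slope x1 x2 y1 y2) - (x1 / y1 + x2 / y2)) ≤ a ^ 5
    rw [hX, hY, htt3, ← ht1, ← ht2]
    exact hdiff

end Pool.Agent.W466.EP
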