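import Pool.Agent.W466.EC

/-!
Valuations of the parameters of multiples and sums of points near the origin of an elliptic curve
(helper file for Zilber-Pink for powers of elliptic curves).
-/

namespace Pool.Agent.W466.EP

open WeierstrassCurve WeierstrassCurve.Affine

variable {L : Type*} [Field L] {Γ₀ : Type*} [LinearOrderedCommGroupWithZero Γ₀]
  {v : Valuation L Γ₀}

theorem v_nat (v : Valuation L Γ₀) (n : ℕ) : v (n : L) ≤ 1 := by
  induction n with
  | zero => rw [Nat.cast_zero, map_zero]; exact zero_le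
  | succ n ih =>
    rw [Nat.cast_succ]
    exact v_le_of ih (by rw [map_one])

theorem v_int (v : Valuation L Γ₀) (n : ℤ) : v (n : L) ≤ 1 := by
  rcases Int.eq_nat_or_neg n with ⟨m, rfl | rfl⟩
  · rw [Int.cast_natCast]; exact v_nat v m
  · rw [Int.cast_neg, Int.cast_natCast, Valuation.map_neg]; exact v_nat v m

theorem v_coprime {p : ℕ} (hp : v (p : L) < 1) {m : ℕ} (hm : Nat.Coprime p m) :
    v (m : L) = 1 := by
  refine le_antisymm (v_nat v m) ?_
  by_contra hcon
  push Not at hcon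
  have h1 : ((p : ℤ) * p.gcdA m + m * p.gcdB m : ℤ) = 1 := by
    rw [← Nat.gcd_eq_gcd_ab, hm.gcd_eq_one, Nat.cast_one]
  have h2 : (p : L) * (p.gcdA m : L) + (m : L) * (p.gcdB m : L) = 1 := by
    have := congrArg (Int.cast : ℤ → L) h1
    push_cast at this
    exact this
  have h3 : v ((p : L) * (p.gcdA m : L) + (m : L) * (p.gcdB m : L)) < 1 := by
    refine v.map_add_lt ?_ ?_
    · rw [map_mul]
      exact (mul_le_of_le_one_right' (v_int v _)).trans_lt hp
    · rw [map_mul]
      exact (mul_le_of_le_one_right' (v_int v _)).trans_lt hcon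
  rw [h2, map_one] at h3
  exact lt_irrefl _ h3

theorem v_nat_pow {p : ℕ} (hpp : p.Prime) (hp : v (p : L) < 1) {n : ℕ} (hn : n ≠ 0) :
    v (n : L) = v (p : L) ^ (n.factorization p) := by
  have h1 := Nat.ordProj_mul_ordCompl_eq_self n p
  have h2 : v ((n / p ^ n.factorization p : ℕ) : L) = 1 :=
    v_coprime hp (Nat.coprime_ordCompl hpp hn)
  conv_lhs => rw [← h1]
  rw [Nat.cast_mul, map_mul, h2, mul_one, Nat.cast_pow, map_pow]

theorem v_int_pow {p : ℕ} (hpp : p.Prime) (hp : v (p : L) < 1) {n : ℤ} (hn : n ≠ 0) :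
    v (n : L) = v (p : L) ^ (n.natAbs.factorization p) := by
  rw [← v_nat_pow hpp hp (Int.natAbs_ne_zero.2 hn)]
  rcases Int.natAbs_eq n with h | h
  · conv_lhs => rw [h, Int.cast_natCast]
  · conv_lhs => rw [h, Int.cast_neg, Int.cast_natCast, Valuation.map_neg]

/-- the parameter vanishes only at the origin -/
theorem tt_ne {A B : L} {P : (crv A B).Point} (hA : v A ≤ 1) (hB : v B ≤ 1) (hP : Fm v P)
    (h0 : P ≠ 0) : tt P ≠ 0 := by
  rcases P with _ | ⟨x, y, hn⟩
  · exact absurd rfl h0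
  · obtain ⟨hy, hx, -⟩ := loc hA hB (eqn hn) hP
    exact div_ne_zero hx hy

theorem tt_lt {A B : L} {P : (crv A B).Point} (hA : v A ≤ 1) (hB : v B ≤ 1) (hP : Fm v P) :
    v (tt P) < 1 := by
  rcases P with _ | ⟨x, y, hn⟩
  · change v 0 < 1
    rw [map_zero]
    exact zero_lt_one
  · exact (loc hA hB (eqn hn) hP).2.2.1

theorem tt_neg {A B : L} (P : (crv A B).Point) : tt (-P) = - tt P := by
  rcases P with _ | ⟨x, y, hn⟩
  · change tt (-(0 : (crv A B).Point)) = -(0 : L)
    rw [Point.neg_zero, _root_.neg_zero]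
    rfl
  · rw [Point.neg_some]
    change x / (crv A B).negY x y = -(x / y)
    rw [negY, crv_a1, crv_a3, zero_mul, sub_zero, sub_zero, div_neg]

theorem fm_neg {A B : L} {P : (crv A B).Point} (h : Fm v P) : Fm v (-P) := by
  rcases P with _ | ⟨x, y, hn⟩
  · change Fm v (-(0 : (crv A B).Point))
    rw [Point.neg_zero]
    trivial
  · rw [Point.neg_some]
    exact h

variable [DecidableEq L]

section

variable {A B : L} (hA : v A ≤ 1) (hB : v B ≤ 1) (h2 : (2 : L) ≠ 0)

include hA hB h2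

theorem vadd_le {P Q : (crv A B).Point} (hP : Fm v P) (hQ : Fm v Q) {a : Γ₀} (ha : a < 1)
    (hPa : v (tt P) ≤ a) (hQa : v (tt Q) ≤ a) : v (tt (P + Q)) ≤ a := by
  have h1 := (add_near hA hB h2 P Q hP hQ ha hPa hQa).2
  have h3 : tt (P + Q) = (tt (P + Q) - (tt P + tt Q)) + (tt P + tt Q) := by ring
  rw [h3]
  refine v_le_of (h1.trans ?_) (v_le_of hPa hQa)
  calc a ^ 5 ≤ a ^ 1 := pow_le_pow_of_le_one zero_le ha.le (by norm_num)
    _ = a := pow_one a

theorem vadd_eq {P Q : (crv A B).Point} (hP : Fm v P) (hQ : Fm v Q)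
    (h : v (tt P) < v (tt Q)) : v (tt (P + Q)) = v (tt Q) := by
  have hQ1 := tt_lt hA hB hQ
  have h1 := (add_near hA hB h2 P Q hP hQ hQ1 h.le le_rfl).2
  have h3 : tt (P + Q) = tt Q + (tt P + (tt (P + Q) - (tt P + tt Q))) := by ring
  have h0 : 0 < v (tt Q) := zero_le.trans_lt h
  have h4 : v (tt Q) ^ 5 < v (tt Q) := by
    calc v (tt Q) ^ 5 = v (tt Q) ^ 4 * v (tt Q) := pow_succ _ _
      _ < 1 * v (tt Q) := by
        gcongr
        exact pow_lt_one₀ zero_le hQ1 (by norm_num)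
      _ = v (tt Q) := one_mul _
  rw [h3]
  exact Valuation.map_add_eq_of_lt_left _ (v.map_add_lt h (h1.trans_lt h4))

theorem nsmul_near {P : (crv A B).Point} (hP : Fm v P) {a : Γ₀} (ha : a < 1)
    (hPa : v (tt P) ≤ a) (n : ℕ) :
    Fm v (n • P) ∧ v (tt (n • P) - n * tt P) ≤ a ^ 5 := by
  induction n with
  | zero =>
    rw [zero_smul, Nat.cast_zero, zero_mul, sub_zero]
    refine ⟨trivial, ?_⟩
    change v (0 : L) ≤ a ^ 5
    rw [map_zero]
    exact zero_le
  | succ n ih =>
    have h5 : a ^ 5 ≤ a := by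
      calc a ^ 5 ≤ a ^ 1 := pow_le_pow_of_le_one zero_le ha.le (by norm_num)
        _ = a := pow_one a
    have h1 : v (tt (n • P)) ≤ a := by
      have h3 : tt (n • P) = (tt (n • P) - n * tt P) + n * tt P := by ring
      rw [h3]
      refine v_le_of (ih.2.trans h5) ?_
      rw [map_mul]
      exact (mul_le_of_le_one_left' (v_nat v n)).trans hPa
    have h4 := add_near hA hB h2 (n • P) P ih.1 hP ha h1 hPa
    rw [succ_nsmul]
    refine ⟨h4.1, ?_⟩
    have h6 : tt (n • P + P) - ((n + 1 : ℕ) : L) * tt P =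
        (tt (n • P + P) - (tt (n • P) + tt P)) + (tt (n • P) - n * tt P) := by
      push_cast
      ring
    rw [h6]
    exact v_le_of h4.2 ih.2

theorem nsmul_coprime {p : ℕ} (hp : v (p : L) < 1) {P : (crv A B).Point} (hP : Fm v P)
    (h0 : P ≠ 0) {m : ℕ} (hm : Nat.Coprime p m) :
    Fm v (m • P) ∧ v (tt (m • P)) = v (tt P) := by
  have hP1 := tt_lt hA hB hP
  have h1 := nsmul_near hA hB h2 hP hP1 le_rfl m
  refine ⟨h1.1, ?_⟩
  have h3 : tt (m • P) = m * tt P + (tt (m • P) - m * tt P) := by ring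
  have hpos : 0 < v (tt P) := zero_lt_iff.2 ((map_ne_zero v).2 (tt_ne hA hB hP h0))
  have h4 : v (tt P) ^ 5 < v (tt P) := by
    calc v (tt P) ^ 5 = v (tt P) ^ 4 * v (tt P) := pow_succ _ _
      _ < 1 * v (tt P) := by
        gcongr
        exact pow_lt_one₀ zero_le hP1 (by norm_num)
      _ = v (tt P) := one_mul _
  have h5 : v (m * tt P) = v (tt P) := by rw [map_mul, v_coprime hp hm, one_mul]
  rw [h3, Valuation.map_add_eq_of_lt_left _ (by rw [h5]; exact h1.2.trans_lt h4), h5]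

theorem nsmul_prime {p : ℕ}
    {P : (crv A B).Point} (hP : Fm v P)
    (h0 : P ≠ 0) (h4 : v (tt P) ^ 4 < v (p : L)) :
    Fm v (p • P) ∧ v (tt (p • P)) = v (p : L) * v (tt P) := by
  have hP1 := tt_lt hA hB hP
  have h1 := nsmul_near hA hB h2 hP hP1 le_rfl p
  refine ⟨h1.1, ?_⟩
  have h3 : tt (p • P) = p * tt P + (tt (p • P) - p * tt P) := by ring
  have hpos : 0 < v (tt P) := zero_lt_iff.2 ((map_ne_zero v).2 (tt_ne hA hB hP h0))
  have h5 : v (tt P) ^ 5 < v (p * tt P) := by
    rw [map_mul]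
    calc v (tt P) ^ 5 = v (tt P) ^ 4 * v (tt P) := pow_succ _ _
      _ < v (p : L) * v (tt P) := by gcongr
  rw [h3, Valuation.map_add_eq_of_lt_left _ (h1.2.trans_lt h5), map_mul]

theorem nsmul_val {p : ℕ} (hpp : p.Prime) (hp0 : 0 < v (p : L)) (hp : v (p : L) < 1)
    {P : (crv A B).Point} (hP : Fm v P) (h0 : P ≠ 0) (h4 : v (tt P) ^ 4 < v (p : L))
    {n : ℕ} (hn : n ≠ 0) :
    Fm v (n • P) ∧ v (tt (n • P)) = v (n : L) * v (tt P) := by
  have hpos : 0 < v (tt P) := zero_lt_iff.2 ((map_ne_zero v).2 (tt_ne hA hB hP h0))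
  have key : ∀ s : ℕ, Fm v (p ^ s • P) ∧ v (tt (p ^ s • P)) = v (p : L) ^ s * v (tt P) := by
    intro s
    induction s with
    | zero =>
      rw [pow_zero, one_smul, pow_zero, one_mul]
      exact ⟨hP, rfl⟩
    | succ s ih =>
      have h5 : v (tt (p ^ s • P)) ≤ v (tt P) := by
        rw [ih.2]
        exact mul_le_of_le_one_left' (pow_le_one₀ zero_le hp.le)
      have h6 : p ^ s • P ≠ 0 := by
        intro h
        have h7 := ih.2
        rw [h] at h7
        change v (0 : L) = _ at h7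
        rw [map_zero] at h7
        exact (mul_pos (pow_pos hp0 s) hpos).ne h7
      have h8 := nsmul_prime hA hB h2 ih.1 h6
        ((pow_le_pow_left₀ zero_le h5 4).trans_lt h4)
      rw [pow_succ', mul_smul]
      refine ⟨h8.1, ?_⟩
      rw [h8.2, ih.2, pow_succ', mul_assoc]
  obtain ⟨h5, h6⟩ := key (n.factorization p)
  have h7 : p ^ (n.factorization p) • P ≠ 0 := by
    intro h
    rw [h] at h6
    change v (0 : L) = _ at h6
    rw [map_zero] at h6
    exact (mul_pos (pow_pos hp0 _) hpos).ne h6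
  have h8 := nsmul_coprime hA hB h2 hp h5 h7 (Nat.coprime_ordCompl hpp hn)
  have h9 : n • P = (n / p ^ n.factorization p) • (p ^ n.factorization p) • P := by
    rw [← mul_smul, mul_comm, Nat.ordProj_mul_ordCompl_eq_self n p]
  rw [h9]
  refine ⟨h8.1, ?_⟩
  rw [h8.2, h6, v_nat_pow hpp hp hn]

theorem zsmul_val {p : ℕ} (hpp : p.Prime) (hp0 : 0 < v (p : L)) (hp : v (p : L) < 1)
    {P : (crv A B).Point} (hP : Fm v P) (h0 : P ≠ 0) (h4 : v (tt P) ^ 4 < v (p : L))
    {n : ℤ} (hn : n ≠ 0) :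
    Fm v (n • P) ∧ v (tt (n • P)) = v (n : L) * v (tt P) := by
  have h1 := nsmul_val hA hB h2 hpp hp0 hp hP h0 h4 (Int.natAbs_ne_zero.2 hn)
  rcases Int.natAbs_eq n with h | h
  · have h3 : n • P = n.natAbs • P := by
      conv_lhs => rw [h]
      rw [natCast_zsmul]
    have h5 : (n : L) = (n.natAbs : L) := by
      conv_lhs => rw [h]
      rw [Int.cast_natCast]
    rw [h3, h5]
    exact h1
  · have h3 : n • P = -(n.natAbs • P) := by
      conv_lhs => rw [h]
      rw [neg_smul, natCast_zsmul]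
    have h5 : (n : L) = -(n.natAbs : L) := by
      conv_lhs => rw [h]
      rw [Int.cast_neg, Int.cast_natCast]
    rw [h3, h5, tt_neg, Valuation.map_neg, Valuation.map_neg]
    exact ⟨fm_neg h1.1, h1.2⟩

/-- A sum of points near the origin with different valuations of the parameters. -/
theorem sum_val {ι : Type*} (S : Finset ι) (R : ι → (crv A B).Point)
    (hR : ∀ i ∈ S, Fm v (R i)) (hd : ∀ i ∈ S, ∀ j ∈ S, i ≠ j → v (tt (R i)) ≠ v (tt (R j)))
    (hS : S.Nonempty) :
    Fm v (∑ i ∈ S, R i) ∧ ∃ i ∈ S, v (tt (∑ i ∈ S, R i)) = v (tt (R i)) ∧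
      ∀ j ∈ S, v (tt (R j)) ≤ v (tt (R i)) := by
  classical
  induction hS using Finset.Nonempty.cons_induction with
  | singleton a =>
    rw [Finset.sum_singleton]
    refine ⟨hR a (Finset.mem_singleton_self a), a, Finset.mem_singleton_self a, rfl, ?_⟩
    intro j hj
    rw [Finset.mem_singleton.1 hj]
  | cons a s ha hs ih =>
    obtain ⟨h1, i, hi, h3, h4⟩ := ih (fun i hi => hR i (Finset.mem_cons_of_mem hi))
      (fun i hi j hj => hd i (Finset.mem_cons_of_mem hi) j (Finset.mem_cons_of_mem hj))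
    have hRa := hR a (Finset.mem_cons_self a s)
    have hia : i ≠ a := fun h => ha (h ▸ hi)
    have hne := hd i (Finset.mem_cons_of_mem hi) a (Finset.mem_cons_self a s) hia
    rw [Finset.sum_cons]
    have hF : Fm v (R a + ∑ i ∈ s, R i) := by
      have ha1 := tt_lt hA hB hRa
      have hs1 := tt_lt hA hB h1
      exact (add_near hA hB h2 _ _ hRa h1 (max_lt ha1 hs1) (le_max_left _ _)
        (le_max_right _ _)).1
    refine ⟨hF, ?_⟩
    rcases lt_or_gt_of_ne hne with h | h
    · refine ⟨a, Finset.mem_cons_self a s, ?_, ?_⟩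
      · rw [add_comm]
        exact vadd_eq hA hB h2 h1 hRa (by rw [h3]; exact h)
      · intro j hj
        rcases Finset.mem_cons.1 hj with rfl | hj
        · exact le_rfl
        · exact (h4 j hj).trans h.le
    · refine ⟨i, Finset.mem_cons_of_mem hi, ?_, ?_⟩
      · rw [vadd_eq hA hB h2 hRa h1 (by rw [h3]; exact h), h3]
      · intro j hj
        rcases Finset.mem_cons.1 hj with rfl | hj
        · exact h.le
        · exact h4 j hj

end

end Pool.Agent.W466.EP
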