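import Pool.Agent.W466.CF

/-!
Valuation rings of `ℂ` above almost all primes with bounded ramification on a given finitely
generated field (helper file for Zilber-Pink for powers of elliptic curves).
-/

open Function MvPolynomial

namespace Pool.Agent.W466.EP

/-- In a vanishing sum two terms have the same maximal value. -/
theorem two_terms {L : Type*} [Field L] {Γ₀ : Type*} [LinearOrderedCommGroupWithZero Γ₀]
    (v : Valuation L Γ₀) {ι : Type*} [DecidableEq ι] (s : Finset ι) (f : ι → L)
    (h0 : ∑ i ∈ s, f i = 0) {i0 : ι} (hi0 : i0 ∈ s) (hf : f i0 ≠ 0) :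
    ∃ i ∈ s, ∃ j ∈ s, i ≠ j ∧ v (f i) = v (f j) ∧ f i ≠ 0 ∧ f j ≠ 0 := by
  obtain ⟨j, hj, hmax⟩ := Finset.exists_max_image s (fun i => v (f i)) ⟨i0, hi0⟩
  have hvj : v (f j) ≠ 0 := by
    have h1 : 0 < v (f i0) := zero_lt_iff.2 ((map_ne_zero v).2 hf)
    exact (h1.trans_le (hmax i0 hi0)).ne'
  by_contra hcon
  push Not at hcon
  have h2 : v (∑ i ∈ s.erase j, f i) < v (f j) := by
    refine Valuation.map_sum_lt _ hvj fun i hi => ?_
    rw [Finset.mem_erase] at hi
    refine lt_of_le_of_ne (hmax i hi.2) fun h => ?_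
    have hfi : f i ≠ 0 := by
      intro h3
      rw [h3, map_zero] at h
      exact hvj h.symm
    exact (map_ne_zero v).1 hvj (hcon i hi.2 j hj hi.1 h hfi)
  have h3 : v (∑ i ∈ s, f i) = v (f j) := by
    rw [← Finset.add_sum_erase s f hj]
    exact Valuation.map_add_eq_of_lt_left _ h2
  rw [h0, map_zero] at h3
  exact hvj h3.symm

theorem exists_val2 {k : Type} [Field k] [Algebra k ℂ] [CharZero k] {ι : Type*} [Finite ι]
    (t : ι → k) : ∃ M D : ℕ, ∀ p : ℕ, p.Prime → D < p → ∀ (τ : Type) (x : τ → ℂ),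
      AlgebraicIndependent k x → ∃ V : ValuationSubring ℂ,
        (p : ℂ) ∈ V.nonunits ∧ (∀ i, algebraMap k ℂ (t i) ∈ V) ∧ (∀ j, V.valuation (x j) = 1) ∧
        ∀ z ∈ Subfield.closure (Set.range t), z ≠ 0 → ∃ h : ℕ, 0 < h ∧ h ≤ M ∧ ∃ i : ℤ,
          V.valuation (algebraMap k ℂ z) ^ h = V.valuation (p : ℂ) ^ i := by
  classical
  have := Fintype.ofFinite ι
  have : FaithfulSMul ℤ k := (faithfulSMul_iff_algebraMap_injective ℤ k).2 Int.cast_injective
  obtain ⟨s, hs⟩ := exists_isTranscendenceBasis ℤ k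
  have : Algebra.IsAlgebraic ℤ ℚ := IsLocalization.isAlgebraic ℚ (nonZeroDivisors ℤ)
  have halg : Algebra.IsAlgebraic (Algebra.adjoin ℤ (Set.range ((↑) : s → k))) k := hs.isAlgebraic
  have h1 : ∀ i, ∃ f : MvPolynomial s ℤ, f ≠ 0 ∧
      IsIntegral (Algebra.adjoin ℤ (Set.range ((↑) : s → k)))
        (aeval ((↑) : s → k) f * t i) := by
    intro i
    obtain ⟨a, ha, hint⟩ := (halg.1 (t i)).exists_integral_multiple
    have h2 : (a : k) ∈ (aeval ((↑) : s → k) : MvPolynomial s ℤ →ₐ[ℤ] k).range := by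
      rw [← Algebra.adjoin_range_eq_range_aeval]
      exact a.2
    obtain ⟨f, hf⟩ := h2
    refine ⟨f, ?_, ?_⟩
    · rintro rfl
      apply ha
      apply Subtype.ext
      rw [← hf]
      simp
    · have h3 : aeval ((↑) : s → k) f = (a : k) := hf
      rw [h3]
      exact hint
  choose f hf hint using h1
  have h2 : ∀ i, ∃ m, (f i).coeff m ≠ 0 := fun i => by
    by_contra h
    push Not at h
    exact hf i (MvPolynomial.ext _ _ fun m => by rw [h m, coeff_zero])
  choose m hm using h2
  -- the field generated by the transcendence basis and the finite extension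
  let F0 : Subfield k := Subfield.closure (Set.range ((↑) : s → k))
  have hF0 : ∀ c ∈ F0, ∃ a b : MvPolynomial s ℤ,
      c = aeval ((↑) : s → k) a / aeval ((↑) : s → k) b := by
    intro c hc
    obtain ⟨y, hy, z, hz, hyz⟩ := Subfield.mem_closure_iff.1 hc
    have hr : ∀ w ∈ Subring.closure (Set.range ((↑) : s → k)), ∃ a : MvPolynomial s ℤ,
        aeval ((↑) : s → k) a = w := by
      intro w hw
      have h3 : Subring.closure (Set.range ((↑) : s → k)) ≤
          (aeval ((↑) : s → k) : MvPolynomial s ℤ →ₐ[ℤ] k).range.toSubring := by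
        rw [Subring.closure_le]
        rintro _ ⟨i, rfl⟩
        exact ⟨X i, aeval_X _ _⟩
      exact h3 hw
    obtain ⟨a, ha⟩ := hr y hy
    obtain ⟨b, hb⟩ := hr z hz
    exact ⟨a, b, by rw [ha, hb, hyz]⟩
  have halg0 : ∀ z : k, IsAlgebraic F0 z := by
    intro z
    obtain ⟨P, hP0, hP⟩ := halg.1 z
    let φ : Algebra.adjoin ℤ (Set.range ((↑) : s → k)) →+* F0 :=
      (algebraMap (Algebra.adjoin ℤ (Set.range ((↑) : s → k))) k).codRestrict F0 (by
        intro a
        have h3 : Algebra.adjoin ℤ (Set.range ((↑) : s → k)) ≤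
            subalgebraOfSubring F0.toSubring := by
          refine Algebra.adjoin_le ?_
          exact Subfield.subset_closure
        exact h3 a.2)
    have hφ : Function.Injective φ := by
      intro a b hab
      apply Subtype.ext
      exact congrArg (Subtype.val : F0 → k) hab
    refine ⟨P.map φ, (Polynomial.map_ne_zero_iff hφ).2 hP0, ?_⟩
    rw [Polynomial.aeval_def, Polynomial.eval₂_map]
    exact hP
  let K1 : IntermediateField F0 k := IntermediateField.adjoin F0 (Set.range t)
  have hfin : FiniteDimensional F0 K1 :=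
    IntermediateField.finiteDimensional_adjoin fun z _ => (halg0 z).isIntegral
  refine ⟨Module.finrank F0 K1, ∑ i, ((f i).coeff (m i)).natAbs, fun p hp hpD τ x hx => ?_⟩
  let y : s ⊕ τ → ℂ := Sum.elim (fun a => algebraMap k ℂ a) x
  have hsum : AlgebraicIndependent ℤ (Sum.elim x (algebraMap k ℂ ∘ ((↑) : s → k))) :=
    hs.1.sumElim_comp hx
  have hyZ : AlgebraicIndependent ℤ y := by
    have h3 := hsum.comp (Equiv.sumComm s τ) (Equiv.injective _)
    have h4 : Sum.elim x (algebraMap k ℂ ∘ ((↑) : s → k)) ∘ (Equiv.sumComm s τ) = y := by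
      funext a
      rcases a with a | a <;> rfl
    rwa [h4] at h3
  have hyQ : AlgebraicIndependent ℚ y := hyZ.extendScalars ℚ
  obtain ⟨V, hV1, hV2, hV3⟩ := ZP.exists_gauss y hyQ hp
  have haev : ∀ g : MvPolynomial s ℤ, aeval y (rename (Sum.inl : s → s ⊕ τ) g) =
      algebraMap k ℂ (aeval ((↑) : s → k) g) := by
    intro g
    rw [aeval_rename]
    have h6 : y ∘ Sum.inl = fun a : s => algebraMap k ℂ a := rfl
    rw [h6]
    have h8 := MvPolynomial.map_aeval (R := ℤ) ((↑) : s → k) (algebraMap k ℂ) g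
    rw [h8, aeval_def, coe_eval₂Hom]
    congr 1
    exact RingHom.ext_int _ _
  have hnd0 : ∀ g : MvPolynomial s ℤ, ¬ (C (p : ℤ) ∣ g) →
      ¬ (C (p : ℤ) ∣ rename (Sum.inl : s → s ⊕ τ) g) := by
    intro g hg h
    apply hg
    rw [C_dvd_iff_dvd_coeff] at h ⊢
    intro u
    have h3 := h (u.mapDomain (Sum.inl : s → s ⊕ τ))
    rwa [coeff_rename_mapDomain _ Sum.inl_injective] at h3
  have hval1 : ∀ g : MvPolynomial s ℤ, ¬ (C (p : ℤ) ∣ g) →
      V.valuation (algebraMap k ℂ (aeval ((↑) : s → k) g)) = 1 := by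
    intro g hg
    rw [← haev]
    exact hV3 _ (hnd0 g hg)
  have hndf : ∀ i, ¬ (C (p : ℤ) ∣ f i) := by
    intro i h
    rw [C_dvd_iff_dvd_coeff] at h
    have h3 : p ∣ ((f i).coeff (m i)).natAbs := Int.natCast_dvd.1 (h (m i))
    have h4 := Nat.le_of_dvd (Int.natAbs_pos.2 (hm i)) h3
    have h5 : ((f i).coeff (m i)).natAbs ≤ ∑ i, ((f i).coeff (m i)).natAbs :=
      Finset.single_le_sum (f := fun i => ((f i).coeff (m i)).natAbs)
        (fun _ _ => Nat.zero_le _) (Finset.mem_univ i)
    omega
  refine ⟨V, hV1, fun i => ?_, fun j => ?_, ?_⟩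
  · -- integrality of the `t i`
    have h3 := hval1 _ (hndf i)
    have h4 : algebraMap k ℂ (aeval ((↑) : s → k) (f i) * t i) ∈ V := by
      obtain ⟨P, hP, hPe⟩ := hint i
      have hle : ∀ z ∈ Algebra.adjoin ℤ (Set.range ((↑) : s → k)), algebraMap k ℂ z ∈ V := by
        intro z hz
        have h9 : Algebra.adjoin ℤ (Set.range ((↑) : s → k)) ≤
            (subalgebraOfSubring V.toSubring).comap ((algebraMap k ℂ).toIntAlgHom) := by
          refine Algebra.adjoin_le ?_
          rintro _ ⟨a, rfl⟩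
          exact hV2 (Sum.inl a)
        exact h9 hz
      let φ : Algebra.adjoin ℤ (Set.range ((↑) : s → k)) →+* V :=
        { toFun := fun a => ⟨algebraMap k ℂ a, hle a a.2⟩
          map_one' := Subtype.ext (map_one _)
          map_mul' := fun _ _ => Subtype.ext (map_mul (algebraMap k ℂ) _ _)
          map_zero' := Subtype.ext (map_zero _)
          map_add' := fun _ _ => Subtype.ext (map_add (algebraMap k ℂ) _ _) }
      have h1 : IsIntegral V (algebraMap k ℂ (aeval ((↑) : s → k) (f i) * t i)) := by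
        refine ⟨P.map φ, hP.map φ, ?_⟩
        rw [Polynomial.eval₂_map]
        have h10 := congrArg (algebraMap k ℂ) hPe
        rw [Polynomial.hom_eval₂, map_zero] at h10
        exact h10
      obtain ⟨y, hy⟩ := IsIntegrallyClosed.isIntegral_iff.1 h1
      rw [← hy]
      exact y.2
    rw [← ValuationSubring.valuation_le_one_iff, map_mul, map_mul, h3, one_mul] at h4
    exact (ValuationSubring.valuation_le_one_iff _ _).1 h4
  · -- the `x j` are units
    have h3 : ¬ (C (p : ℤ) ∣ (X (Sum.inr j) : MvPolynomial (s ⊕ τ) ℤ)) := by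
      intro h
      rw [C_dvd_iff_dvd_coeff] at h
      have h4 := h (Finsupp.single (Sum.inr j) 1)
      have h5 : (X (Sum.inr j) : MvPolynomial (s ⊕ τ) ℤ).coeff
          (Finsupp.single (Sum.inr j) 1) = 1 := by
        rw [coeff_X, if_pos rfl]
      rw [h5] at h4
      have h6 := Int.natCast_dvd.1 h4
      exact hp.one_lt.ne' (Nat.dvd_one.1 h6)
    have h4 := hV3 _ h3
    rw [aeval_X] at h4
    exact h4
  · -- bounded ramification
    have hp0 : V.valuation (p : ℂ) ≠ 0 := by
      rw [(map_ne_zero V.valuation)]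
      exact_mod_cast hp.ne_zero
    have hpol : ∀ g : MvPolynomial s ℤ, g ≠ 0 → ∃ n : ℕ,
        V.valuation (algebraMap k ℂ (aeval ((↑) : s → k) g)) = V.valuation (p : ℂ) ^ n := by
      intro g hg
      have hirr : Irreducible (C (p : ℤ) : MvPolynomial s ℤ) :=
        ((MvPolynomial.prime_C_iff s).2 (Nat.prime_iff_prime_int.1 hp)).irreducible
      obtain ⟨n, a, ha, hga⟩ := WfDvdMonoid.max_power_factor hg hirr
      refine ⟨n, ?_⟩
      rw [hga, map_mul, map_mul, map_mul, hval1 a ha, mul_one, map_pow, map_pow, map_pow]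
      congr 2
      rw [aeval_C]
      simp
    have hF0v : ∀ c ∈ F0, c ≠ 0 → ∃ i : ℤ,
        V.valuation (algebraMap k ℂ c) = V.valuation (p : ℂ) ^ i := by
      intro c hc hc0
      obtain ⟨a, b, hab⟩ := hF0 c hc
      have ha : a ≠ 0 := by
        rintro rfl
        rw [map_zero, zero_div] at hab
        exact hc0 hab
      have hb : b ≠ 0 := by
        rintro rfl
        rw [map_zero, div_zero] at hab
        exact hc0 hab
      obtain ⟨n, hn⟩ := hpol a ha
      obtain ⟨n', hn'⟩ := hpol b hb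
      refine ⟨(n : ℤ) - n', ?_⟩
      rw [hab, map_div₀, map_div₀, hn, hn', zpow_sub₀ hp0, zpow_natCast, zpow_natCast]
    intro z hz hz0
    have hzK : z ∈ K1 := by
      have h3 : Subfield.closure (Set.range t) ≤ K1.toSubfield := by
        rw [Subfield.closure_le]
        exact IntermediateField.subset_adjoin F0 _
      exact h3 hz
    let w : K1 := ⟨z, hzK⟩
    have hwint : IsIntegral F0 w := IsIntegral.of_finite F0 w
    set P := minpoly F0 w with hP
    have hPdeg : P.natDegree ≤ Module.finrank F0 K1 := minpoly.natDegree_le w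
    have hPz : ∑ i ∈ Finset.range (P.natDegree + 1),
        algebraMap k ℂ ((P.coeff i : F0) : k) * algebraMap k ℂ z ^ i = 0 := by
      have h3 : Polynomial.aeval z P = 0 := by
        have h4 := minpoly.aeval F0 w
        have h5 := congrArg (Subtype.val : K1 → k) h4
        have h6 : ((Polynomial.aeval w P : K1) : k) = Polynomial.aeval z P := by
          have := Polynomial.aeval_algebraMap_apply k w P
          exact this.symm
        rw [← h6]
        exact h5
      have h4 := congrArg (algebraMap k ℂ) h3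
      rw [map_zero, Polynomial.aeval_eq_sum_range, map_sum] at h4
      rw [← h4]
      refine Finset.sum_congr rfl fun i _ => ?_
      rw [← map_pow, ← map_mul]
      rfl
    have hmonic := minpoly.monic hwint
    obtain ⟨i, hi, j, hj, hij, hv, hi0, hj0⟩ := two_terms V.valuation _ _ hPz
      (Finset.mem_range.2 (Nat.lt_succ_self P.natDegree)) (by
        have h3 : P.coeff P.natDegree = 1 := hmonic.coeff_natDegree
        rw [h3]
        have h4 : ((1 : F0) : k) = 1 := rfl
        rw [h4, map_one, one_mul]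
        exact pow_ne_zero _ ((map_ne_zero _).2 hz0))
    have key : ∀ i j : ℕ, i < j → i ≤ P.natDegree → j ≤ P.natDegree →
        algebraMap k ℂ ((P.coeff i : F0) : k) ≠ 0 → algebraMap k ℂ ((P.coeff j : F0) : k) ≠ 0 →
        V.valuation (algebraMap k ℂ ((P.coeff i : F0) : k) * algebraMap k ℂ z ^ i) =
          V.valuation (algebraMap k ℂ ((P.coeff j : F0) : k) * algebraMap k ℂ z ^ j) →
        ∃ h : ℕ, 0 < h ∧ h ≤ Module.finrank F0 K1 ∧ ∃ i : ℤ,
          V.valuation (algebraMap k ℂ z) ^ h = V.valuation (p : ℂ) ^ i := by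
      intro i j hij _ hj hci hcj hv
      obtain ⟨a, ha⟩ := hF0v _ (P.coeff i).2 ((map_ne_zero _).1 hci)
      obtain ⟨b, hb⟩ := hF0v _ (P.coeff j).2 ((map_ne_zero _).1 hcj)
      refine ⟨j - i, by omega, by omega, a - b, ?_⟩
      have hvz : V.valuation (algebraMap k ℂ z) ≠ 0 :=
        (map_ne_zero _).2 ((map_ne_zero _).2 hz0)
      rw [map_mul, map_mul, map_pow, map_pow, ha, hb] at hv
      have hj' : V.valuation (algebraMap k ℂ z) ^ j =
          V.valuation (algebraMap k ℂ z) ^ i * V.valuation (algebraMap k ℂ z) ^ (j - i) := by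
        rw [← pow_add]
        congr 1
        omega
      rw [hj', ← mul_assoc, mul_comm (V.valuation (p : ℂ) ^ b), mul_assoc,
        mul_comm (V.valuation (p : ℂ) ^ a)] at hv
      have h3 := mul_left_cancel₀ (pow_ne_zero i hvz) hv
      rw [zpow_sub₀ hp0, h3]
      have h4 : V.valuation (p : ℂ) ^ b ≠ 0 := zpow_ne_zero _ hp0
      field_simp
    have hci := left_ne_zero_of_mul hi0
    have hcj := left_ne_zero_of_mul hj0
    rw [Finset.mem_range, Nat.lt_succ_iff] at hi hj
    rcases lt_or_gt_of_ne hij with h | h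
    · exact key i j h hi hj hci hcj hv
    · exact key j i h hj hi hcj hci hv.symm

end Pool.Agent.W466.EP
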