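import Pool.Agent.W466.EE
import Pool.Agent.W466.ED

/-!
Good valuation rings, points with coordinates in a subfield, ranks (helper file for Zilber-Pink for
products of powers of an elliptic curve and of the multiplicative group).
-/

open Function MvPolynomial

namespace Pool.Agent.W466.EP

open Pool.Agent.W466.ZC

section good

variable {k : Type} [Field k] [Algebra k ℂ] {σ : Type*} [Fintype σ]

/-- Good valuation rings: every point has coordinates in the ring such that at most `m` of the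
given products are non-units. -/
theorem goodE [IsAlgClosed k] [CharZero k] {κ β : Type*} [Fintype β] {m : ℕ}
    (G : κ → MvPolynomial σ k)
    (hhom : ∀ i, ∃ e, (G i).IsHomogeneous e) (A B : β → MvPolynomial σ k)
    (hdis : ∀ I : Finset β, I.card = m + 1 → ∀ y : σ → ℂ, (∀ i, aeval y (G i) = 0) →
      (∀ i ∈ I, aeval y (A i) * aeval y (B i) = 0) → y = 0) {ι : Type*} [Finite ι]
    (Γ : ι → k) :
    ∃ M D : ℕ, ∀ p : ℕ, p.Prime → D < p → ∀ (τ : Type) (x : τ → ℂ), AlgebraicIndependent k x →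
      ∃ V : ValuationSubring ℂ, (p : ℂ) ∈ V.nonunits ∧ (∀ i, algebraMap k ℂ (Γ i) ∈ V) ∧
      (∀ j, V.valuation (x j) = 1) ∧
      (∀ z ∈ Subfield.closure (Set.range Γ), z ≠ 0 → ∃ h : ℕ, 0 < h ∧ h ≤ M ∧ ∃ i : ℤ,
          V.valuation (algebraMap k ℂ z) ^ h = V.valuation (p : ℂ) ^ i) ∧
      ∀ y : σ → ℂ, y ≠ 0 → (∀ i, aeval y (G i) = 0) →
        ∃ c : ℂ, c ≠ 0 ∧ (∀ i, aeval (c • y) (A i) ∈ V ∧ aeval (c • y) (B i) ∈ V) ∧
          ∀ I : Finset β, I.card = m + 1 → ∃ i ∈ I,
            V.valuation (aeval (c • y) (A i) * aeval (c • y) (B i)) = 1 := by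
  classical
  have hcert := fun I : {I : Finset β // I.card = m + 1} =>
    cert' G (fun b : I.1 => A b * B b) (fun y hy hb => hdis I.1 I.2 y hy fun i hi => by
      have := hb ⟨i, hi⟩
      rwa [map_mul] at this)
  choose M U hU using hcert
  let ι1 := (I : {I : Finset β // I.card = m + 1}) × (j : σ) × (b : I.1) × (U I j b).support
  let ι2 := (i : β) × (A i).support
  let ι3 := (i : β) × (B i).support
  let t : (ι1 ⊕ (ι2 ⊕ ι3)) ⊕ ι → k := Sum.elim
    (Sum.elim (fun i => (U i.1 i.2.1 i.2.2.1).coeff i.2.2.2.1)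
    (Sum.elim (fun i => (A i.1).coeff i.2.1) (fun i => (B i.1).coeff i.2.1))) Γ
  obtain ⟨M', D, hD⟩ := exists_val2 t
  refine ⟨M', D, fun p hp hpD τ x hx => ?_⟩
  obtain ⟨V, hV, hVt, hVx, hram⟩ := hD p hp hpD τ x hx
  refine ⟨V, hV, fun i => hVt (Sum.inr i), hVx, ?_, fun y hy0 hyG => ?_⟩
  · intro z hz hz0
    refine hram z ?_ hz0
    refine Subfield.closure_mono ?_ hz
    rintro _ ⟨i, rfl⟩
    exact ⟨Sum.inr i, rfl⟩
  have hUV : ∀ I j b, ∀ u ∈ (U I j b).support, algebraMap k ℂ ((U I j b).coeff u) ∈ V :=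
    fun I j b u hu => hVt (Sum.inl (Sum.inl ⟨I, j, b, u, hu⟩))
  have hAV : ∀ i, ∀ u ∈ (A i).support, algebraMap k ℂ ((A i).coeff u) ∈ V := fun i u hu =>
    hVt (Sum.inl (Sum.inr (Sum.inl ⟨i, u, hu⟩)))
  have hBV : ∀ i, ∀ u ∈ (B i).support, algebraMap k ℂ ((B i).coeff u) ∈ V := fun i u hu =>
    hVt (Sum.inl (Sum.inr (Sum.inr ⟨i, u, hu⟩)))
  set v := V.valuation with hv
  have hne : (Finset.univ : Finset σ).Nonempty := by
    by_contra h
    rw [Finset.not_nonempty_iff_eq_empty, Finset.univ_eq_empty_iff] at h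
    exact hy0 (funext fun j => (h.false j).elim)
  obtain ⟨j0, -, hj0⟩ := Finset.exists_max_image Finset.univ (fun j => v (y j)) hne
  have hyj0 : y j0 ≠ 0 := by
    intro h
    apply hy0
    funext j
    have h1 := hj0 j (Finset.mem_univ j)
    simp only [h, map_zero, le_zero_iff] at h1
    exact (map_eq_zero v).1 h1
  set z := (y j0)⁻¹ • y with hz
  have hzV : ∀ j, z j ∈ V := by
    intro j
    rw [← ValuationSubring.valuation_le_one_iff, hz, Pi.smul_apply, smul_eq_mul, map_mul, map_inv₀]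
    have h1 := hj0 j (Finset.mem_univ j)
    have h2 : v (y j0) ≠ 0 := (map_ne_zero v).2 hyj0
    calc (v (y j0))⁻¹ * v (y j) ≤ (v (y j0))⁻¹ * v (y j0) := mul_le_mul_right h1 _
      _ = 1 := inv_mul_cancel₀ h2
  have hzG : ∀ i, aeval z (G i) = 0 := by
    intro i
    obtain ⟨e, he⟩ := hhom i
    rw [hz, aeval_smul' he, hyG i, mul_zero]
  refine ⟨(y j0)⁻¹, inv_ne_zero hyj0, fun i => ⟨aeval_mem V _ (hAV i) hzV,
    aeval_mem V _ (hBV i) hzV⟩, ?_⟩
  intro I hI
  by_contra hcon
  push Not at hcon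
  have hlt : ∀ i ∈ I, v (aeval z (A i) * aeval z (B i)) < 1 := by
    intro i hi
    refine lt_of_le_of_ne ?_ (hcon i hi)
    rw [ValuationSubring.valuation_le_one_iff]
    exact mul_mem (aeval_mem V _ (hAV i) hzV) (aeval_mem V _ (hBV i) hzV)
  have h1 := hU ⟨I, hI⟩ z hzG j0
  have h2 : z j0 = 1 := by
    rw [hz, Pi.smul_apply, smul_eq_mul, inv_mul_cancel₀ hyj0]
  rw [h2, one_pow] at h1
  have h3 : v (∑ b : I, aeval z (U ⟨I, hI⟩ j0 b) * aeval z (A b * B b)) < 1 := by
    refine Valuation.map_sum_lt _ one_ne_zero fun b _ => ?_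
    have e1 : aeval z (A b * B b) = aeval z (A b) * aeval z (B b) := map_mul _ _ _
    rw [map_mul, e1]
    exact (mul_le_of_le_one_left' ((ValuationSubring.valuation_le_one_iff _ _).2
      (aeval_mem V _ (hUV ⟨I, hI⟩ j0 b) hzV))).trans_lt (hlt b b.2)
  rw [← h1, map_one] at h3
  exact lt_irrefl _ h3

end good

section rat

open WeierstrassCurve WeierstrassCurve.Affine

variable {L : Type*} [Field L]

/-- the point is the origin or has both coordinates in the subfield -/
def Rat (F : Subfield L) {A B : L} : (crv A B).Point → Prop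
  | .zero => True
  | .some x y _ => x ∈ F ∧ y ∈ F

theorem crv_a6 (A B : L) : (crv A B).a₆ = B := rfl

variable [DecidableEq L]

theorem Rat.add {F : Subfield L} {A B : L} (hA : A ∈ F) {P Q : (crv A B).Point}
    (hP : Rat F P) (hQ : Rat F Q) : Rat F (P + Q) := by
  rcases P with _ | ⟨x1, y1, hn1⟩
  · change Rat F (0 + Q)
    rwa [zero_add]
  rcases Q with _ | ⟨x2, y2, hn2⟩
  · change Rat F (Point.some x1 y1 hn1 + 0)
    rwa [add_zero]
  obtain ⟨hx1, hy1⟩ := hP
  obtain ⟨hx2, hy2⟩ := hQ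
  by_cases hxy : x1 = x2 ∧ y1 = (crv A B).negY x2 y2
  · rw [Point.add_of_Y_eq hxy.1 hxy.2]
    trivial
  rw [Point.add_some hxy]
  have hneg : ∀ x y : L, (crv A B).negY x y = -y := by
    intro x y
    rw [negY, crv_a1, crv_a3]
    ring
  have hs : (crv A B).slope x1 x2 y1 y2 ∈ F := by
    rw [Affine.slope]
    split_ifs with h1 h2
    · exact F.zero_mem
    · refine F.div_mem ?_ ?_
      · rw [crv_a1, crv_a2, crv_a4]
        refine F.sub_mem (F.add_mem (F.add_mem ?_ ?_) hA) ?_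
        · exact F.mul_mem (by exact_mod_cast natCast_mem F 3) (F.pow_mem hx1 2)
        · rw [mul_zero, zero_mul]
          exact F.zero_mem
        · rw [zero_mul]
          exact F.zero_mem
      · rw [hneg]
        exact F.sub_mem hy1 (F.neg_mem hy1)
    · exact F.div_mem (F.sub_mem hy1 hy2) (F.sub_mem hx1 hx2)
  have hX : (crv A B).addX x1 x2 ((crv A B).slope x1 x2 y1 y2) ∈ F := by
    rw [addX, crv_a1, crv_a2, zero_mul, add_zero, sub_zero]
    exact F.sub_mem (F.sub_mem (F.pow_mem hs 2) hx1) hx2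
  refine ⟨hX, ?_⟩
  rw [addY, hneg, negAddY]
  exact F.neg_mem (F.add_mem (F.mul_mem hs (F.sub_mem hX hx1)) hy1)

omit [DecidableEq L] in
theorem Rat.neg {F : Subfield L} {A B : L} {P : (crv A B).Point}
    (hP : Rat F P) : Rat F (-P) := by
  rcases P with _ | ⟨x1, y1, hn1⟩
  · change Rat F (-(0 : (crv A B).Point))
    rw [Point.neg_zero]
    trivial
  · rw [Point.neg_some]
    refine ⟨hP.1, ?_⟩
    rw [negY, crv_a1, crv_a3, zero_mul, sub_zero, sub_zero]
    exact F.neg_mem hP.2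

theorem Rat.closure {F : Subfield L} {A B : L} (hA : A ∈ F) {s : Set (crv A B).Point}
    (hs : ∀ P ∈ s, Rat F P) : ∀ P ∈ AddSubgroup.closure s, Rat F P := by
  intro P hP
  induction hP using AddSubgroup.closure_induction with
  | mem x hx => exact hs x hx
  | zero => trivial
  | add x y _ _ hx hy => exact hx.add hA hy
  | neg x _ hx => exact hx.neg

end rat

/-- An integral relation vanishing at the given few places. -/
theorem exists_rel {n : ℕ} (M : Submodule ℤ (Fin n → ℤ)) (F : Finset (Fin n))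
    (h : F.card < Module.finrank ℤ M) : ∃ a ∈ M, a ≠ 0 ∧ ∀ i ∈ F, a i = 0 := by
  classical
  let φ : M →ₗ[ℤ] (F → ℤ) := (LinearMap.funLeft ℤ ℤ (Subtype.val : F → Fin n)).comp M.subtype
  by_contra hcon
  push Not at hcon
  have hinj : Function.Injective φ := by
    rw [← LinearMap.ker_eq_bot, LinearMap.ker_eq_bot']
    intro a ha
    by_contra ha0
    obtain ⟨i, hi, hai⟩ := hcon a a.2 (fun h0 => ha0 (Subtype.ext h0))
    exact hai (congrFun ha ⟨i, hi⟩)
  have h1 := LinearMap.finrank_le_finrank_of_injective hinj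
  rw [Module.finrank_fintype_fun_eq_card, Fintype.card_coe] at h1
  omega

end Pool.Agent.W466.EP
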