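import Pool.Agent.W466.EF

/-!
Relations between coordinates at one place (helper file for Zilber-Pink for products of powers of
an elliptic curve and of the multiplicative group).
-/

namespace Pool.Agent.W466.EP

open WeierstrassCurve WeierstrassCurve.Affine

/-- the coordinate `x`, with value `0` at the origin -/
def xx {L : Type*} [Field L] {A B : L} : (crv A B).Point → L
  | .zero => 0
  | .some x _ _ => x

section ell

variable {L : Type*} [Field L] [DecidableEq L] {Γ₀ : Type*} [LinearOrderedCommGroupWithZero Γ₀]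
  {v : Valuation L Γ₀}

/-- There is no relation between the points of `J` at this place. -/
theorem ell_place {A B : L} (h2 : (2 : L) ≠ 0) (hA : v A ≤ 1) (hB : v B ≤ 1) {p : ℕ}
    (hpp : p.Prime) (hp : v (p : L) < 1) {ρ : Γ₀} {R : ℕ} (hR : v (p : L) = ρ ^ R) (hR0 : 0 < R)
    (hρ0 : 0 < ρ)
    {n : ℕ} (P : Fin n → (crv A B).Point) (J : Finset (Fin n)) (f : Fin n → ℕ)
    (hf : ∀ i ∈ J, v (xx (P i)) * ρ ^ f i = 1) (hfR : ∀ i ∈ J, R < 2 * f i)
    (hdis : ∀ i ∈ J, ∀ j ∈ J, i ≠ j → ¬ f i ≡ f j [MOD 2 * R])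
    (F : Subfield L) {M : ℕ} (hF : ∀ z ∈ F, z ≠ 0 → ∃ h : ℕ, 0 < h ∧ h ≤ M ∧ ∃ i : ℤ,
      v z ^ h = v (p : L) ^ i)
    (hfM : ∀ i ∈ J, ∀ h : ℕ, 0 < h → h ≤ M → ¬ 2 * R ∣ h * f i)
    (a : Fin n → ℤ) (ha0 : a ≠ 0) (haJ : ∀ i, i ∉ J → a i = 0) {t : ℕ} (ht : 0 < t)
    (hrel : Rat F (t • ∑ i, a i • P i)) : False := by
  classical
  have hρ1 : ρ < 1 := by
    by_contra hcon
    push Not at hcon
    have h1 := one_le_pow₀ hcon (n := R)
    rw [← hR] at h1
    exact absurd hp (not_lt.2 h1)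
  have hp0 : 0 < v (p : L) := by
    rw [hR]
    exact pow_pos hρ0 R
  have hpow : ∀ {m n : ℕ}, ρ ^ m = ρ ^ n → m = n := fun {m n} h =>
    pow_right_injective₀ hρ0 hρ1.ne h
  -- the points of `J`
  have hpt : ∀ i ∈ J, P i ≠ 0 ∧ Fm v (P i) ∧ v (tt (P i)) ^ 2 = ρ ^ f i := by
    intro i hi
    have h1 := hf i hi
    have h3 : 0 < f i := by
      have := hfR i hi
      omega
    have h4 : ρ ^ f i < 1 := pow_lt_one₀ zero_le hρ1 h3.ne'
    generalize hPi : P i = Q at h1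
    rcases Q with _ | ⟨x, y, hn⟩
    · exfalso
      change v (0 : L) * _ = 1 at h1
      rw [map_zero, zero_mul] at h1
      exact zero_ne_one h1
    · change v x * _ = 1 at h1
      have hx : 1 < v x := by
        by_contra hcon
        push Not at hcon
        have h5 : v x * ρ ^ f i < 1 := (mul_le_of_le_one_left' hcon).trans_lt h4
        rw [h1] at h5
        exact lt_irrefl _ h5
      refine ⟨Point.some_ne_zero hn, hx, ?_⟩
      have h5 := (loc hA hB (eqn hn) hx).2.2.2.1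
      change v (x / y) ^ 2 = _
      have h6 : v x ≠ 0 := (zero_lt_one.trans hx).ne'
      refine mul_right_cancel₀ h6 ?_
      rw [h5, mul_comm]
      exact h1.symm
  have h4 : ∀ i ∈ J, v (tt (P i)) ^ 4 < v (p : L) := by
    intro i hi
    have h5 : v (tt (P i)) ^ 4 = (v (tt (P i)) ^ 2) ^ 2 := by rw [← pow_mul]
    rw [h5, (hpt i hi).2.2, ← pow_mul, hR]
    refine pow_lt_pow_right_of_lt_one₀ hρ0 hρ1 ?_
    have := hfR i hi
    omega
  -- the terms of the relation
  let J' : Finset (Fin n) := Finset.univ.filter fun i => a i ≠ 0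
  have hJ' : ∀ i ∈ J', i ∈ J ∧ a i ≠ 0 := by
    intro i hi
    have h5 := (Finset.mem_filter.1 hi).2
    exact ⟨by_contra fun h => h5 (haJ i h), h5⟩
  have hJne : J'.Nonempty := by
    by_contra hcon
    rw [Finset.not_nonempty_iff_eq_empty] at hcon
    apply ha0
    funext i
    by_contra hi
    have : i ∈ J' := Finset.mem_filter.2 ⟨Finset.mem_univ i, hi⟩
    rw [hcon] at this
    exact absurd this (Finset.notMem_empty i)
  have hta : ∀ i ∈ J', (t : ℤ) * a i ≠ 0 := fun i hi =>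
    mul_ne_zero (by exact_mod_cast ht.ne') (hJ' i hi).2
  have hval : ∀ i ∈ J', Fm v (((t : ℤ) * a i) • P i) ∧
      v (tt (((t : ℤ) * a i) • P i)) ^ 2 =
        ρ ^ (2 * R * ((t : ℤ) * a i).natAbs.factorization p + f i) := by
    intro i hi
    obtain ⟨h5, h6, h7⟩ := hpt i (hJ' i hi).1
    have h8 := zsmul_val hA hB h2 hpp hp0 hp h6 h5 (h4 i (hJ' i hi).1) (hta i hi)
    refine ⟨h8.1, ?_⟩
    rw [h8.2, mul_pow, h7, v_int_pow hpp hp (hta i hi), hR, ← pow_mul, ← pow_mul, ← pow_add]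
    congr 1
    ring
  have hne : ∀ i ∈ J', ∀ j ∈ J', i ≠ j →
      v (tt (((t : ℤ) * a i) • P i)) ≠ v (tt (((t : ℤ) * a j) • P j)) := by
    intro i hi j hj hij h
    have h5 := (hval i hi).2
    rw [h, (hval j hj).2] at h5
    have h6 := hpow h5
    apply hdis j (hJ' j hj).1 i (hJ' i hi).1 hij.symm
    have h7 : (2 * R * ((t : ℤ) * a j).natAbs.factorization p + f j) ≡
        (2 * R * ((t : ℤ) * a i).natAbs.factorization p + f i) [MOD 2 * R] := by rw [h6]
    have h8 : ∀ x y : ℕ, 2 * R * x + y ≡ y [MOD 2 * R] := fun x y => by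
      have := (Nat.modEq_zero_iff_dvd.2 (Dvd.intro x rfl : 2 * R ∣ 2 * R * x)).add_right y
      rwa [zero_add] at this
    exact (h8 _ _).symm.trans (h7.trans (h8 _ _))
  obtain ⟨hFm, i, hi, hvi, -⟩ := sum_val hA hB h2 J' (fun i => ((t : ℤ) * a i) • P i)
    (fun i hi => (hval i hi).1) hne hJne
  have hsum : t • ∑ i, a i • P i = ∑ i ∈ J', ((t : ℤ) * a i) • P i := by
    rw [Finset.smul_sum, Finset.sum_filter]
    refine Finset.sum_congr rfl fun i _ => ?_
    split_ifs with h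
    · rw [mul_smul, natCast_zsmul]
    · push Not at h
      rw [h, zero_smul, smul_zero]
  rw [hsum] at hrel
  have hv2 : v (tt (∑ i ∈ J', ((t : ℤ) * a i) • P i)) ^ 2 =
      ρ ^ (2 * R * ((t : ℤ) * a i).natAbs.factorization p + f i) := by
    rw [hvi, (hval i hi).2]
  generalize (∑ i ∈ J', ((t : ℤ) * a i) • P i) = Q at hrel hv2
  rcases Q with _ | ⟨x, y, hn⟩
  · change v (0 : L) ^ 2 = _ at hv2
    rw [map_zero, zero_pow two_ne_zero] at hv2
    exact (pow_pos hρ0 _).ne hv2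
  · change v (x / y) ^ 2 = _ at hv2
    have hxy0 : x / y ≠ 0 := by
      intro h0
      rw [h0, map_zero, zero_pow two_ne_zero] at hv2
      exact (pow_pos hρ0 _).ne hv2
    obtain ⟨h, hh0, hhM, r, hr⟩ := hF (x / y) (F.div_mem hrel.1 hrel.2) hxy0
    refine hfM i (hJ' i hi).1 h hh0 hhM ?_
    have h5 : (v (x / y) ^ 2) ^ h = (v (p : L) ^ r) ^ 2 := by
      rw [← hr, ← pow_mul, ← pow_mul, mul_comm]
    rw [hv2, hR, ← pow_mul, ← zpow_natCast, ← zpow_natCast, ← zpow_natCast, ← zpow_mul,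
      ← zpow_mul] at h5
    have h6 := zpow_right_injective₀ hρ0 hρ1.ne h5
    rw [← Int.natCast_dvd_natCast]
    refine ⟨r - h * ((t : ℤ) * a i).natAbs.factorization p, ?_⟩
    push_cast at h6 ⊢
    linear_combination h6

end ell

/-- Multiplicative relations at one place. -/
theorem tor_place {L : Type*} [Field L] {Γ₀ : Type*} [LinearOrderedCommGroupWithZero Γ₀]
    {v : Valuation L Γ₀} {ρ : Γ₀} {R : ℕ}
    (hρ0 : 0 < ρ) (hρ1 : ρ < 1) {q : ℕ} (u : Fin q → L) (J : Finset (Fin q)) (e δ : Fin q → ℕ)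
    (hδ : ∀ j, δ j ≤ 1) (hu : ∀ j ∈ J, v (u j) * ρ ^ (R * e j) = ρ ^ δ j)
    (b : Fin q → ℤ) (hbJ : ∀ j, j ∉ J → b j = 0) (hb : ∑ j, (b j).natAbs < R)
    (hrel : v (∏ j, u j ^ b j) = 1) : ∑ j, b j * (e j : ℤ) = 0 := by
  classical
  have h1 : ∀ j, v (u j ^ b j) = ρ ^ (b j * ((δ j : ℤ) - R * e j)) := by
    intro j
    by_cases hj : j ∈ J
    · have h2 := hu j hj
      have h3 : v (u j) = ρ ^ ((δ j : ℤ) - R * e j) := by
        rw [zpow_sub₀ hρ0.ne', zpow_natCast, eq_div_iff (by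
          have : ((R : ℤ) * e j) = ((R * e j : ℕ) : ℤ) := by push_cast; rfl
          rw [this, zpow_natCast]
          exact pow_ne_zero _ hρ0.ne')]
        have : ((R : ℤ) * e j) = ((R * e j : ℕ) : ℤ) := by push_cast; rfl
        rw [this, zpow_natCast]
        exact h2
      rw [map_zpow₀, h3, ← zpow_mul, mul_comm]
    · rw [hbJ j hj, zpow_zero, map_one, zero_mul, zpow_zero]
  rw [map_prod] at hrel
  have h2 : ∏ j, v (u j ^ b j) = ρ ^ (∑ j, b j * ((δ j : ℤ) - R * e j)) := by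
    have h3 : ∀ s : Finset (Fin q), ∏ j ∈ s, v (u j ^ b j) =
        ρ ^ (∑ j ∈ s, b j * ((δ j : ℤ) - R * e j)) := by
      intro s
      induction s using Finset.induction_on with
      | empty => rw [Finset.prod_empty, Finset.sum_empty, zpow_zero]
      | insert j s hj ih =>
        rw [Finset.prod_insert hj, Finset.sum_insert hj, ih, h1, zpow_add₀ hρ0.ne']
    exact h3 Finset.univ
  rw [h2] at hrel
  have h3 : ρ ^ (∑ j, b j * ((δ j : ℤ) - R * e j)) = ρ ^ (0 : ℤ) := by rw [hrel, zpow_zero]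
  have h4 := zpow_right_injective₀ hρ0 hρ1.ne h3
  have h5 : ∑ j, b j * (δ j : ℤ) = R * ∑ j, b j * (e j : ℤ) := by
    rw [Finset.mul_sum, ← sub_eq_zero, ← Finset.sum_sub_distrib, ← h4]
    refine Finset.sum_congr rfl fun j _ => ?_
    ring
  have h6 : |∑ j, b j * (δ j : ℤ)| < R := by
    refine (Finset.abs_sum_le_sum_abs _ _).trans_lt ?_
    have h7 : ∑ j, |b j * (δ j : ℤ)| ≤ ∑ j, ((b j).natAbs : ℤ) := by
      refine Finset.sum_le_sum fun j _ => ?_
      rw [abs_mul, Int.natCast_natAbs, Nat.abs_cast]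
      have h8 : (δ j : ℤ) ≤ 1 := by exact_mod_cast hδ j
      exact mul_le_of_le_one_right (abs_nonneg _) h8
    refine h7.trans_lt ?_
    exact_mod_cast hb
  refine Int.eq_zero_of_abs_lt_dvd (m := R) (x := ∑ j, b j * (δ j : ℤ)) ⟨_, h5⟩ h6 |> fun h7 => ?_
  rw [h7] at h5
  have hR : (R : ℤ) ≠ 0 := by
    have : 0 < R := lt_of_le_of_lt (Nat.zero_le _) hb
    exact_mod_cast this.ne'
  rcases mul_eq_zero.1 h5.symm with h8 | h8
  · exact absurd h8 hR
  · exact h8

end Pool.Agent.W466.EP
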