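import Pool.Agent.W466.EH

/-!
Zilber-Pink without atypical intersections for subvarieties of `E^n × G_m^q` with spread out
scalings: the case of an algebraically closed field of constants (helper file).
-/

open MvPolynomial

namespace Pool.Agent.W466.EP

open Pool.Agent.W466.ZC WeierstrassCurve WeierstrassCurve.Affine

/-- the coordinates `x (P i)` and `u j` -/
noncomputable def co {r q : ℕ} {n : Fin r → ℕ} {A B : Fin r → ℂ}
    (P : ∀ g, Fin (n g) → (crv (A g) (B g)).Point) (u : Fin q → ℂ) :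
    ((g : Fin r) × Fin (n g)) ⊕ Fin q → ℂ :=
  Sum.elim (fun i => xx (P i.1 i.2)) u

theorem mainE {k : Type} [Field k] [Algebra k ℂ] [IsAlgClosed k] [CharZero k] {κ : Type*}
    {N r q m : ℕ} {n : Fin r → ℕ} (G : κ → MvPolynomial (Fin (N + 1)) k)
    (hG : ∀ i, ∃ e, (G i).IsHomogeneous e)
    (a b : ((g : Fin r) × Fin (n g)) ⊕ Fin q → MvPolynomial (Fin (N + 1)) k)
    (dg : ((g : Fin r) × Fin (n g)) ⊕ Fin q → ℕ) (ha : ∀ i, (a i).IsHomogeneous (dg i))
    (hb : ∀ i, (b i).IsHomogeneous (dg i))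
    (hdis : ∀ I : Finset (((g : Fin r) × Fin (n g)) ⊕ Fin q), I.card = m + 1 →
      ∀ y : Fin (N + 1) → ℂ,
      (∀ i, aeval y (G i) = 0) → (∀ i ∈ I, aeval y (a i) * aeval y (b i) = 0) → y = 0)
    {ι : Type*} [Finite ι] (Γ : ι → k) (A B : Fin r → k) (hA : ∀ g, A g ∈ Set.range Γ)
    (hB : ∀ g, B g ∈ Set.range Γ) :
    ∃ M D : ℕ, ∀ b₀ : ℕ, b₀.Prime → M < b₀ → ∀ (Nn : (g : Fin r) × Fin (n g) → ℕ)
      (d : Fin q → ℕ), SpreadE q D b₀ Nn d →
      ∀ c : (g : Fin r) × Fin (n g) → ℂ, (∀ i, c i ^ b₀ = (Nn i : ℂ)) →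
      ∀ (P : ∀ g, Fin (n g) → (crv (algebraMap k ℂ (A g)) (algebraMap k ℂ (B g))).Point)
        (u : Fin q → ℂ),
      ∀ y : Fin (N + 1) → ℂ, y ≠ 0 → (∀ i, aeval y (G i) = 0) →
      (∀ i, (P i.1 i.2 = 0 ∧ aeval y (b (Sum.inl i)) = 0) ∨
        c i * aeval y (b (Sum.inl i)) * xx (P i.1 i.2) = aeval y (a (Sum.inl i))) →
      (∀ j, (d j : ℂ) * aeval y (b (Sum.inr j)) * u j = aeval y (a (Sum.inr j))) →
      ∀ (M₁ : ∀ g, Submodule ℤ (Fin (n g) → ℤ)) (M₂ : Submodule ℤ (Fin q → ℤ)),
      (∀ g, ∀ r ∈ M₁ g, ∃ t : ℕ, 0 < t ∧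
        Rat ((Subfield.closure (Set.range Γ)).map (algebraMap k ℂ)) (t • ∑ i, r i • P g i)) →
      (∀ r ∈ M₂, ∀ V : ValuationSubring ℂ, (∀ i, algebraMap k ℂ (Γ i) ∈ V) →
        V.valuation (∏ j, u j ^ r j) = 1) →
      ∀ S : Finset (((g : Fin r) × Fin (n g)) ⊕ Fin q),
        AlgebraicIndependent k (fun s : S => co P u s) →
        S.card + ∑ g, Module.finrank ℤ (M₁ g) + Module.finrank ℤ M₂ ≤ m := by
  classical
  obtain ⟨M, D, hD⟩ := goodE G hG a b hdis Γ
  refine ⟨M, D, fun b₀ hb₀ hM Nn d hsp c hc P u y hy0 hyG hP hu M₁ M₂ hM₁ hM₂ S hS => ?_⟩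
  obtain ⟨hd0, p, hp, hpe, hpee, hpd⟩ := hsp
  by_contra hcon
  push Not at hcon
  -- fixed relations
  have hβ : ∀ J : Finset (Fin q), ∃ β : Fin q → ℤ, β ∈ M₂ ∧ (∀ j, j ∉ J → β j = 0) ∧
      ((∃ r ∈ M₂, r ≠ 0 ∧ ∀ j, j ∉ J → r j = 0) → β ≠ 0) := by
    intro J
    by_cases h : ∃ r ∈ M₂, r ≠ 0 ∧ ∀ j, j ∉ J → r j = 0
    · obtain ⟨r, h1, h2, h3⟩ := h
      exact ⟨r, h1, h3, fun _ => h2⟩
    · exact ⟨0, M₂.zero_mem, fun _ _ => rfl, fun h1 => absurd h1 h⟩
  choose β hβM hβJ hβ0 using hβ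
  let W : ℕ := 2 * (M + 1) + ∑ J : Finset (Fin q), ∑ j, (β J j).natAbs
  have hW : 2 * (M + 1) ≤ W := Nat.le_add_right _ _
  have hWβ : ∀ J : Finset (Fin q), ∑ j, (β J j).natAbs < b₀ * W := by
    intro J
    have h1 : ∑ j, (β J j).natAbs ≤ ∑ J : Finset (Fin q), ∑ j, (β J j).natAbs :=
      Finset.single_le_sum (f := fun J => ∑ j, (β J j).natAbs) (fun _ _ => Nat.zero_le _)
        (Finset.mem_univ J)
    have h2 : ∑ j, (β J j).natAbs < W := by
      change _ < 2 * (M + 1) + ∑ J : Finset (Fin q), ∑ j, (β J j).natAbs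
      omega
    exact h2.trans_le (Nat.le_mul_of_pos_left W hb₀.pos)
  have hW0 : 0 < W := by omega
  have hR0 : 0 < b₀ * W := Nat.mul_pos hb₀.pos hW0
  -- the scaling constants
  let sc : ((g : Fin r) × Fin (n g)) ⊕ Fin q → ℂ := Sum.elim c (fun j => (d j : ℂ))
  have hNn0 : ∀ i, Nn i ≠ 0 := by
    intro i h0
    have h1 := (hpe ⟨0, Nat.succ_pos _⟩ i).1
    rw [h0] at h1
    simp only [Nat.factorization_zero, Finsupp.coe_zero, Pi.zero_apply] at h1
    have := hb₀.pos
    omega
  have hsc : ∀ s, sc s ≠ 0 ∧ ∃ w : k, algebraMap k ℂ w = sc s := by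
    intro s
    rcases s with i | j
    · refine ⟨?_, ?_⟩
      · intro h0
        have h1 := hc i
        change c i = 0 at h0
        rw [h0, zero_pow hb₀.ne_zero] at h1
        exact hNn0 i (by exact_mod_cast h1.symm)
      · refine exists_alg (Nn i : k) hb₀.pos ?_
        rw [map_natCast]
        exact hc i
    · refine ⟨?_, (d j : k), ?_⟩
      · change ((d j : ℕ) : ℂ) ≠ 0
        exact_mod_cast hd0 j
      · rw [map_natCast]
        rfl
  choose hsc0 w hw using hsc
  -- one place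
  have hone : ∀ l, ∃ J : Finset (Fin q), β J ≠ 0 ∧
      ∑ j, β J j * ((d j).factorization (p l) : ℤ) = 0 := by
    intro l
    obtain ⟨hpp, hpD⟩ := hp l
    obtain ⟨π, hπ⟩ := IsAlgClosed.exists_pow_nat_eq ((p l : ℕ) : ℂ) hR0
    obtain ⟨π', hπ'⟩ := exists_alg (k := k) ((p l : ℕ) : k) hR0 (by rw [map_natCast]; exact hπ)
    have hp0C : ((p l : ℕ) : ℂ) ≠ 0 := by exact_mod_cast hpp.ne_zero
    have hπ0 : π ≠ 0 := by
      rintro rfl
      rw [zero_pow hR0.ne'] at hπ
      exact hp0C hπ.symm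
    have hw0 : ∀ s, w s ≠ 0 := by
      intro s h0
      have h1 := hw s
      rw [h0, map_zero] at h1
      exact hsc0 s h1.symm
    have hπ'0 : π' ≠ 0 := by
      rintro rfl
      rw [map_zero] at hπ'
      exact hπ0 hπ'.symm
    have hind := algInd_smul hS (fun s : S => w s / π') (fun s => div_ne_zero (hw0 s) hπ'0)
    obtain ⟨V, hV, hVΓ, hVx, hram, hVy⟩ := hD (p l) hpp hpD S _ hind
    set v := V.valuation with hv
    have hp1 : v ((p l : ℕ) : ℂ) < 1 := by rwa [ValuationSubring.mem_nonunits_iff] at hV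
    set ρ := v π with hρ
    have hR : v ((p l : ℕ) : ℂ) = ρ ^ (b₀ * W) := by rw [← hπ, map_pow]
    have hρ0 : 0 < ρ := zero_lt_iff.2 ((map_ne_zero v).2 hπ0)
    have hρ1 : ρ < 1 := by
      by_contra h
      push Not at h
      have h1 := one_le_pow₀ h (n := b₀ * W)
      rw [← hR] at h1
      exact absurd hp1 (not_lt.2 h1)
    -- valuations of the scaling constants
    have hvc : ∀ i, v (c i) = ρ ^ (W * (Nn i).factorization (p l)) := by
      intro i
      have h1 : v (c i) ^ b₀ = (ρ ^ (W * (Nn i).factorization (p l))) ^ b₀ := by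
        rw [← map_pow, hc, v_nat_pow hpp hp1 (hNn0 i), hR, ← pow_mul, ← pow_mul]
        congr 1
        ring
      exact (pow_left_inj₀ zero_le zero_le hb₀.ne_zero).1 h1
    have hvd : ∀ j, v ((d j : ℕ) : ℂ) = ρ ^ (b₀ * W * (d j).factorization (p l)) := by
      intro j
      rw [v_nat_pow hpp hp1 (hd0 j), hR, ← pow_mul]
    have hvS : ∀ s ∈ S, v (sc s * co P u s) = ρ := by
      intro s hs
      have h1 := hVx ⟨s, hs⟩
      have h2 : algebraMap k ℂ (w s / π') * co P u s = sc s * co P u s / π := by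
        rw [map_div₀, hw, hπ']
        ring
      change v (algebraMap k ℂ (w s / π') * co P u s) = 1 at h1
      rw [h2, map_div₀] at h1
      have h3 : v π ≠ 0 := hρ0.ne'
      rw [div_eq_one_iff_eq h3] at h1
      exact h1
    -- the good coordinates
    obtain ⟨c', hc', hab, hI⟩ := hVy y hy0 hyG
    let T : Finset (((g : Fin r) × Fin (n g)) ⊕ Fin q) := Finset.univ.filter fun s =>
      v (aeval (c' • y) (a s) * aeval (c' • y) (b s)) = 1
    have hTc : (Finset.univ.filter fun s : ((g : Fin r) × Fin (n g)) ⊕ Fin q =>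
      ¬ v (aeval (c' • y) (a s) * aeval (c' • y) (b s)) = 1).card ≤ m := by
      by_contra h
      push Not at h
      obtain ⟨I, hIE, hIc⟩ := Finset.exists_subset_card_eq (Nat.succ_le_of_lt h)
      obtain ⟨i, hi, h1⟩ := hI I hIc
      exact (Finset.mem_filter.1 (hIE hi)).2 h1
    have hvT : ∀ s ∈ T, v (sc s * co P u s) = 1 := by
      intro s hs
      have h1 := (Finset.mem_filter.1 hs).2
      have ha1 := (ValuationSubring.valuation_le_one_iff V _).2 (hab s).1
      have hb1 := (ValuationSubring.valuation_le_one_iff V _).2 (hab s).2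
      rw [← hv] at ha1 hb1
      rw [map_mul] at h1
      have ha2 : v (aeval (c' • y) (a s)) = 1 := by
        refine le_antisymm ha1 ?_
        by_contra hlt
        push Not at hlt
        have h2 : v (aeval (c' • y) (a s)) * v (aeval (c' • y) (b s)) < 1 :=
          (mul_le_of_le_one_right' hb1).trans_lt hlt
        rw [h1] at h2
        exact lt_irrefl _ h2
      have hb2 : v (aeval (c' • y) (b s)) = 1 := by rwa [ha2, one_mul] at h1
      have h3 : sc s * aeval (c' • y) (b s) * co P u s = aeval (c' • y) (a s) := by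
        rw [aeval_smul' (ha s), aeval_smul' (hb s)]
        have h4 : sc s * aeval y (b s) * co P u s = aeval y (a s) := by
          rcases s with i | j
          · rcases hP i with ⟨-, h5⟩ | h5
            · exfalso
              rw [aeval_smul' (hb (Sum.inl i)), h5, mul_zero, map_zero] at hb2
              exact zero_ne_one hb2
            · exact h5
          · exact hu j
        rw [← h4]
        ring
      have h4 := congrArg v h3
      rw [map_mul, map_mul, hb2, mul_one, ha2, ← map_mul] at h4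
      exact h4
    have hdisj : Disjoint T S := by
      rw [Finset.disjoint_left]
      intro s hT hS'
      have h1 := hvT s hT
      rw [hvS s hS'] at h1
      exact hρ1.ne h1
    -- the other coordinates
    let F : Finset (((g : Fin r) × Fin (n g)) ⊕ Fin q) := (T ∪ S)ᶜ
    have hFcard : F.card + S.card ≤ m := by
      have h1 : F.card + (T ∪ S).card = Fintype.card (((g : Fin r) × Fin (n g)) ⊕ Fin q) :=
        Finset.card_compl_add_card _
      rw [Finset.card_union_of_disjoint hdisj] at h1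
      have h2 := Finset.card_filter_add_card_filter_not
        (s := (Finset.univ : Finset (((g : Fin r) × Fin (n g)) ⊕ Fin q)))
        (fun s => v (aeval (c' • y) (a s) * aeval (c' • y) (b s)) = 1)
      rw [Finset.card_univ] at h2
      have h3 : T.card = (Finset.univ.filter fun s : ((g : Fin r) × Fin (n g)) ⊕ Fin q =>
        v (aeval (c' • y) (a s) * aeval (c' • y) (b s)) = 1).card := rfl
      omega
    have hF2 : F.toLeft.card + F.toRight.card = F.card := Finset.card_toLeft_add_card_toRight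
    have hnotF : ∀ s, s ∉ F → s ∈ T ∨ s ∈ S := by
      intro s hs
      rw [Finset.mem_compl, not_not, Finset.mem_union] at hs
      exact hs
    let δ : ((g : Fin r) × Fin (n g)) ⊕ Fin q → ℕ := fun s => if s ∈ S then 1 else 0
    have hδ1 : ∀ s, δ s ≤ 1 := by
      intro s
      change (if s ∈ S then 1 else 0) ≤ 1
      split_ifs <;> omega
    have hvF : ∀ s, s ∉ F → v (sc s * co P u s) = ρ ^ δ s := by
      intro s hs
      change _ = ρ ^ (if s ∈ S then 1 else 0)
      split_ifs with h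
      · rw [hvS s h, pow_one]
      · rw [hvT s ((hnotF s hs).resolve_right h), pow_zero]
    let Fg : ∀ g, Finset (Fin (n g)) := fun g => Finset.univ.filter fun i => Sum.inl ⟨g, i⟩ ∈ F
    have hFg : F.toLeft.card = ∑ g, (Fg g).card := by
      rw [← Finset.card_sigma]
      congr 1
      ext ⟨g, i⟩
      rw [Finset.mem_toLeft, Finset.mem_sigma]
      refine ⟨fun h => ⟨Finset.mem_univ _, Finset.mem_filter.2 ⟨Finset.mem_univ _, h⟩⟩,
        fun h => (Finset.mem_filter.1 h.2).2⟩
    by_cases hex : ∃ g, (Fg g).card < Module.finrank ℤ (M₁ g)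
    · -- a relation in the elliptic part
      exfalso
      obtain ⟨g, hlt⟩ := hex
      obtain ⟨r, hr, hr0, hrF⟩ := exists_rel (M₁ g) (Fg g) hlt
      obtain ⟨t, ht, hrat⟩ := hM₁ g r hr
      obtain ⟨h1, h2, h3, h4⟩ := exps hb₀ hM hW
        (fun i : Fin (n g) => (Nn ⟨g, i⟩).factorization (p l))
        (fun i => δ (Sum.inl ⟨g, i⟩)) (fun i => hδ1 _) (fun i => hpe l ⟨g, i⟩)
        (fun i j hij => hpee l ⟨g, i⟩ ⟨g, j⟩ (by
          intro h
          exact hij (eq_of_heq (Sigma.mk.inj h).2)))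
      obtain ⟨iA, hiA⟩ := hA g
      obtain ⟨iB, hiB⟩ := hB g
      refine ell_place (v := v) two_ne_zero ?_ ?_ hpp hp1 hR hR0 hρ0 (P g) (Fg g)ᶜ
        (fun i => W * (Nn ⟨g, i⟩).factorization (p l) - δ (Sum.inl ⟨g, i⟩)) ?_ (fun i _ => h2 i)
        (fun i _ j _ hij => h3 i j hij)
        ((Subfield.closure (Set.range Γ)).map (algebraMap k ℂ)) (M := M) ?_
        (fun i _ h => h4 i h) r hr0 ?_ ht hrat
      · rw [← hiA]
        exact (ValuationSubring.valuation_le_one_iff V _).2 (hVΓ iA)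
      · rw [← hiB]
        exact (ValuationSubring.valuation_le_one_iff V _).2 (hVΓ iB)
      · intro i hi
        have hi' : Sum.inl ⟨g, i⟩ ∉ F := by
          intro h
          exact (Finset.mem_compl.1 hi) (Finset.mem_filter.2 ⟨Finset.mem_univ _, h⟩)
        have h5 := hvF (Sum.inl ⟨g, i⟩) hi'
        change v (c ⟨g, i⟩ * xx (P g i)) = _ at h5
        rw [map_mul, hvc] at h5
        have h6 : W * (Nn ⟨g, i⟩).factorization (p l) =
            (W * (Nn ⟨g, i⟩).factorization (p l) - δ (Sum.inl ⟨g, i⟩)) + δ (Sum.inl ⟨g, i⟩) :=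
          (Nat.sub_add_cancel ((hδ1 _).trans (h1 i))).symm
        rw [h6, pow_add] at h5
        have h7 : ρ ^ δ (Sum.inl ⟨g, i⟩) ≠ 0 := pow_ne_zero _ hρ0.ne'
        refine mul_right_cancel₀ h7 ?_
        rw [one_mul, mul_assoc, mul_comm]
        exact h5
      · intro z hz hz0
        obtain ⟨z', hz', rfl⟩ := Subfield.mem_map.1 hz
        have hz'0 : z' ≠ 0 := by
          rintro rfl
          exact hz0 (map_zero _)
        exact hram z' hz' hz'0
      · intro i hi
        rw [Finset.mem_compl, not_not] at hi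
        exact hrF i hi
    · -- a relation in the multiplicative part
      push Not at hex
      have hle : ∑ g, Module.finrank ℤ (M₁ g) ≤ F.toLeft.card := by
        rw [hFg]
        exact Finset.sum_le_sum fun g _ => hex g
      have hlt2 : F.toRight.card < Module.finrank ℤ M₂ := by omega
      obtain ⟨r, hr, hr0, hrF⟩ := exists_rel M₂ F.toRight hlt2
      refine ⟨F.toRightᶜ, ?_, ?_⟩
      · refine hβ0 _ ⟨r, hr, hr0, fun j hj => ?_⟩
        rw [Finset.mem_compl, not_not] at hj
        exact hrF j hj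
      · refine tor_place (v := v) hρ0 hρ1 u F.toRightᶜ (fun j => (d j).factorization (p l))
          (fun j => δ (Sum.inr j)) (fun j => hδ1 _) ?_ (β F.toRightᶜ) (hβJ _) (hWβ _)
          (hM₂ _ (hβM _) V hVΓ)
        intro j hj
        rw [Finset.mem_compl, Finset.mem_toRight] at hj
        have h5 := hvF (Sum.inr j) hj
        change v ((d j : ℂ) * u j) = _ at h5
        rw [map_mul, hvd, mul_comm] at h5
        exact h5
  choose Jf hJf1 hJf2 using hone
  obtain ⟨J, -, hJ⟩ := Finset.exists_lt_card_fiber_of_mul_lt_card_of_maps_to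
    (s := (Finset.univ : Finset (Fin ((q - 1) * 2 ^ q + 1))))
    (t := (Finset.univ : Finset (Finset (Fin q)))) (f := Jf) (n := q - 1)
    (fun _ _ => Finset.mem_univ _) (by
      rw [Finset.card_univ, Finset.card_univ, Fintype.card_finset, Fintype.card_fin,
        Fintype.card_fin, mul_comm]
      omega)
  have hJq : q ≤ (Finset.univ.filter fun l => Jf l = J).card := by omega
  obtain ⟨I, hIJ, hIq⟩ := Finset.exists_subset_card_eq hJq
  have hne : (Finset.univ.filter fun l => Jf l = J).Nonempty := by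
    rw [← Finset.card_pos]
    omega
  obtain ⟨l, hl⟩ := hne
  have h1 := hJf1 l
  rw [(Finset.mem_filter.1 hl).2] at h1
  apply h1
  refine hpd I hIq (β J) fun l' hl' => ?_
  have h2 := hJf2 l'
  rwa [(Finset.mem_filter.1 (hIJ hl')).2] at h2

end Pool.Agent.W466.EP
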