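import Pool.Agent.W466.EK

/-!
Zilber-Pink without atypical intersections for subvarieties of `E^n × G_m^q` with spread out
scalings: any field of constants (helper file).
-/

open MvPolynomial

namespace Pool.Agent.W466.EP

open Pool.Agent.W466.ZC WeierstrassCurve WeierstrassCurve.Affine

theorem mainEK (K : Subfield ℂ) {κ : Type*}
    {N r q m : ℕ} {n : Fin r → ℕ} (G : κ → MvPolynomial (Fin (N + 1)) K)
    (hG : ∀ i, ∃ e, (G i).IsHomogeneous e)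
    (a b : ((g : Fin r) × Fin (n g)) ⊕ Fin q → MvPolynomial (Fin (N + 1)) K)
    (dg : ((g : Fin r) × Fin (n g)) ⊕ Fin q → ℕ) (ha : ∀ i, (a i).IsHomogeneous (dg i))
    (hb : ∀ i, (b i).IsHomogeneous (dg i))
    (hdis : ∀ I : Finset (((g : Fin r) × Fin (n g)) ⊕ Fin q), I.card = m + 1 →
      ∀ y : Fin (N + 1) → ℂ,
      (∀ i, aeval y (G i) = 0) → (∀ i ∈ I, aeval y (a i) * aeval y (b i) = 0) → y = 0)
    (Γ : Finset ℂ) (hΓ : ∀ γ ∈ Γ, γ ∈ K) (A B : Fin r → ℂ) (hA : ∀ g, A g ∈ Γ)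
    (hB : ∀ g, B g ∈ Γ) :
    ∃ M D : ℕ, ∀ b₀ : ℕ, b₀.Prime → M < b₀ → ∀ (Nn : (g : Fin r) × Fin (n g) → ℕ)
      (d : Fin q → ℕ), SpreadE q D b₀ Nn d →
      ∀ c : (g : Fin r) × Fin (n g) → ℂ, (∀ i, c i ^ b₀ = (Nn i : ℂ)) →
      ∀ (P : ∀ g, Fin (n g) → (crv (A g) (B g)).Point) (u : Fin q → ℂ),
      ∀ y : Fin (N + 1) → ℂ, y ≠ 0 → (∀ i, aeval y (G i) = 0) →
      (∀ i, (P i.1 i.2 = 0 ∧ aeval y (b (Sum.inl i)) = 0) ∨
        c i * aeval y (b (Sum.inl i)) * xx (P i.1 i.2) = aeval y (a (Sum.inl i))) →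
      (∀ j, (d j : ℂ) * aeval y (b (Sum.inr j)) * u j = aeval y (a (Sum.inr j))) →
      ∀ (M₁ : ∀ g, Submodule ℤ (Fin (n g) → ℤ)) (M₂ : Submodule ℤ (Fin q → ℤ)),
      (∀ g, ∀ r ∈ M₁ g, ∃ t : ℕ, 0 < t ∧
        Rat (Subfield.closure (Γ : Set ℂ)) (t • ∑ i, r i • P g i)) →
      (∀ r ∈ M₂, ∀ V : ValuationSubring ℂ, (∀ γ ∈ Γ, γ ∈ V) →
        V.valuation (∏ j, u j ^ r j) = 1) →
      ∀ S : Finset (((g : Fin r) × Fin (n g)) ⊕ Fin q),
        AlgebraicIndependent K (fun s : S => co P u s) →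
        S.card + ∑ g, Module.finrank ℤ (M₁ g) + Module.finrank ℤ M₂ ≤ m := by
  classical
  let k := algebraicClosure K ℂ
  have hcl : IsAlgClosure K k := inferInstance
  have hac : IsAlgClosed k := hcl.isAlgClosed
  have hmap : ∀ (y : Fin (N + 1) → ℂ) (P : MvPolynomial (Fin (N + 1)) K),
      aeval y (MvPolynomial.map (algebraMap K k) P) = aeval y P := fun y P =>
    MvPolynomial.aeval_map_algebraMap k y P
  let Γ' : Γ → k := fun γ => algebraMap K k ⟨γ, hΓ γ γ.2⟩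
  have hΓ' : ∀ γ : Γ, algebraMap k ℂ (Γ' γ) = γ := fun γ => rfl
  have hcl' : (Subfield.closure (Set.range Γ')).map (algebraMap k ℂ) =
      Subfield.closure (Γ : Set ℂ) := by
    rw [RingHom.map_field_closure]
    congr 1
    ext z
    constructor
    · rintro ⟨_, ⟨g, rfl⟩, rfl⟩
      exact g.2
    · intro hz
      exact ⟨_, ⟨⟨z, hz⟩, rfl⟩, rfl⟩
  obtain ⟨M, D, hD⟩ := mainE (k := k) (m := m)
    (fun i => MvPolynomial.map (algebraMap K k) (G i))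
    (fun i => by
      obtain ⟨e, he⟩ := hG i
      exact ⟨e, he.map _⟩)
    (fun i => MvPolynomial.map (algebraMap K k) (a i))
    (fun i => MvPolynomial.map (algebraMap K k) (b i)) dg (fun i => (ha i).map _)
    (fun i => (hb i).map _)
    (fun I hI y h1 h2 => hdis I hI y (fun i => by rw [← hmap]; exact h1 i)
      (fun i hi => by rw [← hmap, ← hmap y (b i)]; exact h2 i hi)) Γ' (fun g => Γ' ⟨A g, hA g⟩) (fun g => Γ' ⟨B g, hB g⟩)
      (fun _ => ⟨_, rfl⟩) (fun _ => ⟨_, rfl⟩)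
  refine ⟨M, D, fun b₀ hb₀ hM Nn d hsp c hc P u y hy0 hyG hP hu M₁ M₂ hM₁ hM₂ S hS => ?_⟩
  refine hD b₀ hb₀ hM Nn d hsp c hc P u y hy0 (fun i => (hmap y _).trans (hyG i)) ?_ ?_ M₁ M₂
    ?_ ?_ S (hS.extendScalars k)
  · intro i
    rw [hmap, hmap]
    exact hP i
  · intro j
    rw [hmap, hmap]
    exact hu j
  · rw [hcl']
    exact hM₁
  · intro r hr V hV
    refine hM₂ r hr V fun γ hγ => ?_
    exact hV ⟨γ, hγ⟩

end Pool.Agent.W466.EP
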