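import Mathlib

/-!
Least Hilbert function of r points of multiplicity m (helper file).
-/

open MvPolynomial Module

namespace Pool.Agent.W466.HF

variable {K : Type*} [Field K]

/-- the homogeneous ideal generated by all forms vanishing at the vector `v` -/
noncomputable def vIdeal {k : ℕ} (v : Fin (k + 2) → K) : Ideal (MvPolynomial (Fin (k + 2)) K) :=
  Ideal.span {F | (∃ e, F.IsHomogeneous e) ∧ eval v F = 0}

/-- the monomials `x_0^a x_1^i x'^β` with `i + r |β| < r m` -/
def Good (k r m : ℕ) (s : Fin (k + 2) →₀ ℕ) : Prop :=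
  s 1 + r * (∑ j : Fin k, s j.succ.succ) < r * m

/-- the substitution -/
noncomputable def Th {k : ℕ} (b : K) (c : Fin k → K) :
    MvPolynomial (Fin (k + 2)) K →ₐ[K] Polynomial (MvPolynomial (Fin k) (Polynomial K)) :=
  aeval (Fin.cons 1 (Fin.cons (Polynomial.C (C Polynomial.X))
    (fun j => Polynomial.C (C (Polynomial.C (c j))) +
      Polynomial.C (C (Polynomial.X - Polynomial.C b) * X j) * Polynomial.X)))

theorem Th_zero {k : ℕ} (b : K) (c : Fin k → K) : Th b c (X 0) = 1 := by
  simp [Th]

theorem Th_one {k : ℕ} (b : K) (c : Fin k → K) :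
    Th b c (X 1) = Polynomial.C (C Polynomial.X) := by
  rw [Th, aeval_X, show (1 : Fin (k + 2)) = Fin.succ 0 from rfl, Fin.cons_succ, Fin.cons_zero]

theorem Th_succ {k : ℕ} (b : K) (c : Fin k → K) (j : Fin k) :
    Th b c (X j.succ.succ) = Polynomial.C (C (Polynomial.C (c j))) +
      Polynomial.C (C (Polynomial.X - Polynomial.C b) * X j) * Polynomial.X := by
  rw [Th, aeval_X, Fin.cons_succ, Fin.cons_succ]

/-- the element `u - b` -/
noncomputable def ub {k : ℕ} (b : K) : Polynomial (MvPolynomial (Fin k) (Polynomial K)) :=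
  Polynomial.C (C (Polynomial.X - Polynomial.C b))

/-- constants -/
noncomputable def cc {k : ℕ} : K →+* Polynomial (MvPolynomial (Fin k) (Polynomial K)) :=
  (Polynomial.C.comp C).comp Polynomial.C

theorem Th_C {k : ℕ} (b : K) (c : Fin k → K) (a : K) : Th b c (C a) = cc a := by
  rw [← MvPolynomial.algebraMap_eq, AlgHom.commutes]
  rfl

theorem Th_sub {k : ℕ} (b : K) (c : Fin k → K) (F : MvPolynomial (Fin (k + 2)) K) :
    ∃ x, Th b c F = ub b * x + cc (eval (Fin.cons 1 (Fin.cons b c) : Fin (k + 2) → K) F) := by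
  induction F using MvPolynomial.induction_on with
  | C a =>
    refine ⟨0, ?_⟩
    rw [eval_C, Th_C, mul_zero, zero_add]
  | add p q hp hq =>
    obtain ⟨x, hx⟩ := hp
    obtain ⟨y, hy⟩ := hq
    refine ⟨x + y, ?_⟩
    rw [map_add, map_add, map_add, hx, hy]
    ring
  | mul_X p i hp =>
    rw [map_mul, map_mul, eval_X, map_mul]
    have hi : ∃ y, Th b c (X i) = ub b * y + cc
        ((Fin.cons 1 (Fin.cons b c) : Fin (k + 2) → K) i) := by
      refine Fin.cases ?_ (fun i => ?_) i
      · refine ⟨0, ?_⟩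
        rw [Th_zero, Fin.cons_zero, map_one, mul_zero, zero_add]
      · refine Fin.cases ?_ (fun i => ?_) i
        · refine ⟨1, ?_⟩
          rw [Fin.cons_succ, Fin.cons_zero, show Fin.succ (0 : Fin (k + 1)) = 1 from rfl, Th_one,
            ub, cc]
          simp
        · refine ⟨Polynomial.C (X i) * Polynomial.X, ?_⟩
          rw [Fin.cons_succ, Fin.cons_succ, Th_succ, ub, cc, map_mul]
          simp only [RingHom.coe_comp, Function.comp_apply]
          ring
    obtain ⟨x, hx⟩ := hp
    obtain ⟨y, hy⟩ := hi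
    rw [hx, hy]
    refine ⟨x * (ub b * y) + x * cc
        ((Fin.cons 1 (Fin.cons b c) : Fin (k + 2) → K) i) + cc
      (eval (Fin.cons 1 (Fin.cons b c) : Fin (k + 2) → K) p) * y, ?_⟩
    ring

/-- homogeneous scaling -/
theorem eval_scale {σ : Type*} {F : MvPolynomial σ K} {e : ℕ} (hF : F.IsHomogeneous e)
    (a : K) (v : σ → K) : eval (a • v) F = a ^ e * eval v F := by
  rw [eval_eq, eval_eq, Finset.mul_sum]
  refine Finset.sum_congr rfl fun s hs => ?_
  have h1 : s.degree = e := by
    by_contra hne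
    exact (mem_support_iff.1 hs) (hF.coeff_eq_zero hne)
  have h2 : ∏ i ∈ s.support, (a • v) i ^ s i = a ^ e * ∏ i ∈ s.support, v i ^ s i := by
    rw [← h1, Finsupp.degree_apply, ← Finset.prod_pow_eq_pow_sum, ← Finset.prod_mul_distrib]
    refine Finset.prod_congr rfl fun i _ => ?_
    rw [Pi.smul_apply, smul_eq_mul, mul_pow]
  rw [h2]
  ring

/-- `Th` maps the ideal of the point into `(u - b)`. -/
theorem Th_vIdeal {k : ℕ} (v : Fin (k + 2) → K) (h0 : v 0 ≠ 0) (F : MvPolynomial (Fin (k + 2)) K)
    (m : ℕ) (hF : F ∈ vIdeal v ^ m) :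
    ub (v 1 / v 0) ^ m ∣ Th (v 1 / v 0) (fun j => v j.succ.succ / v 0) F := by
  have h1 : vIdeal v ≤ (Ideal.span {ub (v 1 / v 0)}).comap
      (Th (v 1 / v 0) (fun j => v j.succ.succ / v 0)) := by
    rw [vIdeal, Ideal.span_le]
    rintro G ⟨⟨e, he⟩, hG⟩
    rw [SetLike.mem_coe, Ideal.mem_comap, Ideal.mem_span_singleton]
    obtain ⟨x, hx⟩ := Th_sub (v 1 / v 0) (fun j => v j.succ.succ / v 0) G
    have h2 : (Fin.cons 1 (Fin.cons (v 1 / v 0) (fun j => v j.succ.succ / v 0)) :
        Fin (k + 2) → K) = (v 0)⁻¹ • v := by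
      funext i
      refine Fin.cases ?_ (fun i => ?_) i
      · simp [h0]
      · refine Fin.cases ?_ (fun i => ?_) i
        · rw [Fin.cons_succ, Fin.cons_zero, Pi.smul_apply, smul_eq_mul, div_eq_inv_mul]
          rfl
        · rw [Fin.cons_succ, Fin.cons_succ, Pi.smul_apply, smul_eq_mul, div_eq_inv_mul]
    rw [h2, eval_scale he, hG, mul_zero, map_zero, add_zero] at hx
    exact ⟨x, hx⟩
  have h3 : F ∈ ((Ideal.span {ub (v 1 / v 0)}).comap
      (Th (v 1 / v 0) (fun j => v j.succ.succ / v 0))) ^ m := Ideal.pow_right_mono h1 m hF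
  have h4 := Ideal.le_comap_pow (Th (v 1 / v 0) (fun j => v j.succ.succ / v 0)) m h3
  rw [Ideal.mem_comap, Ideal.span_singleton_pow, Ideal.mem_span_singleton] at h4
  exact h4

theorem coeff_prod_le {R ι : Type*} [CommRing R] (s : Finset ι) (f : ι → Polynomial R)
    (n : ι → ℕ) (h : ∀ i ∈ s, (f i).natDegree ≤ n i) :
    (∏ i ∈ s, f i).coeff (∑ i ∈ s, n i) = ∏ i ∈ s, (f i).coeff (n i) ∧
      (∏ i ∈ s, f i).natDegree ≤ ∑ i ∈ s, n i := by
  classical
  induction s using Finset.induction_on with
  | empty => simp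
  | insert a s ha ih =>
    obtain ⟨h1, h2⟩ := ih (fun i hi => h i (Finset.mem_insert_of_mem hi))
    have h3 := h a (Finset.mem_insert_self a s)
    rw [Finset.prod_insert ha, Finset.sum_insert ha, Finset.prod_insert ha,
      Polynomial.coeff_mul_add_eq_of_natDegree_le h3 h2, h1]
    exact ⟨rfl, Polynomial.natDegree_mul_le.trans (add_le_add h3 h2)⟩

/-- the tail of an exponent -/
noncomputable def tl {k : ℕ} (s : Fin (k + 2) →₀ ℕ) : Fin k →₀ ℕ :=
  Finsupp.equivFunOnFinite.symm (fun j => s j.succ.succ)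

theorem tl_apply {k : ℕ} (s : Fin (k + 2) →₀ ℕ) (j : Fin k) : tl s j = s j.succ.succ := rfl

theorem Th_monomial {k : ℕ} (b : K) (c : Fin k → K) (s : Fin (k + 2) →₀ ℕ) (a : K) :
    Th b c (monomial s a) = Polynomial.C (C (Polynomial.C a * Polynomial.X ^ (s 1))) *
      ∏ j : Fin k, (Polynomial.C (C (Polynomial.C (c j))) +
      Polynomial.C (C (Polynomial.X - Polynomial.C b) * X j) * Polynomial.X) ^ (tl s j) := by
  rw [monomial_eq, map_mul, Th_C, Finsupp.prod_fintype _ _ (fun i => pow_zero _), map_prod,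
    Fin.prod_univ_succ, Fin.prod_univ_succ, map_pow, Th_zero, one_pow, one_mul,
    show Fin.succ (0 : Fin (k + 1)) = 1 from rfl, map_pow, Th_one, ← mul_assoc]
  congr 1
  · rw [cc]
    simp
  · refine Finset.prod_congr rfl fun j _ => ?_
    rw [map_pow, Th_succ, tl_apply]

theorem coeff_Th_monomial {k : ℕ} (b : K) (c : Fin k → K) (s : Fin (k + 2) →₀ ℕ) (a : K) (M : ℕ)
    (hM : ∑ j, tl s j ≤ M) :
    (Th b c (monomial s a)).coeff M = if ∑ j, tl s j = M then
      monomial (tl s) ((Polynomial.X - Polynomial.C b) ^ M * (Polynomial.C a * Polynomial.X ^ (s 1)))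
      else 0 := by
  have h1 : ∀ j ∈ (Finset.univ : Finset (Fin k)),
      ((Polynomial.C (C (Polynomial.C (c j))) +
      Polynomial.C (C (Polynomial.X - Polynomial.C b) * X j) * Polynomial.X :
      Polynomial (MvPolynomial (Fin k) (Polynomial K))) ^ (tl s j)).natDegree ≤ tl s j := by
    intro j _
    refine Polynomial.natDegree_pow_le.trans ?_
    refine (Nat.mul_le_mul_left _ (?_ : _ ≤ 1)).trans (mul_one _).le
    refine (Polynomial.natDegree_add_le _ _).trans (max_le ?_ ?_)
    · rw [Polynomial.natDegree_C]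
      exact Nat.zero_le _
    · exact (Polynomial.natDegree_C_mul_le _ _).trans Polynomial.natDegree_X_le
  obtain ⟨h2, h3⟩ := coeff_prod_le Finset.univ _ _ h1
  rw [Th_monomial, Polynomial.coeff_C_mul]
  split_ifs with h
  · rw [← h, h2]
    have h4 : ∀ j : Fin k, ((Polynomial.C (C (Polynomial.C (c j))) +
      Polynomial.C (C (Polynomial.X - Polynomial.C b) * X j) * Polynomial.X :
      Polynomial (MvPolynomial (Fin k) (Polynomial K))) ^ (tl s j)).coeff (tl s j) =
        (C (Polynomial.X - Polynomial.C b) * X j) ^ (tl s j) := by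
      intro j
      have h5 := Polynomial.coeff_pow_of_natDegree_le (p := (Polynomial.C (C (Polynomial.C (c j))) +
        Polynomial.C (C (Polynomial.X - Polynomial.C b) * X j) * Polynomial.X :
        Polynomial (MvPolynomial (Fin k) (Polynomial K)))) (m := tl s j) (n := 1) (by
          refine (Polynomial.natDegree_add_le _ _).trans (max_le ?_ ?_)
          · rw [Polynomial.natDegree_C]
            exact Nat.zero_le _
          · exact (Polynomial.natDegree_C_mul_le _ _).trans Polynomial.natDegree_X_le)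
      rw [mul_one] at h5
      rw [h5]
      congr 1
      simp
    rw [Finset.prod_congr rfl fun j _ => h4 j]
    simp only [mul_pow]
    rw [Finset.prod_mul_distrib, Finset.prod_pow_eq_pow_sum, ← C_pow, ← mul_assoc, ← C_mul,
      monomial_eq, Finsupp.prod_fintype _ _ (fun i => pow_zero _), mul_comm (Polynomial.C a * _)]
  · rw [Polynomial.coeff_eq_zero_of_natDegree_lt (h3.trans_lt (lt_of_le_of_ne hM h)), mul_zero]

theorem key {k r m d : ℕ} {ι : Type*} [Fintype ι] (hr : Fintype.card ι = r)
    (v : ι → Fin (k + 2) → K) (h0 : ∀ i, v i 0 ≠ 0)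
    (hinj : Function.Injective fun i => v i 1 / v i 0)
    (F : MvPolynomial (Fin (k + 2)) K) (hd : F.IsHomogeneous d)
    (hG : ∀ s ∈ F.support, Good k r m s) (hF : ∀ i, F ∈ vIdeal (v i) ^ m) : F = 0 := by
  classical
  by_contra hne
  have hsupp : F.support.Nonempty := Finset.nonempty_iff_ne_empty.2 (by
    rw [Ne, MvPolynomial.support_eq_empty]
    exact hne)
  obtain ⟨s, hs, hmax⟩ := Finset.exists_max_image F.support (fun t => ∑ j, tl t j) hsupp
  set M := ∑ j, tl s j with hM
  have hMm : s 1 + r * M < r * m := hG s hs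
  have hrpos : 0 < r := by
    rcases Nat.eq_zero_or_pos r with h | h
    · rw [h, zero_mul, zero_mul] at hMm
      omega
    · exact h
  have hlt : M < m := by
    by_contra hge
    have := Nat.mul_le_mul_left r (not_lt.1 hge)
    omega
  set g : Polynomial K := ∑ t ∈ F.support with tl t = tl s,
    Polynomial.C (coeff t F) * Polynomial.X ^ (t 1) with hg
  have hcoef : ∀ i, ((Th (v i 1 / v i 0) (fun j => v i j.succ.succ / v i 0) F).coeff M).coeff (tl s)
      = (Polynomial.X - Polynomial.C (v i 1 / v i 0)) ^ M * g := by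
    intro i
    conv_lhs => rw [F.as_sum]
    rw [map_sum, Polynomial.finsetSum_coeff, coeff_sum, hg, Finset.sum_filter, Finset.mul_sum]
    refine Finset.sum_congr rfl fun t ht => ?_
    rw [coeff_Th_monomial _ _ _ _ _ (hmax t ht)]
    by_cases h1 : tl t = tl s
    · rw [if_pos h1, if_pos (by rw [h1]), coeff_monomial, if_pos h1]
    · rw [if_neg h1, mul_zero]
      split_ifs
      · rw [coeff_monomial, if_neg h1]
      · rw [coeff_zero]
  have hdvd : ∀ i, (Polynomial.X - Polynomial.C (v i 1 / v i 0)) ^ (m - M) ∣ g := by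
    intro i
    obtain ⟨Q, hQ⟩ := Th_vIdeal (v i) (h0 i) F m (hF i)
    have h1 := hcoef i
    rw [hQ, ub, ← Polynomial.C_pow, Polynomial.coeff_C_mul, ← C_pow, coeff_C_mul] at h1
    have h2 : m = M + (m - M) := by omega
    rw [h2, pow_add, mul_assoc] at h1
    have h3 := mul_left_cancel₀ (pow_ne_zero M (Polynomial.X_sub_C_ne_zero _)) h1
    exact ⟨_, h3.symm⟩
  have hprod : (∏ i : ι, (Polynomial.X - Polynomial.C (v i 1 / v i 0)) ^ (m - M)) ∣ g := by
    refine Finset.prod_dvd_of_coprime (fun i _ j _ hij => ?_) (fun i _ => hdvd i)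
    refine IsCoprime.pow ?_
    exact Polynomial.isCoprime_X_sub_C_of_isUnit_sub
      (isUnit_iff_ne_zero.2 (sub_ne_zero.2 (hinj.ne hij)))
  have hsum : ∀ t ∈ F.support, t 0 + (t 1 + ∑ j, tl t j) = d := by
    intro t ht
    have h1 : t.degree = d := by
      by_contra hne
      exact (mem_support_iff.1 ht) (hd.coeff_eq_zero hne)
    rw [Finsupp.degree_eq_sum, Fin.sum_univ_succ, Fin.sum_univ_succ] at h1
    exact h1
  have hgne : g ≠ 0 := by
    intro h
    have h1 : g.coeff (s 1) = coeff s F := by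
      rw [hg, Polynomial.finsetSum_coeff, Finset.sum_eq_single s]
      · rw [Polynomial.coeff_C_mul, Polynomial.coeff_X_pow, if_pos rfl, mul_one]
      · intro t ht hts
        rw [Finset.mem_filter] at ht
        rw [Polynomial.coeff_C_mul, Polynomial.coeff_X_pow, if_neg, mul_zero]
        intro h2
        apply hts
        have h3 := hsum t ht.1
        have h4 := hsum s hs
        rw [ht.2, ← h2] at h3
        ext i
        refine Fin.cases ?_ (fun i => ?_) i
        · omega
        · refine Fin.cases ?_ (fun i => ?_) i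
          · exact h2.symm
          · rw [← tl_apply, ← tl_apply, ht.2]
      · intro h2
        exact absurd (Finset.mem_filter.2 ⟨hs, rfl⟩ : s ∈ F.support.filter (fun t => tl t = tl s)) h2
    rw [h, Polynomial.coeff_zero] at h1
    exact (mem_support_iff.1 hs) h1.symm
  have hdeg : g.natDegree < r * (m - M) := by
    have h2 : 0 < r * (m - M) := Nat.mul_pos hrpos (by omega)
    refine (Polynomial.natDegree_lt_iff_degree_lt hgne).2 ?_
    rw [hg]
    refine (Polynomial.degree_sum_le _ _).trans_lt ?_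
    rw [Finset.sup_lt_iff (by exact_mod_cast WithBot.bot_lt_coe (r * (m - M)))]
    intro t ht
    rw [Finset.mem_filter] at ht
    refine (Polynomial.degree_C_mul_X_pow_le _ _).trans_lt ?_
    have h3 : t 1 + r * (∑ j, tl t j) < r * m := hG t ht.1
    rw [ht.2, ← hM] at h3
    have h4 : r * (m - M) = r * m - r * M := Nat.mul_sub r m M
    have h5 : t 1 < r * (m - M) := by omega
    exact_mod_cast h5
  have h1 := Polynomial.natDegree_le_of_dvd hprod hgne
  rw [Polynomial.natDegree_prod _ _ (fun i _ => pow_ne_zero _ (Polynomial.X_sub_C_ne_zero _))] at h1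
  simp only [Polynomial.natDegree_pow, Polynomial.natDegree_X_sub_C, mul_one, Finset.sum_const,
    Finset.card_univ, hr, smul_eq_mul] at h1
  omega

end Pool.Agent.W466.HF
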