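import Pool.Agent.W466.HF1

/-!
Least Hilbert function of r points of multiplicity m (helper file, part 2): linear changes of
coordinates.
-/

open MvPolynomial Module

namespace Pool.Agent.W466.HF

variable {K : Type*} [Field K] {k : ℕ}

/-- the algebra map given by a linear map of vectors -/
noncomputable def lf (e : (Fin (k + 2) → K) →ₗ[K] (Fin (k + 2) → K)) :
    MvPolynomial (Fin (k + 2)) K →ₐ[K] MvPolynomial (Fin (k + 2)) K :=
  aeval (fun i => ∑ j, C (e (Pi.single j 1) i) * X j)

theorem eval_lf (e : (Fin (k + 2) → K) →ₗ[K] (Fin (k + 2) → K)) (v : Fin (k + 2) → K)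
    (F : MvPolynomial (Fin (k + 2)) K) : eval v (lf e F) = eval (e v) F := by
  have h1 : ∀ i, e v i = ∑ j, e (Pi.single j 1) i * v j := by
    intro i
    have h2 : v = ∑ j, v j • (Pi.single j (1 : K) : Fin (k + 2) → K) := by
      rw [← pi_eq_sum_univ' v]
    conv_lhs => rw [h2, map_sum]
    rw [Finset.sum_apply]
    refine Finset.sum_congr rfl fun j _ => ?_
    rw [map_smul, Pi.smul_apply, smul_eq_mul, mul_comm]
  induction F using MvPolynomial.induction_on with
  | C a => simp [lf]
  | add p q hp hq => rw [map_add, map_add, map_add, hp, hq]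
  | mul_X p i hp =>
    rw [map_mul, map_mul, map_mul, hp, eval_X, h1]
    congr 1
    rw [lf, aeval_X, map_sum]
    refine Finset.sum_congr rfl fun j _ => ?_
    rw [map_mul, eval_C, eval_X]

theorem lf_hom (e : (Fin (k + 2) → K) →ₗ[K] (Fin (k + 2) → K)) (F : MvPolynomial (Fin (k + 2)) K)
    (d : ℕ) (hF : F.IsHomogeneous d) : (lf e F).IsHomogeneous d := by
  have := hF.aeval (fun i => ∑ j, C (e (Pi.single j 1) i) * X j) (n := 1) (by
    intro i
    refine IsHomogeneous.sum _ _ _ fun j _ => ?_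
    simpa using (isHomogeneous_C (Fin (k + 2)) (e (Pi.single j 1) i)).mul (isHomogeneous_X K j))
  rw [one_mul] at this
  exact this

theorem lf_symm [Infinite K] (e : (Fin (k + 2) → K) ≃ₗ[K] (Fin (k + 2) → K))
    (F : MvPolynomial (Fin (k + 2)) K) : lf e.symm.toLinearMap (lf e.toLinearMap F) = F := by
  apply MvPolynomial.funext
  intro v
  rw [eval_lf, eval_lf]
  simp

theorem lf_vIdeal [Infinite K] (e : (Fin (k + 2) → K) ≃ₗ[K] (Fin (k + 2) → K))
    (v : Fin (k + 2) → K) (m : ℕ) (F : MvPolynomial (Fin (k + 2)) K) (hF : F ∈ vIdeal v ^ m) :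
    lf e.symm.toLinearMap F ∈ vIdeal (e v) ^ m := by
  have h1 : vIdeal v ≤ (vIdeal (e v)).comap (lf e.symm.toLinearMap) := by
    conv_lhs => rw [vIdeal]
    rw [Ideal.span_le]
    rintro G ⟨⟨c, hc⟩, hG⟩
    rw [SetLike.mem_coe, Ideal.mem_comap]
    refine Ideal.subset_span ⟨⟨c, lf_hom _ _ _ hc⟩, ?_⟩
    rw [eval_lf]
    simpa using hG
  exact Ideal.le_comap_pow _ m (Ideal.pow_right_mono h1 m hF)

/-- coordinates in which the points are in good position -/
theorem exists_coord [Infinite K] {ι : Type*} [Finite ι] (v : ι → Fin (k + 2) → K)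
    (hv : ∀ i, v i ≠ 0) (hne : ∀ i j, i ≠ j → ∀ a b : K, a ≠ 0 → a • v i ≠ b • v j) :
    ∃ e : (Fin (k + 2) → K) ≃ₗ[K] (Fin (k + 2) → K), (∀ i, e (v i) 0 ≠ 0) ∧
      Function.Injective fun i => e (v i) 1 / e (v i) 0 := by
  classical
  obtain ⟨f, hf⟩ := exists_dual_forall_apply_ne_zero (K := K) (M := Fin (k + 2) → K)
    (fun i : Option ι => i.elim (Pi.single 0 1) v) (by
      rintro (_ | i)
      · simp
      · exact hv i)
  have hf0 : f (Pi.single 0 1) ≠ 0 := hf none
  have hfi : ∀ i, f (v i) ≠ 0 := fun i => hf (some i)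
  obtain ⟨g, hg⟩ := exists_dual_forall_apply_ne_zero (K := K) (M := Fin (k + 2) → K)
    (fun x : Option {p : ι × ι // p.1 ≠ p.2} => x.elim
      (f (Pi.single 0 1) • Pi.single 1 1 - f (Pi.single 1 1) • Pi.single 0 1)
      (fun p => f (v p.1.1) • v p.1.2 - f (v p.1.2) • v p.1.1)) (by
      rintro (_ | ⟨⟨i, j⟩, hij⟩)
      · intro h
        have := congrFun h 1
        simp at this
        exact hf0 this
      · intro h
        simp only [Option.elim_some] at h
        exact hne j i (Ne.symm hij) _ _ (hfi i) (sub_eq_zero.1 h))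
  have hg0 := hg none
  have hgi := fun (i j : ι) (hij : i ≠ j) => hg (some ⟨(i, j), hij⟩)
  simp only [Option.elim_none, Option.elim_some, map_sub, map_smul, smul_eq_mul] at hg0 hgi
  let E : (Fin (k + 2) → K) →ₗ[K] (Fin (k + 2) → K) :=
    LinearMap.pi (Fin.cons f (Fin.cons g (fun j => LinearMap.proj j.succ.succ)))
  have hE0 : ∀ x, E x 0 = f x := fun x => rfl
  have hE1 : ∀ x, E x 1 = g x := fun x => rfl
  have hEs : ∀ x (j : Fin k), E x j.succ.succ = x j.succ.succ := fun x j => rfl
  have hinj : Function.Injective E := by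
    rw [← LinearMap.ker_eq_bot, LinearMap.ker_eq_bot']
    intro x hx
    have h0 : f x = 0 := by rw [← hE0, hx]; rfl
    have h1 : g x = 0 := by rw [← hE1, hx]; rfl
    have hs : ∀ j : Fin k, x j.succ.succ = 0 := fun j => by rw [← hEs x j, hx]; rfl
    have hx2 : x = x 0 • (Pi.single 0 1 : Fin (k + 2) → K) + x 1 • Pi.single 1 1 := by
      funext i
      refine Fin.cases ?_ (fun i => ?_) i
      · simp
      · refine Fin.cases ?_ (fun i => ?_) i
        · simp
        · rw [hs]
          simp [Fin.succ_ne_zero, Pi.single_apply]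
          intro h
          exact absurd (Fin.succ_injective _ (h.trans (by rfl : (1 : Fin (k+2)) = Fin.succ 0)))
            (Fin.succ_ne_zero _)
    rw [hx2, map_add, map_smul, map_smul, smul_eq_mul, smul_eq_mul] at h0 h1
    have h2 : x 1 = 0 := by
      have h3 : x 1 * (f (Pi.single 0 1) * g (Pi.single 1 1) - f (Pi.single 1 1) *
        g (Pi.single 0 1)) = 0 := by
        linear_combination f (Pi.single 0 1) * h1 - g (Pi.single 0 1) * h0
      exact (mul_eq_zero.1 h3).resolve_right hg0
    rw [h2, zero_mul, add_zero] at h0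
    have h4 : x 0 = 0 := (mul_eq_zero.1 h0).resolve_right hf0
    rw [hx2, h2, h4]
    simp
  refine ⟨LinearEquiv.ofInjectiveEndo E hinj, ?_, ?_⟩
  · intro i
    exact hfi i
  · intro i j hij
    by_contra hne'
    have h1 : g (v i) / f (v i) = g (v j) / f (v j) := hij
    apply hgi i j hne'
    rw [div_eq_div_iff (hfi i) (hfi j)] at h1
    linear_combination -h1

end Pool.Agent.W466.HF
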