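import Pool.Agent.W466.HF2

/-!
Least Hilbert function of r points of multiplicity m (helper file, part 3): collinear points.
-/

open MvPolynomial Module

namespace Pool.Agent.W466.HF

variable {K : Type*} [Field K] {k : ℕ}

/-- the polynomials with support in the exponents with `t 1 < j` -/
def Low (k j : ℕ) (p : MvPolynomial (Fin (k + 2)) K) : Prop := ∀ t ∈ p.support, t 1 < j

theorem Low.mono {i j : ℕ} {p : MvPolynomial (Fin (k + 2)) K} (hp : Low k i p) (hij : i ≤ j) :
    Low k j p := fun t ht => (hp t ht).trans_le hij

theorem Low.add {j : ℕ} {p q : MvPolynomial (Fin (k + 2)) K} (hp : Low k j p) (hq : Low k j q) :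
    Low k j (p + q) := by
  classical
  intro t ht
  rcases Finset.mem_union.1 (support_add ht) with h | h
  · exact hp t h
  · exact hq t h

theorem Low.neg {j : ℕ} {p : MvPolynomial (Fin (k + 2)) K} (hp : Low k j p) : Low k j (-p) := by
  intro t ht
  rw [support_neg] at ht
  exact hp t ht

theorem Low.mul {a b c : ℕ} {p q : MvPolynomial (Fin (k + 2)) K} (hp : Low k (a + 1) p)
    (hq : Low k b q) (hc : a + b ≤ c) : Low k c (p * q) := by
  classical
  intro t ht
  obtain ⟨x, hx, y, hy, rfl⟩ := Finset.mem_add.1 (support_mul _ _ ht)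
  have h1 := hp x hx
  have h2 := hq y hy
  rw [Finsupp.add_apply]
  omega

theorem low_monomial (s : Fin (k + 2) →₀ ℕ) (a : K) : Low k (s 1 + 1) (monomial s a) := by
  intro t ht
  have := support_monomial_subset ht
  rw [Finset.mem_singleton] at this
  rw [this]
  omega

theorem low_X0 : Low k 1 (X 0 : MvPolynomial (Fin (k + 2)) K) := by
  have := low_monomial (k := k) (Finsupp.single 0 1) (1 : K)
  rw [Finsupp.single_apply, if_neg (by simp)] at this
  exact this

theorem low_X1pow (n : ℕ) : Low k (n + 1) (X 1 ^ n : MvPolynomial (Fin (k + 2)) K) := by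
  have := low_monomial (k := k) (Finsupp.single 1 n) (1 : K)
  rw [X_pow_eq_monomial]
  simpa using this

theorem low_C (a : K) : Low k 1 (C a : MvPolynomial (Fin (k + 2)) K) := by
  have := low_monomial (k := k) 0 a
  simpa using this

/-- products of the forms `x_1 - b x_0` are monic in `x_1` -/
theorem prod_monic {ι : Type*} (S : Finset ι) (b : ι → K) :
    ∃ D : MvPolynomial (Fin (k + 2)) K, Low k S.card D ∧
      ∏ i ∈ S, (X 1 - C (b i) * X 0) = X 1 ^ S.card + D := by
  classical
  induction S using Finset.induction_on with
  | empty => exact ⟨0, fun t ht => by simp at ht, by simp⟩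
  | insert a S ha ih =>
    obtain ⟨D, hD, h⟩ := ih
    refine ⟨X 1 ^ 1 * D + -(C (b a) * (X 0 * X 1 ^ S.card)) + -(C (b a) * (X 0 * D)), ?_, ?_⟩
    · rw [Finset.card_insert_of_notMem ha]
      refine Low.add (Low.add ?_ ?_) ?_
      · exact Low.mul (low_X1pow 1) hD (by omega)
      · refine Low.neg (Low.mul (low_C (b a)) (Low.mul low_X0 (low_X1pow S.card)
          (zero_add _).le) (by omega))
      · refine Low.neg (Low.mul (low_C (b a)) (Low.mul low_X0 hD (zero_add _).le) (by omega))
    · rw [Finset.prod_insert ha, h, Finset.card_insert_of_notMem ha]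
      ring

/-- the coordinate vectors of the collinear points -/
def cv (k : ℕ) (b : K) : Fin (k + 2) → K := Fin.cons 1 (Fin.cons b 0)

theorem X_mem (b : K) (j : Fin k) : (X j.succ.succ : MvPolynomial (Fin (k + 2)) K) ∈
    vIdeal (cv k b) := by
  refine Ideal.subset_span ⟨⟨1, isHomogeneous_X _ _⟩, ?_⟩
  rw [eval_X]
  rfl

theorem L_mem (b : K) : (X 1 - C b * X 0 : MvPolynomial (Fin (k + 2)) K) ∈ vIdeal (cv k b) := by
  refine Ideal.subset_span ⟨⟨1, ?_⟩, ?_⟩
  · refine (isHomogeneous_X _ _).sub ?_
    simpa using (isHomogeneous_C (Fin (k + 2)) b).mul (isHomogeneous_X K (0 : Fin (k + 2)))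
  · rw [map_sub, map_mul, eval_C, eval_X, eval_X]
    have h1 : cv k b 1 = b := rfl
    have h0 : cv k b 0 = 1 := rfl
    rw [h1, h0, mul_one, sub_self]

/-- the monomials of degree `d` that are good -/
def GoodSet (k r m d : ℕ) : Set (Fin (k + 2) →₀ ℕ) := {s | s.degree = d ∧ Good k r m s}

/-- their span -/
noncomputable def W (K : Type*) [Field K] (k r m d : ℕ) : Submodule K (MvPolynomial (Fin (k + 2)) K) :=
  Submodule.span K ((fun s => monomial s (1 : K)) '' GoodSet k r m d)

theorem mono_split (s : Fin (k + 2) →₀ ℕ) : (monomial s (1 : K)) =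
    X 0 ^ (s 0) * (X 1 ^ (s 1) * ∏ j : Fin k, X j.succ.succ ^ (s j.succ.succ)) := by
  rw [monomial_eq, C_1, one_mul, Finsupp.prod_fintype _ _ (fun i => pow_zero _), Fin.prod_univ_succ,
    Fin.prod_univ_succ]
  rfl

theorem tail_mem (b : K) (s : Fin (k + 2) →₀ ℕ) :
    (∏ j : Fin k, X j.succ.succ ^ (s j.succ.succ) : MvPolynomial (Fin (k + 2)) K) ∈
      vIdeal (cv k b) ^ (∑ j : Fin k, s j.succ.succ) := by
  rw [← Finset.prod_pow_eq_pow_sum]
  exact Ideal.prod_mem_prod fun j _ => Ideal.pow_mem_pow (X_mem b j) _

theorem reduce (B : Finset K) (m d : ℕ) (s : Fin (k + 2) →₀ ℕ) (hs : s.degree = d) :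
    (monomial s (1 : K)) ∈ W K k B.card m d ⊔
      (⨅ b ∈ B, vIdeal (cv k b) ^ m : Ideal (MvPolynomial (Fin (k + 2)) K)).restrictScalars K := by
  classical
  induction hn : s 1 using Nat.strong_induction_on generalizing s with
  | _ N ih =>
  by_cases hG : Good k B.card m s
  · exact Submodule.mem_sup_left (Submodule.subset_span ⟨s, ⟨hs, hG⟩, rfl⟩)
  · rw [Good, not_lt] at hG
    set κ := ∑ j : Fin k, s j.succ.succ with hκ
    rcases le_or_gt m κ with hm | hm
    · refine Submodule.mem_sup_right ?_
      rw [Submodule.restrictScalars_mem, Submodule.mem_iInf]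
      intro b
      rw [Submodule.mem_iInf]
      intro _
      rw [mono_split]
      exact Ideal.mul_mem_left _ _ (Ideal.mul_mem_left _ _
        (Ideal.pow_le_pow_right hm (tail_mem b s)))
    · set e := m - κ with he
      have h1 : B.card * e ≤ s 1 := by
        have h2 : B.card * e = B.card * m - B.card * κ := Nat.mul_sub _ _ _
        omega
      obtain ⟨D, hD, hprod⟩ := prod_monic (k := k) (B ×ˢ Finset.range e) (fun p => p.1)
      have hcard : (B ×ˢ Finset.range e).card = B.card * e := by
        rw [Finset.card_product, Finset.card_range]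
      rw [hcard] at hD hprod
      set L : MvPolynomial (Fin (k + 2)) K := ∏ i ∈ B ×ˢ Finset.range e, (X 1 - C i.1 * X 0) with hL
      set M : MvPolynomial (Fin (k + 2)) K := X 0 ^ (s 0) * (X 1 ^ (s 1 - B.card * e) *
        ∏ j : Fin k, X j.succ.succ ^ (s j.succ.succ)) with hM
      have hmono : M = monomial (s - Finsupp.single 1 (B.card * e)) 1 := by
        rw [mono_split, hM]
        congr 1
        · congr 1
          simp
        · congr 1
          · congr 1
            simp
          · refine Finset.prod_congr rfl fun j _ => ?_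
            congr 1
            rw [Finsupp.tsub_apply, Finsupp.single_apply, if_neg, Nat.sub_zero]
            intro h
            have := Fin.succ_injective _ ((h.symm.trans (by rfl : (1 : Fin (k+2)) = Fin.succ 0)))
            exact Fin.succ_ne_zero _ this
      have hML : M * L ∈ (⨅ b ∈ B, vIdeal (cv k b) ^ m : Ideal (MvPolynomial (Fin (k + 2)) K)) := by
        rw [Submodule.mem_iInf]
        intro b
        rw [Submodule.mem_iInf]
        intro hb
        have h3 : L ∈ vIdeal (cv k b) ^ e := by
          rw [hL, Finset.prod_product, ← Finset.mul_prod_erase _ _ hb]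
          refine Ideal.mul_mem_right _ _ ?_
          have h4 : ∏ y ∈ Finset.range e, (X 1 - C (b, y).1 * X 0 :
              MvPolynomial (Fin (k + 2)) K) = (X 1 - C b * X 0) ^ e := by simp
          rw [h4]
          exact Ideal.pow_mem_pow (L_mem b) _
        have h4 : M ∈ vIdeal (cv k b) ^ κ := by
          rw [hM]
          exact Ideal.mul_mem_left _ _ (Ideal.mul_mem_left _ _ (tail_mem b s))
        have h5 := Ideal.mul_mem_mul h4 h3
        rw [← pow_add, he, Nat.add_sub_cancel' hm.le] at h5
        exact h5
      have hsum : monomial s (1 : K) = M * L + -(M * D) := by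
        rw [hprod, mono_split, hM]
        have h6 : (X 1 : MvPolynomial (Fin (k + 2)) K) ^ (s 1) =
          X 1 ^ (s 1 - B.card * e) * X 1 ^ (B.card * e) := by
          rw [← pow_add, Nat.sub_add_cancel h1]
        rw [h6]
        ring
      have hhomL : L.IsHomogeneous (B.card * e) := by
        have := IsHomogeneous.prod (B ×ˢ Finset.range e)
          (fun i => (X 1 - C i.1 * X 0 : MvPolynomial (Fin (k + 2)) K)) (fun _ => 1) (by
          intro i _
          refine (isHomogeneous_X _ _).sub ?_
          simpa using (isHomogeneous_C (Fin (k + 2)) i.1).mul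
            (isHomogeneous_X K (0 : Fin (k + 2))))
        rw [Finset.sum_const, smul_eq_mul, mul_one, hcard] at this
        exact this
      have hdegM : M.IsHomogeneous (d - B.card * e) := by
        rw [hmono]
        refine isHomogeneous_monomial _ ?_
        have h7 : s = (s - Finsupp.single 1 (B.card * e)) + Finsupp.single 1 (B.card * e) := by
          rw [tsub_add_cancel_of_le]
          rw [Finsupp.single_le_iff]
          exact h1
        have h8 : s.degree = (s - Finsupp.single 1 (B.card * e)).degree + B.card * e := by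
          conv_lhs => rw [h7]
          rw [map_add, Finsupp.degree_single]
        omega
      have hle : B.card * e ≤ d := by
        rw [← hs, Finsupp.degree_eq_sum]
        exact h1.trans (Finset.single_le_sum (f := fun i => s i) (fun i _ => Nat.zero_le _)
          (Finset.mem_univ 1))
      have hMLd : (M * L).IsHomogeneous d := by
        have := hdegM.mul hhomL
        rwa [Nat.sub_add_cancel hle] at this
      have hMD : (M * D).IsHomogeneous d := by
        have h9 : M * D = M * L - monomial s 1 := by rw [hsum]; ring
        rw [h9]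
        exact hMLd.sub (isHomogeneous_monomial _ hs)
      have hlow : Low k (s 1) (M * D) := by
        rw [hmono]
        refine Low.mul (low_monomial _ _) hD ?_
        rw [Finsupp.tsub_apply, Finsupp.single_eq_same]
        omega
      rw [hsum]
      refine Submodule.add_mem _ (Submodule.mem_sup_right hML) (Submodule.neg_mem _ ?_)
      rw [(M * D).as_sum]
      refine Submodule.sum_mem _ fun t ht => ?_
      have h10 : t.degree = d := by
        by_contra hne
        exact (mem_support_iff.1 ht) (hMD.coeff_eq_zero hne)
      have h11 := hlow t ht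
      have h12 := ih (t 1) (by omega) t h10 rfl
      have h13 : monomial t (coeff t (M * D)) = coeff t (M * D) • monomial t (1 : K) := by
        rw [smul_monomial, smul_eq_mul, mul_one]
      rw [h13]
      exact Submodule.smul_mem _ _ h12

end Pool.Agent.W466.HF
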