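import Pool.Agent.W466.HF3

/-!
Least Hilbert function of r points of multiplicity m (helper file, part 4): counting and the
main theorem.
-/

open MvPolynomial Module

namespace Pool.Agent.W466.HF

variable {K : Type*} [Field K] {k : ℕ}

/-- assembling an exponent -/
noncomputable def asm (k d : ℕ) (x : (_ : ℕ) × ((Fin k →₀ ℕ) × ℕ)) : Fin (k + 2) →₀ ℕ :=
  Finsupp.equivFunOnFinite.symm (Fin.cons (d - x.1 - x.2.2) (Fin.cons x.2.2 x.2.1))

theorem asm_zero (d : ℕ) (x : (_ : ℕ) × ((Fin k →₀ ℕ) × ℕ)) :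
    asm k d x 0 = d - x.1 - x.2.2 := rfl
theorem asm_one (d : ℕ) (x : (_ : ℕ) × ((Fin k →₀ ℕ) × ℕ)) :
    asm k d x 1 = x.2.2 := rfl
theorem asm_succ (d : ℕ) (x : (_ : ℕ) × ((Fin k →₀ ℕ) × ℕ)) (j : Fin k) :
    asm k d x j.succ.succ = x.2.1 j := rfl

/-- index set -/
def idx (k r m d : ℕ) : Finset ((_ : ℕ) × ((Fin k →₀ ℕ) × ℕ)) :=
  (Finset.range m).sigma (fun j => (Finset.finsuppAntidiag Finset.univ j) ×ˢ
    Finset.range (min (d + 1 - j) (r * (m - j))))

theorem card_idx (k r m d : ℕ) : (idx k r m d).card =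
    ∑ j ∈ Finset.range m, Nat.multichoose k j * min (d + 1 - j) (r * (m - j)) := by
  classical
  rw [idx, Finset.card_sigma]
  refine Finset.sum_congr rfl fun j _ => ?_
  rw [Finset.card_product, Finset.card_range, Finset.card_finsuppAntidiag_nat_eq_multichoose,
    Finset.card_univ, Fintype.card_fin]

theorem mem_idx (k r m d : ℕ) (x : (_ : ℕ) × ((Fin k →₀ ℕ) × ℕ)) : x ∈ idx k r m d ↔
    x.1 < m ∧ (∑ i, x.2.1 i = x.1) ∧ x.2.2 < d + 1 - x.1 ∧ x.2.2 < r * (m - x.1) := by
  classical
  rw [idx, Finset.mem_sigma, Finset.mem_range, Finset.mem_product, Finset.mem_range,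
    Finset.mem_finsuppAntidiag, lt_min_iff]
  simp

theorem image_asm (k r m d : ℕ) : asm k d '' (idx k r m d : Set _) = GoodSet k r m d := by
  ext s
  constructor
  · rintro ⟨x, hx, rfl⟩
    rw [Finset.mem_coe, mem_idx] at hx
    obtain ⟨h1, h2, h3, h4⟩ := hx
    refine ⟨?_, ?_⟩
    · rw [Finsupp.degree_eq_sum, Fin.sum_univ_succ, Fin.sum_univ_succ]
      change asm k d x 0 + (asm k d x 1 + ∑ i : Fin k, asm k d x i.succ.succ) = d
      simp only [asm_zero, asm_one, asm_succ, h2]
      omega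
    · rw [Good]
      simp only [asm_one, asm_succ, h2]
      have h5 : r * (m - x.1) = r * m - r * x.1 := Nat.mul_sub _ _ _
      omega
  · rintro ⟨h1, h2⟩
    rw [Finsupp.degree_eq_sum, Fin.sum_univ_succ, Fin.sum_univ_succ] at h1
    change s 0 + (s 1 + ∑ i : Fin k, s i.succ.succ) = d at h1
    rw [Good] at h2
    set κ := ∑ i : Fin k, s i.succ.succ with hκ
    have hlt : κ < m := by
      by_contra hge
      have := Nat.mul_le_mul_left r (not_lt.1 hge)
      omega
    have h5 : r * (m - κ) = r * m - r * κ := Nat.mul_sub _ _ _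
    refine ⟨⟨κ, (tl s, s 1)⟩, ?_, ?_⟩
    · rw [Finset.mem_coe, mem_idx]
      refine ⟨hlt, rfl, ?_, ?_⟩
      · show s 1 < d + 1 - κ
        omega
      · show s 1 < r * (m - κ)
        omega
    · ext i
      refine Fin.cases ?_ (fun i => ?_) i
      · rw [asm_zero]
        show d - κ - s 1 = s 0
        omega
      · refine Fin.cases ?_ (fun i => ?_) i
        · exact asm_one d _
        · exact asm_succ d _ _

theorem asm_injOn (k r m d : ℕ) : Set.InjOn (asm k d) (idx k r m d : Set _) := by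
  rintro ⟨j, β, i⟩ hx ⟨j', β', i'⟩ hy h
  rw [Finset.mem_coe, mem_idx] at hx hy
  have hi : i = i' := by
    have := DFunLike.congr_fun h 1
    rwa [asm_one, asm_one] at this
  have hβ : β = β' := by
    ext t
    have := DFunLike.congr_fun h t.succ.succ
    rwa [asm_succ, asm_succ] at this
  have h1 : ∑ t, β t = j := hx.2.1
  have h2 : ∑ t, β' t = j' := hy.2.1
  have hj : j = j' := by rw [← h1, ← h2, hβ]
  subst hi hβ hj
  rfl

theorem ncard_GoodSet (k r m d : ℕ) : (GoodSet k r m d).ncard =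
    ∑ j ∈ Finset.range m, Nat.multichoose k j * min (d + 1 - j) (r * (m - j)) := by
  rw [← image_asm, Set.InjOn.ncard_image (asm_injOn k r m d), Set.ncard_coe_finset, card_idx]

theorem finite_GoodSet (k r m d : ℕ) : (GoodSet k r m d).Finite := by
  rw [← image_asm]
  exact (Finset.finite_toSet _).image _

theorem finrank_W (k r m d : ℕ) : finrank K (W K k r m d) =
    ∑ j ∈ Finset.range m, Nat.multichoose k j * min (d + 1 - j) (r * (m - j)) := by
  classical
  rw [← ncard_GoodSet]
  have : Fintype (GoodSet k r m d) := (finite_GoodSet k r m d).fintype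
  have hli : LinearIndependent K (fun s : GoodSet k r m d => monomial s.1 (1 : K)) := by
    have h := (basisMonomials (Fin (k + 2)) K).linearIndependent.comp
      (fun s : GoodSet k r m d => s.1) Subtype.val_injective
    simpa [Function.comp_def] using h
  rw [W, Set.image_eq_range, finrank_span_eq_card hli, ← Nat.card_eq_fintype_card]
  rfl

theorem W_hom {r m d : ℕ} {F : MvPolynomial (Fin (k + 2)) K} (hF : F ∈ W K k r m d) :
    F.IsHomogeneous d ∧ ∀ s ∈ F.support, Good k r m s := by
  classical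
  rw [W] at hF
  induction hF using Submodule.span_induction with
  | mem x hx =>
    obtain ⟨s, hs, rfl⟩ := hx
    refine ⟨isHomogeneous_monomial _ hs.1, fun t ht => ?_⟩
    have := support_monomial_subset ht
    rw [Finset.mem_singleton] at this
    rw [this]
    exact hs.2
  | zero => exact ⟨isHomogeneous_zero _ _ _, fun t ht => by simp at ht⟩
  | add x y _ _ hx hy =>
    refine ⟨hx.1.add hy.1, fun t ht => ?_⟩
    rcases Finset.mem_union.1 (support_add ht) with h | h
    · exact hx.2 t h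
    · exact hy.2 t h
  | smul a x _ hx =>
    refine ⟨?_, fun t ht => hx.2 t (support_smul ht)⟩
    rw [smul_eq_C_mul]
    simpa using (isHomogeneous_C _ a).mul hx.1

/-- the degree `d` part of `R / I`, as a subspace of `R / I` -/
noncomputable def qd (I : Ideal (MvPolynomial (Fin (k + 2)) K)) (d : ℕ) :
    Submodule K (MvPolynomial (Fin (k + 2)) K ⧸ I) :=
  (homogeneousSubmodule (Fin (k + 2)) K d).map (Ideal.Quotient.mkₐ K I).toLinearMap

theorem qd_finite (I : Ideal (MvPolynomial (Fin (k + 2)) K)) (d : ℕ) :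
    Module.Finite K (qd I d) := by
  have hle : homogeneousSubmodule (Fin (k + 2)) K d ≤ W K k (d + 1) (d + 1) d := by
    intro F hF
    have hF' : F.IsHomogeneous d := hF
    rw [F.as_sum]
    refine Submodule.sum_mem _ fun t ht => ?_
    have hs' : t.degree = d := by
      by_contra hne
      exact (mem_support_iff.1 ht) (hF'.coeff_eq_zero hne)
    have h13 : monomial t (coeff t F) = coeff t F • monomial t (1 : K) := by
      rw [smul_monomial, smul_eq_mul, mul_one]
    rw [h13]
    refine Submodule.smul_mem _ _ (Submodule.subset_span ⟨t, ⟨hs', ?_⟩, rfl⟩)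
    rw [Finsupp.degree_eq_sum, Fin.sum_univ_succ, Fin.sum_univ_succ] at hs'
    change t 0 + (t 1 + ∑ i : Fin k, t i.succ.succ) = d at hs'
    rw [Good]
    nlinarith
  have hfin : Module.Finite K (W K k (d + 1) (d + 1) d) :=
    Module.Finite.span_of_finite K ((finite_GoodSet k _ _ d).image _)
  have h1 : Module.Finite K (homogeneousSubmodule (Fin (k + 2)) K d) :=
    Submodule.finiteDimensional_of_le hle
  exact Module.Finite.map _ _

theorem lower [Infinite K] {r : ℕ} {ι : Type*} [Fintype ι] (hr : Fintype.card ι = r)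
    (v : ι → Fin (k + 2) → K) (hv : ∀ i, v i ≠ 0)
    (hne : ∀ i j, i ≠ j → ∀ a b : K, a ≠ 0 → a • v i ≠ b • v j) (m d : ℕ)
    (I : Ideal (MvPolynomial (Fin (k + 2)) K)) (hI : ∀ i, I ≤ vIdeal (v i) ^ m) :
    finrank K (W K k r m d) ≤ finrank K (qd I d) := by
  obtain ⟨e, he0, hinj⟩ := exists_coord v hv hne
  let φ : W K k r m d →ₗ[K] (MvPolynomial (Fin (k + 2)) K ⧸ I) :=
    ((Ideal.Quotient.mkₐ K I).toLinearMap ∘ₗ (lf e.toLinearMap).toLinearMap) ∘ₗ
      (W K k r m d).subtype
  have hφ : ∀ x, φ x ∈ qd I d := fun x =>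
    ⟨lf e.toLinearMap x.1, lf_hom _ _ _ (W_hom x.2).1, rfl⟩
  have := qd_finite I d
  refine LinearMap.finrank_le_finrank_of_injective (f := φ.codRestrict (qd I d) hφ) ?_
  rw [← LinearMap.ker_eq_bot, LinearMap.ker_codRestrict, LinearMap.ker_eq_bot']
  rintro ⟨F, hF⟩ h
  have h1 : lf e.toLinearMap F ∈ I := Ideal.Quotient.eq_zero_iff_mem.1 h
  have h2 : F = 0 := by
    refine key hr (fun i => e (v i)) he0 hinj F (W_hom hF).1 (W_hom hF).2 fun i => ?_
    have h3 := lf_vIdeal e (v i) m _ (hI i h1)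
    rwa [lf_symm] at h3
  exact Subtype.ext h2

theorem upper (B : Finset K) (m d : ℕ) (I : Ideal (MvPolynomial (Fin (k + 2)) K))
    (hI : (⨅ b ∈ B, vIdeal (cv k b) ^ m) ≤ I) :
    finrank K (qd I d) ≤ finrank K (W K k B.card m d) := by
  have h1 : qd I d ≤ (W K k B.card m d).map (Ideal.Quotient.mkₐ K I).toLinearMap := by
    rintro _ ⟨F, hF, rfl⟩
    have hF' : F.IsHomogeneous d := hF
    have h2 : F ∈ W K k B.card m d ⊔
      (⨅ b ∈ B, vIdeal (cv k b) ^ m : Ideal (MvPolynomial (Fin (k + 2)) K)).restrictScalars K := by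
      rw [F.as_sum]
      refine Submodule.sum_mem _ fun t ht => ?_
      have h10 : t.degree = d := by
        by_contra hne
        exact (mem_support_iff.1 ht) (hF'.coeff_eq_zero hne)
      have h13 : monomial t (coeff t F) = coeff t F • monomial t (1 : K) := by
        rw [smul_monomial, smul_eq_mul, mul_one]
      rw [h13]
      exact Submodule.smul_mem _ _ (reduce B m d t h10)
    obtain ⟨G, hG, H, hH, hGH⟩ := Submodule.mem_sup.1 h2
    refine ⟨G, hG, ?_⟩
    have h3 : (Ideal.Quotient.mkₐ K I).toLinearMap H = 0 :=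
      Ideal.Quotient.eq_zero_iff_mem.2 (hI hH)
    rw [← hGH, map_add, h3, add_zero]
  have hfin : Module.Finite K (W K k B.card m d) :=
    Module.Finite.span_of_finite K ((finite_GoodSet k B.card m d).image _)
  exact (Submodule.finrank_mono h1).trans (Submodule.finrank_map_le _ _)

theorem vIdeal_smul (a : K) (ha : a ≠ 0) (v : Fin (k + 2) → K) : vIdeal (a • v) = vIdeal v := by
  rw [vIdeal, vIdeal]
  congr 1
  ext F
  constructor
  · rintro ⟨⟨e, he⟩, h⟩
    refine ⟨⟨e, he⟩, ?_⟩
    rw [eval_scale he] at h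
    exact (mul_eq_zero.1 h).resolve_left (pow_ne_zero _ ha)
  · rintro ⟨⟨e, he⟩, h⟩
    refine ⟨⟨e, he⟩, ?_⟩
    rw [eval_scale he, h, mul_zero]

end Pool.Agent.W466.HF
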