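import Pool.Agent.W466.ZS

/-!
Dominance: the image has dimension `m` (helper file for Zilber-Pink in `Y(1)^n`).
-/

open Function MvPolynomial H294ZP

namespace Pool.Agent.W466.ZP

/-- Numbers with algebraically independent residues are algebraically independent. -/
theorem algInd_of_close {m d p : ℕ} (hd : 0 < d) (hp : p.Prime) (w x : Fin m → ℂ)
    (V : ValuationSubring ℂ) (hV : (p : ℂ) ∈ V.nonunits) (hw : ∀ i, w i ∈ V)
    (hgauss : ∀ f : MvPolynomial (Fin m) ℤ, ¬ (C (p : ℤ) ∣ f) → V.valuation (aeval w f) = 1)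
    (hx : ∀ i, V.valuation (x i - w i ^ d) < 1) : AlgebraicIndependent ℚ x := by
  set v := V.valuation with hv
  have hxV : ∀ i, x i ∈ V := by
    intro i
    have h1 : x i = (x i - w i ^ d) + w i ^ d := by ring
    rw [h1]
    exact add_mem ((ValuationSubring.valuation_le_one_iff _ _).1 (hx i).le) (pow_mem (hw i) d)
  have hprime : Prime (C (σ := Fin m) (p : ℤ)) :=
    (prime_C_iff (Fin m)).2 (Nat.prime_iff_prime_int.1 hp)
  -- congruence of values
  have hcong : ∀ f : MvPolynomial (Fin m) ℤ, aeval x f ∈ V ∧ aeval (fun i => w i ^ d) f ∈ V ∧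
      v (aeval x f - aeval (fun i => w i ^ d) f) < 1 := by
    intro f
    induction f using MvPolynomial.induction_on with
    | C a =>
      rw [aeval_C, aeval_C, sub_self, map_zero]
      exact ⟨intCast_mem V a, intCast_mem V a, zero_lt_one⟩
    | add f g hf hg =>
      rw [map_add, map_add]
      refine ⟨add_mem hf.1 hg.1, add_mem hf.2.1 hg.2.1, ?_⟩
      have h1 : aeval x f + aeval x g - (aeval (fun i => w i ^ d) f + aeval (fun i => w i ^ d) g) =
        (aeval x f - aeval (fun i => w i ^ d) f) + (aeval x g - aeval (fun i => w i ^ d) g) := by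
        ring
      rw [h1]
      exact Valuation.map_add_lt _ hf.2.2 hg.2.2
    | mul_X f i hf =>
      rw [map_mul, map_mul, aeval_X, aeval_X]
      refine ⟨mul_mem hf.1 (hxV i), mul_mem hf.2.1 (pow_mem (hw i) d), ?_⟩
      have h1 : aeval x f * x i - aeval (fun i => w i ^ d) f * w i ^ d =
        (aeval x f - aeval (fun i => w i ^ d) f) * x i +
          aeval (fun i => w i ^ d) f * (x i - w i ^ d) := by ring
      rw [h1]
      refine Valuation.map_add_lt _ ?_ ?_
      · rw [map_mul]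
        exact (mul_le_of_le_one_right' ((ValuationSubring.valuation_le_one_iff _ _).2
          (hxV i))).trans_lt hf.2.2
      · rw [map_mul]
        exact (mul_le_of_le_one_left' ((ValuationSubring.valuation_le_one_iff _ _).2
          hf.2.1)).trans_lt (hx i)
  have hdvd : ∀ f : MvPolynomial (Fin m) ℤ, aeval x f = 0 → C (p : ℤ) ∣ f := by
    intro f hf
    by_contra hnd
    have h1 : ¬ (C (p : ℤ) ∣ expand d f) := by
      intro h
      apply hnd
      rw [C_dvd_iff_dvd_coeff] at h ⊢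
      intro u
      have h2 := h (d • u)
      rwa [coeff_expand_smul d hd.ne'] at h2
    have h2 := hgauss _ h1
    have h3 : aeval w (expand d f) = aeval (fun i => w i ^ d) f := by
      rw [expand, aeval_bind₁] <;> simp
    rw [h3] at h2
    have h4 := (hcong f).2.2
    rw [hf, zero_sub, Valuation.map_neg, h2] at h4
    exact lt_irrefl _ h4
  have hZ : AlgebraicIndependent ℤ x := by
    rw [algebraicIndependent_iff]
    intro f hf
    have h1 : ∀ k : ℕ, ∃ g : MvPolynomial (Fin m) ℤ, f = C ((p : ℤ) ^ k) * g ∧ aeval x g = 0 := by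
      intro k
      induction k with
      | zero => exact ⟨f, by simp, hf⟩
      | succ k ih =>
        obtain ⟨g, hg, hg0⟩ := ih
        obtain ⟨g', hg'⟩ := hdvd g hg0
        refine ⟨g', ?_, ?_⟩
        · rw [hg, hg', ← mul_assoc, ← C_mul, pow_succ]
        · rw [hg', map_mul, aeval_C] at hg0
          rcases mul_eq_zero.1 hg0 with h | h
          · exfalso
            have : ((p : ℤ) : ℂ) = 0 := h
            push_cast at this
            exact hp.ne_zero (by exact_mod_cast this)
          · exact h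
    ext u
    rw [coeff_zero]
    obtain ⟨g, hg, -⟩ := h1 (coeff u f).natAbs
    have h2 : (p : ℤ) ^ (coeff u f).natAbs ∣ coeff u f := by
      conv_rhs => rw [hg, coeff_C_mul]
      exact Dvd.intro _ rfl
    by_contra hne
    have h3 := Int.le_of_dvd (by positivity : (0 : ℤ) < |coeff u f|) ((dvd_abs _ _).2 h2)
    have h4 : (coeff u f).natAbs < p ^ (coeff u f).natAbs := Nat.lt_pow_self hp.one_lt
    rw [Int.abs_eq_natAbs] at h3
    have h5 : p ^ (coeff u f).natAbs ≤ (coeff u f).natAbs := by exact_mod_cast h3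
    omega
  have halg : Algebra.IsAlgebraic ℤ ℚ := ⟨fun q => by
    refine ⟨Polynomial.C (q.den : ℤ) * Polynomial.X - Polynomial.C q.num, ?_, ?_⟩
    · intro h
      have h1 := congrArg (fun f => Polynomial.coeff f 1) h
      simp only [Polynomial.coeff_sub, Polynomial.coeff_C_mul, Polynomial.coeff_X_one, mul_one,
        Polynomial.coeff_C_succ, Polynomial.coeff_zero, sub_zero] at h1
      exact q.den_ne_zero (by exact_mod_cast h1)
    · rw [map_sub, map_mul, Polynomial.aeval_C, Polynomial.aeval_X, Polynomial.aeval_C]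
      have h1 : (algebraMap ℤ ℚ) (q.den : ℤ) = (q.den : ℚ) := by simp
      have h2 : (algebraMap ℤ ℚ) q.num = (q.num : ℚ) := rfl
      rw [h1, h2, mul_comm, Rat.mul_den_eq_num, sub_self]⟩
  exact hZ.extendScalars ℚ

/-- The image contains a point with `m` algebraically independent coordinates. -/
theorem dominant {σ : Type} [Fintype σ] [DecidableEq σ] {κ : Type*} {n m d : ℕ} (hd : 0 < d)
    (hmn : m < n) (G : κ → MvPolynomial σ ℂ) (s : Fin (m + 1) → σ → ℤ) (p : ℕ) (hp : p.Prime)
    (hgood : ∀ V : ValuationSubring ℂ,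
      (p : ℂ) ∈ V.nonunits → ∀ y : σ → ℂ, y ≠ 0 → (∀ k, eval y (G k) = 0) →
        ∃ c : ℂ, c ≠ 0 ∧ (∀ j, (c • y) j ∈ V) ∧ (∀ k, eval (c • y) (G k) = 0) ∧
          ∃ b, V.valuation (∑ j, (s b j : ℂ) * (c • y) j) = 1)
    (hdim : ∀ t : Fin m → σ → ℂ, ∃ y : σ → ℂ, y ≠ 0 ∧ (∀ k, eval y (G k) = 0) ∧
      ∀ i, ∑ j, t i j * y j = 0)
    (P Q : Fin n → Sym σ d → ℤ)
    (hP : ∀ i : Fin m, ∀ e, (p : ℤ) ∣ P (Fin.castLE hmn.le i) e - pw d (s i.succ) e)
    (hQ : ∀ i, ∀ e, (p : ℤ) ∣ Q i e - pw d (s 0) e) :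
    ∃ y : σ → ℂ, y ≠ 0 ∧ (∀ k, eval y (G k) = 0) ∧ (∀ i, ev (Q i) y ≠ 0) ∧
      AlgebraicIndependent ℚ (fun i : Fin m =>
        ev (P (Fin.castLE hmn.le i)) y / ev (Q (Fin.castLE hmn.le i)) y) := by
  classical
  obtain ⟨w, hw⟩ := exists_algInd m
  obtain ⟨V, hV, hwV, hgauss⟩ := exists_gauss w hw hp
  obtain ⟨y0, hy0, hy0G, hy0l⟩ := hdim (fun i j => (s i.succ j : ℂ) - w i * (s 0 j : ℂ))
  obtain ⟨c, hc, hcV, hcG, b, hb⟩ := hgood V hV y0 hy0 hy0G
  set y := c • y0 with hy
  set v := V.valuation with hv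
  have hvp : v (p : ℂ) < 1 := by
    rwa [ValuationSubring.mem_nonunits_iff] at hV
  set u : ℂ := ∑ j, (s 0 j : ℂ) * y j with hu
  have hlin : ∀ i : Fin m, ∑ j, (s i.succ j : ℂ) * y j = w i * u := by
    intro i
    have h1 : ∑ j, ((s i.succ j : ℂ) - w i * (s 0 j : ℂ)) * y j = 0 := by
      have h2 := hy0l i
      have h3 : ∑ j, ((s i.succ j : ℂ) - w i * (s 0 j : ℂ)) * y j =
        c * ∑ j, ((s i.succ j : ℂ) - w i * (s 0 j : ℂ)) * y0 j := by
        rw [Finset.mul_sum]
        refine Finset.sum_congr rfl fun j _ => ?_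
        rw [hy, Pi.smul_apply, smul_eq_mul]
        ring
      rw [h3, h2, mul_zero]
    have h4 : ∑ j, ((s i.succ j : ℂ) - w i * (s 0 j : ℂ)) * y j =
        ∑ j, (s i.succ j : ℂ) * y j - w i * u := by
      rw [hu, Finset.mul_sum, ← Finset.sum_sub_distrib]
      refine Finset.sum_congr rfl fun j _ => ?_
      ring
    rw [h4] at h1
    exact sub_eq_zero.1 h1
  have huV : v u ≤ 1 := by
    rw [ValuationSubring.valuation_le_one_iff]
    exact sum_mem fun j _ => mul_mem (intCast_mem V _) (hcV j)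
  have hu1 : v u = 1 := by
    refine Fin.cases (fun hb => hb) (fun i hb => ?_) b hb
    rw [hlin, map_mul] at hb
    refine le_antisymm huV ?_
    rw [← hb]
    exact mul_le_of_le_one_left' ((ValuationSubring.valuation_le_one_iff _ _).2 (hwV i))
  have hQc : ∀ i, v (ev (Q i) y - u ^ d) < 1 := by
    intro i
    have h1 := ev_congr V hcV (p : ℤ) (hQ i)
    rw [ev_pw] at h1
    refine h1.trans_lt ?_
    simpa using hvp
  have hPc : ∀ i : Fin m, v (ev (P (Fin.castLE hmn.le i)) y - w i ^ d * u ^ d) < 1 := by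
    intro i
    have h1 := ev_congr V hcV (p : ℤ) (hP i)
    rw [ev_pw, hlin, mul_pow] at h1
    refine h1.trans_lt ?_
    simpa using hvp
  have hud : v (u ^ d) = 1 := by rw [map_pow, hu1, one_pow]
  have hQ1 : ∀ i, v (ev (Q i) y) = 1 := by
    intro i
    have h1 : ev (Q i) y = (ev (Q i) y - u ^ d) + u ^ d := by ring
    rw [h1, Valuation.map_add_eq_of_lt_right, hud]
    rw [hud]
    exact hQc i
  have hQ0 : ∀ i, ev (Q i) y ≠ 0 := by
    intro i h
    have := hQ1 i
    rw [h, map_zero] at this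
    exact zero_ne_one this
  refine ⟨y, smul_ne_zero hc hy0, hcG, hQ0, ?_⟩
  refine algInd_of_close hd hp w _ V hV hwV hgauss fun i => ?_
  have h1 : ev (P (Fin.castLE hmn.le i)) y / ev (Q (Fin.castLE hmn.le i)) y - w i ^ d =
      ((ev (P (Fin.castLE hmn.le i)) y - w i ^ d * u ^ d) -
        w i ^ d * (ev (Q (Fin.castLE hmn.le i)) y - u ^ d)) / ev (Q (Fin.castLE hmn.le i)) y := by
    field_simp [hQ0]
    ring
  rw [h1, map_div₀, hQ1, div_one]
  refine Valuation.map_sub_lt _ (hPc i) ?_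
  rw [map_mul]
  refine (mul_le_of_le_one_left' ?_).trans_lt (hQc _)
  rw [map_pow]
  exact pow_le_one' ((ValuationSubring.valuation_le_one_iff _ _).2 (hwV i)) d

end Pool.Agent.W466.ZP
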