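import Pool.Agent.W466.ZV

/-!
Forms of degree `d` with integral coefficients, indexed by `Sym σ d`; and the core of the
contradiction (helper file for Zilber-Pink in `Y(1)^n`).
-/

open Function

namespace Pool.Agent.W466.ZP

/-- The value at `y` of the form of degree `d` with integral coefficients `c e`, where the monomials
of degree `d` in the variables `y_j`, `j ∈ σ`, are indexed by the multisets `e` of size `d`. -/
noncomputable def ev {σ : Type} [Fintype σ] [DecidableEq σ] {d : ℕ} (c : Sym σ d → ℤ)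
    (y : σ → ℂ) : ℂ :=
  ∑ e : Sym σ d, (c e : ℂ) * ((e : Multiset σ).map y).prod

variable {σ : Type} [Fintype σ] [DecidableEq σ] {d : ℕ}

theorem ev_smul (c : Sym σ d → ℤ) (a : ℂ) (y : σ → ℂ) : ev c (a • y) = a ^ d * ev c y := by
  rw [ev, ev, Finset.mul_sum]
  refine Finset.sum_congr rfl fun e _ => ?_
  have h : ((e : Multiset σ).map (a • y)).prod = a ^ d * ((e : Multiset σ).map y).prod := by
    have h1 : ((e : Multiset σ).map (a • y)) = (e : Multiset σ).map (fun j => a * y j) := rfl
    rw [h1, Multiset.prod_map_mul, Multiset.map_const', Multiset.prod_replicate]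
    congr 2
    exact e.2
  rw [h]
  ring

/-- coefficients of the `d`-th power of an integral linear form -/
noncomputable def pw (d : ℕ) (t : σ → ℤ) : Sym σ d → ℤ := fun e =>
  ((e : Multiset σ).countPerms : ℤ) * ((e : Multiset σ).map t).prod

theorem ev_pw (t : σ → ℤ) (y : σ → ℂ) : ev (pw d t) y = (∑ j, (t j : ℂ) * y j) ^ d := by
  rw [ev, Finset.sum_pow (s := (Finset.univ : Finset σ)) (fun j => (t j : ℂ) * y j) d]
  rw [Finset.sym_univ]
  refine Finset.sum_congr rfl fun e _ => ?_
  have h : (((((e : Multiset σ).map t).prod : ℤ)) : ℂ) =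
      ((e : Multiset σ).map fun j => (t j : ℂ)).prod := by
    have h1 := map_multiset_prod (Int.castRingHom ℂ) ((e : Multiset σ).map t)
    rw [Multiset.map_map] at h1
    exact h1
  have h2 : ((e : Multiset σ).map fun j => (t j : ℂ) * y j).prod =
      ((e : Multiset σ).map fun j => (t j : ℂ)).prod * ((e : Multiset σ).map y).prod :=
    Multiset.prod_map_mul
  rw [pw, Int.cast_mul, h]
  refine Eq.trans ?_ (congrArg (fun z => (((e : Multiset σ).countPerms : ℂ)) * z) h2).symm
  rw [Int.cast_natCast, mul_assoc]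

theorem ev_zsmul (a : ℤ) (c : Sym σ d → ℤ) (y : σ → ℂ) : ev (fun e => a * c e) y = a * ev c y := by
  rw [ev, ev, Finset.mul_sum]
  refine Finset.sum_congr rfl fun e _ => ?_
  push_cast
  ring

omit [Fintype σ] [DecidableEq σ] in
theorem prod_le_one (V : ValuationSubring ℂ) (e : Multiset σ) {y : σ → ℂ} (hy : ∀ j, y j ∈ V) :
    V.valuation ((e.map y).prod) ≤ 1 := by
  rw [ValuationSubring.valuation_le_one_iff]
  refine multiset_prod_mem _ fun z hz => ?_
  obtain ⟨j, _, rfl⟩ := Multiset.mem_map.1 hz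
  exact hy j

theorem int_le_one (V : ValuationSubring ℂ) (z : ℤ) : V.valuation (z : ℂ) ≤ 1 := by
  rw [ValuationSubring.valuation_le_one_iff]
  exact intCast_mem V z

/-- congruent forms have congruent values -/
theorem ev_congr (V : ValuationSubring ℂ) {y : σ → ℂ} (hy : ∀ j, y j ∈ V) (M : ℤ)
    {c c' : Sym σ d → ℤ} (h : ∀ e, M ∣ c e - c' e) :
    V.valuation (ev c y - ev c' y) ≤ V.valuation (M : ℂ) := by
  rw [ev, ev, ← Finset.sum_sub_distrib]
  refine Valuation.map_sum_le _ fun e _ => ?_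
  obtain ⟨w, hw⟩ := h e
  have h1 : (c e : ℂ) * ((e : Multiset σ).map y).prod - (c' e : ℂ) * ((e : Multiset σ).map y).prod =
      (M : ℂ) * ((w : ℂ) * ((e : Multiset σ).map y).prod) := by
    have h2 : (c e : ℂ) - (c' e : ℂ) = (M : ℂ) * (w : ℂ) := by
      rw [← Int.cast_sub, hw]
      push_cast
      ring
    rw [← sub_mul, h2]
    ring
  rw [h1, map_mul, map_mul]
  exact mul_le_of_le_one_right' (mul_le_one' (int_le_one V w) (prod_le_one V _ hy))

/-- The congruences modulo `p ^ (n + 2)` attached to a labelling `lam`, a choice `s` of linear forms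
and `a`. -/
structure Cong (n k m d : ℕ) (p : ℕ) (lam : Fin n → Option (Fin k)) (s : Fin (m + 1) → σ → ℤ)
    (a : Fin n → Fin (m + 1)) (P Q : Fin n → Sym σ d → ℤ) : Prop where
  /-- elements that are not the first of their class -/
  relP : ∀ i, (lam i = none ∨ ∃ i' < i, lam i' = lam i) →
    ∀ e, (p : ℤ) ^ (n + 2) ∣ P i e - pw d (s (a i)) e
  relQ : ∀ i, (lam i = none ∨ ∃ i' < i, lam i' = lam i) → ∀ e, (p : ℤ) ∣ Q i e
  relQ' : ∀ i i', lam i ≠ none → lam i' = lam i → i < i' → (∀ l, i < l → l < i' → lam l ≠ lam i) →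
    (∃ l < i, lam l = lam i) → ∀ e, (p : ℤ) ^ (n + 2) ∣ Q i e - (p : ℤ) * pw d (s (a i')) e
  rootP : ∀ i, lam i ≠ none → (∀ i' < i, lam i' ≠ lam i) → ∀ e, (p : ℤ) ^ (n + 1) ∣ P i e
  rootQ : ∀ i i', lam i ≠ none → lam i' = lam i → i < i' → (∀ l, i < l → l < i' → lam l ≠ lam i) →
    (∀ l < i, lam l ≠ lam i) → ∀ e, (p : ℤ) ^ (n + 2) ∣ Q i e - pw d (s (a i')) e

/-- value of a form all of whose coefficients are divisible by `M` -/
theorem ev_dvd (V : ValuationSubring ℂ) {y : σ → ℂ} (hy : ∀ j, y j ∈ V) (M : ℤ)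
    {c : Sym σ d → ℤ} (h : ∀ e, M ∣ c e) : V.valuation (ev c y) ≤ V.valuation (M : ℂ) := by
  have h1 := ev_congr V hy M (c := c) (c' := fun _ => 0) (fun e => by simpa using h e)
  have h2 : ev (fun _ : Sym σ d => (0 : ℤ)) y = 0 := by simp [ev]
  rwa [h2, sub_zero] at h1

/-- The core: no point of the variety with the sign pattern `lam`. -/
theorem core {n k m d p : ℕ} (hp : p.Prime) (lam : Fin n → Option (Fin k))
    (s : Fin (m + 1) → σ → ℤ) (a : Fin n → Fin (m + 1))
    (ha : ∀ b, ∃ i, (lam i = none ∨ ∃ i' < i, lam i' = lam i) ∧ a i = b)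
    (P Q : Fin n → Sym σ d → ℤ) (hC : Cong n k m d p lam s a P Q)
    (V : ValuationSubring ℂ) (hV : (p : ℂ) ∈ V.nonunits) (y : σ → ℂ) (hy : ∀ j, y j ∈ V)
    (hunit : ∃ b, V.valuation (∑ j, (s b j : ℂ) * y j) = 1) (x : Fin n → ℂ)
    (hx : ∀ i, ev (Q i) y * x i = ev (P i) y)
    (h1 : ∀ i, lam i = none → x i ∈ V)
    (h2 : ∀ i i', lam i ≠ none → lam i' = lam i → x i ∈ V → x i' ∈ V) : False := by
  classical
  set v := V.valuation with hv
  have hvp : v (p : ℂ) < 1 := by
    rwa [ValuationSubring.mem_nonunits_iff] at hV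
  have hvp0 : v (p : ℂ) ≠ 0 := (Valuation.ne_zero_iff _).2 (by exact_mod_cast hp.ne_zero)
  have hpos : 0 < v (p : ℂ) := zero_lt_iff.2 hvp0
  set u : Fin n → ℂ := fun i => ∑ j, (s (a i) j : ℂ) * y j with hu
  have hpw : ∀ i, ev (pw d (s (a i))) y = u i ^ d := fun i => ev_pw _ _
  have hcast : ∀ L : ℕ, v (((p : ℤ) ^ L : ℤ) : ℂ) = v (p : ℂ) ^ L := by
    intro L
    push_cast
    rw [map_pow]
  have hanti : ∀ {i j : ℕ}, i ≤ j → v (p : ℂ) ^ j ≤ v (p : ℂ) ^ i := fun h =>
    pow_le_pow_right_of_le_one' hvp.le h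
  -- all relation elements with integral coordinate
  have hint : ∀ i, (lam i = none ∨ ∃ i' < i, lam i' = lam i) → x i ∈ V → v (u i) < 1 := by
    intro i hi hxi
    have hvx : v (x i) ≤ 1 := (ValuationSubring.valuation_le_one_iff _ _).2 hxi
    have hQ : v (ev (Q i) y) ≤ v (p : ℂ) := by
      have := ev_dvd V hy (p : ℤ) (hC.relQ i hi)
      simpa using this
    have hP : v (ev (P i) y) ≤ v (p : ℂ) := by
      rw [← hx i, map_mul]
      exact (mul_le_of_le_one_right' hvx).trans hQ
    have h3 := ev_congr V hy _ (hC.relP i hi)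
    rw [hcast, hpw] at h3
    have h4 : v (u i ^ d) ≤ v (p : ℂ) := by
      have h5 : u i ^ d = ev (P i) y - (ev (P i) y - u i ^ d) := by ring
      rw [h5]
      refine (Valuation.map_sub _ _ _).trans (max_le hP (h3.trans ?_))
      have := hanti (show 1 ≤ n + 2 by omega)
      rwa [pow_one] at this
    rw [map_pow] at h4
    by_contra hge
    rw [not_lt] at hge
    have := one_le_pow_of_one_le' hge d
    exact absurd (this.trans h4) (not_le.2 hvp)
  -- relation elements with non-integral coordinate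
  have hnon : ∀ N : ℕ, ∀ i : Fin n, (i : ℕ) = N → lam i ≠ none → (∃ i' < i, lam i' = lam i) →
      x i ∉ V → v (u i ^ d) ≤ v (p : ℂ) ^ (n + 1 - (i : ℕ)) := by
    intro N
    induction N using Nat.strong_induction_on with
    | _ N ih =>
    intro i hiN hli hprev hxi
    obtain ⟨i0, hi0, hl0⟩ := hprev
    -- the previous element of the class
    set S : Finset (Fin n) := Finset.univ.filter (fun l => l < i ∧ lam l = lam i) with hS
    have hne : S.Nonempty := ⟨i0, by simp [hS, hi0, hl0]⟩
    set i' := S.max' hne with hi'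
    have hmem : i' ∈ S := Finset.max'_mem _ _
    rw [hS, Finset.mem_filter] at hmem
    obtain ⟨-, hlt, hlam⟩ := hmem
    have hbetween : ∀ l, i' < l → l < i → lam l ≠ lam i' := by
      intro l hl1 hl2 hl3
      have hlS : l ∈ S := by
        rw [hS, Finset.mem_filter]
        exact ⟨Finset.mem_univ _, hl2, hl3.trans hlam⟩
      exact absurd (Finset.le_max' S l hlS) (not_le.2 hl1)
    have hli' : lam i' ≠ none := by rw [hlam]; exact hli
    have hxi' : x i' ∉ V := fun h => hxi (h2 i' i hli' hlam.symm h)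
    have hvx' : 1 ≤ v (x i') := by
      by_contra h
      rw [not_le] at h
      exact hxi' ((ValuationSubring.valuation_le_one_iff _ _).1 h.le)
    have hQP : v (ev (Q i') y) ≤ v (ev (P i') y) := by
      rw [← hx i', map_mul]
      exact le_mul_of_one_le_right' hvx'
    have hlt' : (i' : ℕ) < (i : ℕ) := hlt
    have hin : (i : ℕ) < n := i.2
    by_cases hroot : ∃ l < i', lam l = lam i'
    · have h3 := ih i' (by omega) i' rfl hli' hroot hxi'
      have h4 := ev_congr V hy _ (hC.relP i' (Or.inr hroot))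
      rw [hcast, hpw] at h4
      have h5 : v (ev (P i') y) ≤ v (p : ℂ) ^ (n + 1 - (i' : ℕ)) := by
        have h6 : ev (P i') y = (ev (P i') y - u i' ^ d) + u i' ^ d := by ring
        rw [h6]
        exact (Valuation.map_add _ _ _).trans (max_le (h4.trans (hanti (by omega))) h3)
      have h7 := ev_congr V hy _ (hC.relQ' i' i hli' hlam.symm hlt hbetween hroot)
      rw [hcast, ev_zsmul, hpw] at h7
      have h8 : v ((p : ℂ) * u i ^ d) ≤ v (p : ℂ) ^ (n + 1 - (i' : ℕ)) := by
        have h9 : (p : ℂ) * u i ^ d = ev (Q i') y - (ev (Q i') y - ((p : ℤ) : ℂ) * u i ^ d) := by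
          push_cast
          ring
        rw [h9]
        exact (Valuation.map_sub _ _ _).trans
          (max_le (hQP.trans h5) (h7.trans (hanti (by omega))))
      rw [map_mul] at h8
      have h10 : n + 1 - (i' : ℕ) = 1 + (n - (i' : ℕ)) := by omega
      rw [h10, pow_add, pow_one] at h8
      have h11 : v (u i ^ d) ≤ v (p : ℂ) ^ (n - (i' : ℕ)) := le_of_mul_le_mul_left h8 hpos
      exact h11.trans (hanti (by omega))
    · have hroot' : ∀ l < i', lam l ≠ lam i' := by
        intro l hl hl2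
        exact hroot ⟨l, hl, hl2⟩
      have h5 : v (ev (P i') y) ≤ v (p : ℂ) ^ (n + 1) := by
        have := ev_dvd V hy ((p : ℤ) ^ (n + 1)) (hC.rootP i' hli' hroot')
        rwa [hcast] at this
      have h7 := ev_congr V hy _ (hC.rootQ i' i hli' hlam.symm hlt hbetween hroot')
      rw [hcast, hpw] at h7
      have h9 : u i ^ d = ev (Q i') y - (ev (Q i') y - u i ^ d) := by ring
      rw [h9]
      exact (Valuation.map_sub _ _ _).trans
        (max_le ((hQP.trans h5).trans (hanti (by omega))) (h7.trans (hanti (by omega))))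
  -- conclusion
  obtain ⟨b, hb⟩ := hunit
  obtain ⟨i, hi, hab⟩ := ha b
  have hui : v (u i) = 1 := by
    rw [hu]
    simp only [hab]
    exact hb
  by_cases hxi : x i ∈ V
  · exact absurd hui (hint i hi hxi).ne
  · have hln : lam i ≠ none := fun h => hxi (h1 i h)
    have h3 := hnon i i rfl hln (hi.resolve_left hln) hxi
    rw [map_pow, hui, one_pow] at h3
    have h4 : v (p : ℂ) ^ (n + 1 - (i : ℕ)) ≤ v (p : ℂ) := by
      have := hanti (show 1 ≤ n + 1 - (i : ℕ) by have := i.2; omega)
      rwa [pow_one] at this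
    exact absurd (h3.trans h4) (not_le.2 hvp)

end Pool.Agent.W466.ZP
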