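import Mathlib

/-!
Hyperplanes with integral coefficients in general position (helper file for Zilber-Pink in
`Y(1)^n`).
-/

open MvPolynomial

namespace Pool.Agent.W466.ZP

attribute [local instance] MvPolynomial.gradedAlgebra

theorem hc_mul {R σ : Type*} [CommRing R] (n : ℕ) (h l : MvPolynomial σ R) (hl : l.IsHomogeneous 1) :
    homogeneousComponent (n + 1) (h * l) = homogeneousComponent n h * l := by
  conv_lhs => rw [← sum_homogeneousComponent h, Finset.sum_mul, map_sum]
  have h1 : ∀ i, homogeneousComponent (n + 1) (homogeneousComponent i h * l) =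
      if i = n then homogeneousComponent n h * l else 0 := by
    intro i
    have h2 : (homogeneousComponent i h * l).IsHomogeneous (i + 1) :=
      (homogeneousComponent_isHomogeneous i h).mul hl
    rw [homogeneousComponent_of_mem h2]
    by_cases hi : i = n
    · subst hi
      simp
    · rw [if_neg (fun h => hi (Nat.succ_injective h).symm), if_neg hi]
  rw [Finset.sum_congr rfl fun i _ => h1 i, Finset.sum_ite_eq']
  split_ifs with hn
  · rfl
  · rw [Finset.mem_range, not_lt] at hn
    rw [homogeneousComponent_eq_zero n h (by omega), zero_mul]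

variable {σ : Type} [Fintype σ] [DecidableEq σ] {κ : Type*} {m : ℕ}

omit [DecidableEq σ] in
theorem mono_mem (G : κ → MvPolynomial σ ℂ) (hhom : ∀ k, ∃ e, (G k).IsHomogeneous e)
    (t : Fin (m + 1) → σ → ℂ)
    (ht : ∀ y : σ → ℂ, (∀ k, eval y (G k) = 0) → (∀ b, ∑ j, t b j * y j = 0) → y = 0) :
    ∃ M : ℕ, ∀ u : σ →₀ ℕ, u.degree = M + 1 → ∃ h : Fin (m + 1) → MvPolynomial σ ℂ,
      (∀ b, (h b).IsHomogeneous M) ∧
        monomial u (1 : ℂ) - ∑ b, h b * (∑ j, C (t b j) * X j) ∈ Ideal.span (Set.range G) := by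
  classical
  let lt : Fin (m + 1) → MvPolynomial σ ℂ := fun b => ∑ j, C (t b j) * X j
  have hlt1 : ∀ b, (lt b).IsHomogeneous 1 := by
    intro b
    refine IsHomogeneous.sum _ _ _ fun j _ => ?_
    simpa using (isHomogeneous_C σ (t b j)).mul (isHomogeneous_X ℂ j)
  have hlte : ∀ y : σ → ℂ, ∀ b, eval y (lt b) = ∑ j, t b j * y j := by
    intro y b
    simp only [lt, map_sum, map_mul, eval_X, eval_C]
  let I : Ideal (MvPolynomial σ ℂ) := Ideal.span (Set.range G)
  let J1 : Ideal (MvPolynomial σ ℂ) := Ideal.span (Set.range lt)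
  have hrad : ∀ j, X j ∈ (I ⊔ J1).radical := by
    intro j
    rw [← vanishingIdeal_zeroLocus_eq_radical (K := ℂ), mem_vanishingIdeal_iff]
    intro y hy
    rw [mem_zeroLocus_iff] at hy
    have hy0 : y = 0 := by
      apply ht y
      · intro k
        exact hy _ (Ideal.mem_sup_left (Ideal.subset_span ⟨k, rfl⟩))
      · intro b
        rw [← hlte]
        exact hy _ (Ideal.mem_sup_right (Ideal.subset_span ⟨b, rfl⟩))
    rw [aeval_X, hy0]
    rfl
  choose Mj hMj using hrad
  let M0 : ℕ := ∑ j, Mj j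
  refine ⟨Fintype.card σ * M0, ?_⟩
  set M : ℕ := Fintype.card σ * M0 with hM
  have hIhom : I.IsHomogeneous (homogeneousSubmodule σ ℂ) := by
    refine Ideal.homogeneous_span _ _ ?_
    rintro _ ⟨k, rfl⟩
    obtain ⟨e, he⟩ := hhom k
    exact ⟨e, he⟩
  -- monomials of degree `M + 1`
  intro u hu
  have hex : ∃ j, M0 ≤ u j := by
    by_contra hcon
    push Not at hcon
    have h1 : u.degree ≤ ∑ _j : σ, M0 := by
      rw [Finsupp.degree_eq_sum]
      exact Finset.sum_le_sum fun j _ => (hcon j).le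
    rw [hu, Finset.sum_const, Finset.card_univ, smul_eq_mul] at h1
    exact absurd h1 (by simp [hM])
  obtain ⟨j, hj⟩ := hex
  have hmem : monomial u (1 : ℂ) ∈ I ⊔ J1 := by
    have h1 : monomial u (1 : ℂ) = monomial (u - Finsupp.single j (Mj j)) 1 * X j ^ (Mj j) := by
      rw [X_pow_eq_monomial, monomial_mul, one_mul, tsub_add_cancel_of_le]
      rw [Finsupp.single_le_iff]
      exact (Finset.single_le_sum (f := Mj) (fun i _ => Nat.zero_le _)
        (Finset.mem_univ j)).trans hj
    rw [h1]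
    exact Ideal.mul_mem_left _ _ (hMj j)
  obtain ⟨f, hf, g, hg, hfg⟩ := Submodule.mem_sup.1 hmem
  obtain ⟨h, hh⟩ := (Ideal.mem_span_range_iff_exists_fun).1 hg
  refine ⟨fun b => homogeneousComponent M (h b), fun b => homogeneousComponent_isHomogeneous _ _,
    ?_⟩
  have h1 : homogeneousComponent (M + 1) (monomial u (1 : ℂ)) = monomial u 1 :=
    homogeneousComponent_eq_self (isHomogeneous_monomial _ hu)
  have h2 : homogeneousComponent (M + 1) (monomial u (1 : ℂ)) =
      homogeneousComponent (M + 1) f + ∑ b, homogeneousComponent M (h b) * lt b := by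
    rw [← hfg, ← hh, map_add, map_sum]
    congr 1
    refine Finset.sum_congr rfl fun b _ => ?_
    rw [hc_mul _ _ _ (hlt1 b)]
  rw [← h1, h2]
  show homogeneousComponent (M + 1) f + ∑ b, homogeneousComponent M (h b) * lt b -
    ∑ b, homogeneousComponent M (h b) * lt b ∈ I
  rw [add_sub_cancel_right]
  exact homogeneousComponent_mem_of_mem hIhom hf _

theorem nakayama (A : Type) [CommRing A] (φ : ℂ →+* A) (𝔪 : Ideal A)
    (G : κ → MvPolynomial σ ℂ) (t : Fin (m + 1) → σ → ℂ) (T : Fin (m + 1) → σ → A)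
    (hT : ∀ b j, φ (t b j) - T b j ∈ 𝔪) (M : ℕ)
    (hM : ∀ u : σ →₀ ℕ, u.degree = M + 1 → ∃ h : Fin (m + 1) → MvPolynomial σ ℂ,
      (∀ b, (h b).IsHomogeneous M) ∧
        monomial u (1 : ℂ) - ∑ b, h b * (∑ j, C (t b j) * X j) ∈ Ideal.span (Set.range G)) :
    ∃ r : A, r - 1 ∈ 𝔪 ∧ ∀ j : σ, C r * X j ^ (M + 1) ∈
      (Ideal.span (Set.range fun k => MvPolynomial.map φ (G k)) ⊔
        Ideal.span (Set.range fun b => ∑ j, C (T b j) * X j) : Ideal (MvPolynomial σ A)) := by
  classical
  set L : Fin (m + 1) → MvPolynomial σ A := fun b => ∑ j, C (T b j) * X j with hL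
  set J : Ideal (MvPolynomial σ A) := Ideal.span (Set.range fun k => MvPolynomial.map φ (G k)) ⊔
    Ideal.span (Set.range L) with hJ
  let q : MvPolynomial σ A →ₐ[A] (MvPolynomial σ A) ⧸ J := Ideal.Quotient.mkₐ A J
  have hq0 : ∀ f ∈ J, q f = 0 := fun f hf => Ideal.Quotient.eq_zero_iff_mem.2 hf
  have hqI : ∀ f ∈ Ideal.span (Set.range G), q (MvPolynomial.map φ f) = 0 := by
    intro f hf
    have h1 : Ideal.span (Set.range G) ≤ J.comap (MvPolynomial.map φ) := by
      rw [Ideal.span_le]
      rintro _ ⟨k, rfl⟩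
      exact Ideal.mem_sup_left (Ideal.subset_span ⟨k, rfl⟩)
    exact hq0 _ (h1 hf)
  have hqL : ∀ b, q (L b) = 0 := fun b =>
    hq0 _ (Ideal.mem_sup_right (Ideal.subset_span ⟨b, rfl⟩))
  let mon : Set ((MvPolynomial σ A) ⧸ J) :=
    (fun u : σ →₀ ℕ => q (monomial u 1)) '' {u | u.degree = M + 1}
  have hfin : mon.Finite := by
    refine Set.Finite.image _ ?_
    have h1 : ({u : σ →₀ ℕ | u.degree = M + 1}) ⊆
        ((Finset.finsuppAntidiag (Finset.univ : Finset σ) (M + 1) : Finset (σ →₀ ℕ)) : Set _) := by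
      intro u hu
      rw [Finset.mem_coe, Finset.mem_finsuppAntidiag]
      have hu' : u.degree = M + 1 := hu
      rw [Finsupp.degree_eq_sum] at hu'
      exact ⟨hu', Finset.subset_univ _⟩
    exact (Finset.finite_toSet _).subset h1
  let N : Submodule A ((MvPolynomial σ A) ⧸ J) := Submodule.span A mon
  have hNfg : N.FG := ⟨hfin.toFinset, by rw [Set.Finite.coe_toFinset]⟩
  have hle : N ≤ 𝔪 • N := by
    rw [Submodule.span_le]
    rintro _ ⟨u, hu, rfl⟩
    obtain ⟨h, hh, hmem⟩ := hM u hu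
    have h1 := hqI _ hmem
    rw [map_sub, map_sub, sub_eq_zero, map_sum, map_sum, map_monomial, map_one] at h1
    show q (monomial u 1) ∈ _
    rw [h1]
    refine Submodule.sum_mem _ fun b _ => ?_
    have h3 : q (MvPolynomial.map φ (h b * ∑ j, C (t b j) * X j)) =
        ∑ j, (φ (t b j) - T b j) • q (MvPolynomial.map φ (h b) * X j) := by
      have h4 : q (MvPolynomial.map φ (h b * ∑ j, C (t b j) * X j)) =
          q (MvPolynomial.map φ (h b * ∑ j, C (t b j) * X j)) -
            q (MvPolynomial.map φ (h b)) * q (L b) := by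
        rw [hqL, mul_zero, sub_zero]
      rw [h4, ← map_mul, ← map_sub]
      have h5 : ∀ j, (φ (t b j) - T b j) • q (MvPolynomial.map φ (h b) * X j) =
          q ((φ (t b j) - T b j) • (MvPolynomial.map φ (h b) * X j)) := by
        intro j
        rw [map_smul]
      rw [Finset.sum_congr rfl fun j _ => h5 j, ← map_sum]
      congr 1
      simp only [hL, map_mul, map_sum, map_X, map_C, Finset.mul_sum, sub_smul,
        Finset.sum_sub_distrib, smul_eq_C_mul]
      congr 1
      · refine Finset.sum_congr rfl fun j _ => ?_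
        ring
      · refine Finset.sum_congr rfl fun j _ => ?_
        ring
    rw [h3]
    refine Submodule.sum_mem _ fun j _ => ?_
    refine Submodule.smul_mem_smul (hT b j) ?_
    have h6 : (h b * X j).IsHomogeneous (M + 1) := (hh b).mul (isHomogeneous_X ℂ j)
    have h7 : MvPolynomial.map φ (h b) * X j = MvPolynomial.map φ (h b * X j) := by
      simp only [map_mul, map_X]
    rw [h7, (h b * X j : MvPolynomial σ ℂ).as_sum, map_sum, map_sum]
    refine Submodule.sum_mem _ fun w hw => ?_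
    have h8 : w.degree = M + 1 := by
      by_contra hne
      exact (mem_support_iff.1 hw) (h6.coeff_eq_zero hne)
    have h9 : q (MvPolynomial.map φ (monomial w (coeff w (h b * X j)))) =
        φ (coeff w (h b * X j)) • q (monomial w 1) := by
      rw [map_monomial]
      have h10 : (monomial w (φ (coeff w (h b * X j))) : MvPolynomial σ A) =
          φ (coeff w (h b * X j)) • monomial w 1 := by
        rw [smul_monomial, smul_eq_mul, mul_one]
      rw [h10]
      exact map_smul q _ _
    rw [h9]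
    exact Submodule.smul_mem _ _ (Submodule.subset_span ⟨w, h8, rfl⟩)
  obtain ⟨r, hr1, hr2⟩ := Submodule.exists_sub_one_mem_and_smul_eq_zero_of_fg_of_le_smul _ N hNfg hle
  refine ⟨r, hr1, fun j => ?_⟩
  have hmemN : q (X j ^ (M + 1)) ∈ N := by
    refine Submodule.subset_span ⟨Finsupp.single j (M + 1), ?_, ?_⟩
    · exact Finsupp.degree_single _ _
    · rw [X_pow_eq_monomial]
  have h1 := hr2 _ hmemN
  rw [← map_smul, smul_eq_C_mul] at h1
  exact Ideal.Quotient.eq_zero_iff_mem.1 h1

theorem int_forms (G : κ → MvPolynomial σ ℂ) (hhom : ∀ k, ∃ e, (G k).IsHomogeneous e)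
    (t : Fin (m + 1) → σ → ℂ)
    (ht : ∀ y : σ → ℂ, (∀ k, eval y (G k) = 0) → (∀ b, ∑ j, t b j * y j = 0) → y = 0) :
    ∃ s : Fin (m + 1) → σ → ℤ,
      ∀ y : σ → ℂ, (∀ k, eval y (G k) = 0) → (∀ b, ∑ j, (s b j : ℂ) * y j = 0) → y = 0 := by
  classical
  obtain ⟨M, hM⟩ := mono_mem G hhom t ht
  obtain ⟨r, hr1, hr2⟩ := nakayama (MvPolynomial (Fin (m + 1) × σ) ℂ) C
    (RingHom.ker (eval (fun p : Fin (m + 1) × σ => t p.1 p.2))) G t (fun b j => X (b, j))
    (fun b j => by rw [RingHom.mem_ker, map_sub, eval_C, eval_X, sub_self]) M hM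
  have hr0 : r ≠ 0 := by
    intro h
    rw [h, zero_sub, RingHom.mem_ker, map_neg, map_one] at hr1
    exact one_ne_zero (neg_eq_zero.1 hr1)
  have hint : ∃ s : Fin (m + 1) × σ → ℤ, eval (fun p => (s p : ℂ)) r ≠ 0 := by
    by_contra hcon
    push Not at hcon
    apply hr0
    refine funext_set (fun _ => Set.range (fun z : ℤ => (z : ℂ)))
      (fun _ => Set.infinite_range_of_injective Int.cast_injective) fun x hx => ?_
    rw [map_zero]
    have h1 : ∀ p, ∃ z : ℤ, (z : ℂ) = x p := fun p => hx p (Set.mem_univ p)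
    choose s hs using h1
    have h2 := hcon s
    have h3 : (fun p => (s p : ℂ)) = x := funext hs
    rwa [h3] at h2
  obtain ⟨s, hs⟩ := hint
  refine ⟨fun b j => s (b, j), fun y hyG hyl => ?_⟩
  set e : MvPolynomial (Fin (m + 1) × σ) ℂ →+* ℂ := eval (fun p => (s p : ℂ)) with he
  have hΦJ : (Ideal.span (Set.range fun k => MvPolynomial.map
      (C : ℂ →+* MvPolynomial (Fin (m + 1) × σ) ℂ) (G k)) ⊔
        Ideal.span (Set.range fun b => ∑ j, C (X (b, j)) * X j) :
        Ideal (MvPolynomial σ (MvPolynomial (Fin (m + 1) × σ) ℂ))) ≤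
        RingHom.ker (eval₂Hom e y) := by
    refine sup_le ?_ ?_
    · rw [Ideal.span_le]
      rintro _ ⟨k, rfl⟩
      rw [SetLike.mem_coe, RingHom.mem_ker]
      have h2 : e.comp C = RingHom.id ℂ := by
        ext z <;> simp [he]
      show eval₂ e y (MvPolynomial.map C (G k)) = 0
      rw [eval₂_map, h2]
      exact hyG k
    · rw [Ideal.span_le]
      rintro _ ⟨b, rfl⟩
      rw [SetLike.mem_coe, RingHom.mem_ker]
      have h1 : eval₂Hom e y (∑ j, C (X (b, j)) * X j) = ∑ j, (s (b, j) : ℂ) * y j := by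
        rw [map_sum]
        refine Finset.sum_congr rfl fun j _ => ?_
        rw [map_mul, coe_eval₂Hom, eval₂_C, eval₂_X, he, eval_X]
      show eval₂Hom e y (∑ j, C (X (b, j)) * X j) = 0
      rw [h1]
      exact hyl b
  funext j
  have h3 := hΦJ (hr2 j)
  rw [RingHom.mem_ker, map_mul, map_pow, coe_eval₂Hom, eval₂_C, eval₂_X] at h3
  have h6 := (mul_eq_zero.1 h3).resolve_left hs
  exact pow_eq_zero_iff (Nat.succ_ne_zero _) |>.1 h6

end Pool.Agent.W466.ZP
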