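import Pool.Agent.W466.ZD
import Pool.Agent.W466.ZI

/-!
Congruence classes and counting (helper file for Zilber-Pink in `Y(1)^n`).
-/

open Function MvPolynomial H294ZP

namespace Pool.Agent.W466.ZP

theorem crt {ι : Type*} [Fintype ι] (q : ι → ℕ) (hpos : ∀ i, 0 < q i)
    (hcop : Pairwise (Nat.Coprime on q)) (t : ι → ℤ) : ∃ a : ℤ, ∀ i, (q i : ℤ) ∣ a - t i := by
  classical
  have hcop' : Set.Pairwise ((Finset.univ : Finset ι) : Set ι) (Nat.Coprime on q) :=
    fun i _ j _ hij => hcop hij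
  obtain ⟨a, ha⟩ := Nat.chineseRemainderOfFinset (fun i => (t i % q i).toNat) q Finset.univ
    (fun i _ => (hpos i).ne') hcop'
  refine ⟨a, fun i => ?_⟩
  have h1 := ha i (Finset.mem_univ i)
  have h2 : ((t i % q i).toNat : ℤ) = t i % q i :=
    Int.toNat_of_nonneg (Int.emod_nonneg _ (by exact_mod_cast (hpos i).ne'))
  have h3 : (q i : ℤ) ∣ (a : ℤ) - ((t i % q i).toNat : ℤ) := (Int.natCast_modEq_iff.2 h1.symm).dvd
  rw [h2] at h3
  have h4 : (q i : ℤ) ∣ t i % q i - t i := by
    have := Int.emod_add_mul_ediv (t i) (q i)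
    exact ⟨-(t i / q i), by linear_combination this⟩
  have h5 := dvd_add h3 h4
  rwa [sub_add_sub_cancel] at h5

/-- the coordinate attached to the next element of the class -/
noncomputable def nb {n k m : ℕ} (lam : Fin n → Option (Fin k)) (a : Fin n → Fin (m + 1))
    (i : Fin n) : Fin (m + 1) := by
  classical
  exact if h : ∃ i', lam i' = lam i ∧ i < i' ∧ ∀ l, i < l → l < i' → lam l ≠ lam i then
    a h.choose else 0

theorem nb_eq {n k m : ℕ} (lam : Fin n → Option (Fin k)) (a : Fin n → Fin (m + 1))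
    (i i' : Fin n) (h1 : lam i' = lam i) (h2 : i < i')
    (h3 : ∀ l, i < l → l < i' → lam l ≠ lam i) : nb lam a i = a i' := by
  classical
  have h : ∃ i', lam i' = lam i ∧ i < i' ∧ ∀ l, i < l → l < i' → lam l ≠ lam i :=
    ⟨i', h1, h2, h3⟩
  rw [nb, dif_pos h]
  obtain ⟨g1, g2, g3⟩ := h.choose_spec
  congr 1
  rcases lt_trichotomy h.choose i' with hlt | heq | hgt
  · exact absurd g1 (h3 _ g2 hlt)
  · exact heq
  · exact absurd h1 (g3 _ h2 hgt)

open Classical in
/-- target for the numerators -/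
noncomputable def tP {σ : Type} [Fintype σ] [DecidableEq σ] {n k m : ℕ} (d p : ℕ)
    (s : Fin (m + 1) → σ → ℤ) (lam : Fin n → Option (Fin k)) (a : Fin n → Fin (m + 1)) (i : Fin n)
    (e : Sym σ d) : ℤ :=
  if lam i = none ∨ ∃ i' < i, lam i' = lam i then pw d (s (a i)) e
  else (p : ℤ) ^ (n + 1) * pw d (s 0) e

open Classical in
/-- target for the denominators -/
noncomputable def tQ {σ : Type} [Fintype σ] [DecidableEq σ] {n k m : ℕ} (d p : ℕ)
    (s : Fin (m + 1) → σ → ℤ) (lam : Fin n → Option (Fin k)) (a : Fin n → Fin (m + 1)) (i : Fin n)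
    (e : Sym σ d) : ℤ :=
  if lam i = none ∨ ∃ i' < i, lam i' = lam i then (p : ℤ) * pw d (s (nb lam a i)) e
  else pw d (s (nb lam a i)) e

theorem cong_of_target {σ : Type} [Fintype σ] [DecidableEq σ] {n k m : ℕ} (d p : ℕ)
    (s : Fin (m + 1) → σ → ℤ) (lam : Fin n → Option (Fin k)) (a : Fin n → Fin (m + 1))
    (P Q : Fin n → Sym σ d → ℤ) (hP : ∀ i e, (p : ℤ) ^ (n + 2) ∣ P i e - tP d p s lam a i e)
    (hQ : ∀ i e, (p : ℤ) ^ (n + 2) ∣ Q i e - tQ d p s lam a i e) :
    Cong n k m d p lam s a P Q where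
  relP := by
    intro i hi e
    have := hP i e
    rwa [tP, if_pos hi] at this
  relQ := by
    intro i hi e
    have h1 := hQ i e
    rw [tQ, if_pos hi] at h1
    have h2 : (p : ℤ) ∣ (p : ℤ) ^ (n + 2) := dvd_pow_self _ (by omega)
    have h3 := dvd_add (h2.trans h1) (Dvd.intro (pw d (s (nb lam a i)) e) rfl)
    rwa [sub_add_cancel] at h3
  relQ' := by
    intro i i' hli hl' hlt hb hroot e
    have h1 := hQ i e
    rw [tQ, if_pos (Or.inr hroot), nb_eq lam a i i' hl' hlt hb] at h1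
    exact h1
  rootP := by
    intro i hli hroot e
    have hn : ¬ (lam i = none ∨ ∃ i' < i, lam i' = lam i) := by
      rintro (h | ⟨l, hl, hl2⟩)
      · exact hli h
      · exact hroot l hl hl2
    have h1 := hP i e
    rw [tP, if_neg hn] at h1
    have h2 : (p : ℤ) ^ (n + 1) ∣ (p : ℤ) ^ (n + 2) := pow_dvd_pow _ (by omega)
    have h3 := dvd_add (h2.trans h1) (Dvd.intro (pw d (s 0) e) rfl)
    rwa [sub_add_cancel] at h3
  rootQ := by
    intro i i' hli hl' hlt hb hroot e
    have hn : ¬ (lam i = none ∨ ∃ i' < i, lam i' = lam i) := by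
      rintro (h | ⟨l, hl, hl2⟩)
      · exact hli h
      · exact hroot l hl hl2
    have h1 := hQ i e
    rw [tQ, if_neg hn, nb_eq lam a i i' hl' hlt hb] at h1
    exact h1

/-- the main theorem -/
theorem main {κ : Type*} (N n m d : ℕ) (hd : 0 < d) (hmn : m < n)
    (G : κ → MvPolynomial (Fin (N + 1)) ℂ) (hhom : ∀ k, ∃ e, (G k).IsHomogeneous e)
    (halg : ∀ k s, IsAlgebraic ℚ ((G k).coeff s))
    (hdim1 : ∃ t : Fin (m + 1) → Fin (N + 1) → ℂ, ∀ y : Fin (N + 1) → ℂ,
      (∀ k, eval y (G k) = 0) → (∀ b, ∑ j, t b j * y j = 0) → y = 0)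
    (hdim2 : ∀ t : Fin m → Fin (N + 1) → ℂ, ∃ y : Fin (N + 1) → ℂ, y ≠ 0 ∧
      (∀ k, eval y (G k) = 0) ∧ ∀ i, ∑ j, t i j * y j = 0) :
    ∃ δ : ℝ, 0 < δ ∧ ∃ H₀ : ℕ, ∀ H : ℕ, H₀ ≤ H →
      δ * (2 * H + 1) ^ (2 * n * (N + d).choose d) ≤
        ({f : (Fin n → Sym (Fin (N + 1)) d → ℤ) × (Fin n → Sym (Fin (N + 1)) d → ℤ) |
          (∀ i e, |f.1 i e| ≤ H ∧ |f.2 i e| ≤ H) ∧
          (∃ y : Fin (N + 1) → ℂ, y ≠ 0 ∧ (∀ k, eval y (G k) = 0) ∧ (∀ i, ev (f.2 i) y ≠ 0) ∧
            AlgebraicIndependent ℚ (fun i : Fin m =>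
              ev (f.1 (Fin.castLE hmn.le i)) y / ev (f.2 (Fin.castLE hmn.le i)) y)) ∧
          (∀ (r : ℕ) (Z : SpecialDatum n r) (x : Fin n → ℂ), x ∈ Z.locus →
            ∀ y : Fin (N + 1) → ℂ, y ≠ 0 → (∀ k, eval y (G k) = 0) →
            (∀ i, ev (f.2 i) y * x i = ev (f.1 i) y) →
            ∀ S : Finset (Fin n), AlgebraicIndependent ℚ (fun i : S => x i) →
              S.card + (n - m) ≤ r)}.ncard : ℝ) := by
  classical
  obtain ⟨t, ht⟩ := hdim1
  obtain ⟨s, hs⟩ := int_forms G hhom t ht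
  obtain ⟨D, hD, hgood⟩ := good_prime G halg hhom s hs
  let Λ := Fin n → Option (Fin (n - m - 1))
  have ha : ∀ lam : Λ, ∃ a : Fin n → Fin (m + 1),
      ∀ b, ∃ i, (lam i = none ∨ ∃ i' < i, lam i' = lam i) ∧ a i = b :=
    fun lam => exists_surj (by omega) lam
  choose a ha using ha
  let ι := Option Λ
  let pr : ι → ℕ := fun i => Nat.nth Nat.Prime (D + Fintype.equivFin ι i)
  have hprime : ∀ i, (pr i).Prime := fun i => Nat.prime_nth_prime _
  have hprD : ∀ i, ¬ pr i ∣ D := by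
    intro i h
    have h1 : D + (Fintype.equivFin ι i : ℕ) ≤ pr i :=
      (Nat.le_nth (p := Nat.Prime) (fun hf => absurd hf Nat.infinite_setOfPred_prime))
    have h2 := Nat.le_of_dvd hD h
    have h3 : pr i = D := by omega
    have h4 : Fintype.equivFin ι i = (0 : ℕ) := by omega
    -- the `D`-th prime is bigger than `D`
    have h5 : D + 2 ≤ Nat.nth Nat.Prime D := Nat.add_two_le_nth_prime D
    have h6 : pr i = Nat.nth Nat.Prime D := by
      simp only [pr, h4, add_zero]
    omega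
  have hprinj : Injective pr := by
    intro i i' h
    have h1 := Nat.nth_injective Nat.infinite_setOfPred_prime h
    exact (Fintype.equivFin ι).injective (Fin.ext (by omega))
  let q : ι → ℕ := fun i => pr i ^ (n + 2)
  have hqpos : ∀ i, 0 < q i := fun i => pow_pos (hprime i).pos _
  have hqcop : Pairwise (Nat.Coprime on q) := by
    intro i i' hne
    exact Nat.Coprime.pow _ _ ((Nat.coprime_primes (hprime i) (hprime i')).2
      (fun h => hne (hprinj h)))
  let T : ι → (Fin n × Bool) → Sym (Fin (N + 1)) d → ℤ := fun c x e =>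
    match c, x with
    | none, (i, true) => if h : (i : ℕ) < m then pw d (s (Fin.succ ⟨i, h⟩)) e else pw d (s 0) e
    | none, (_, false) => pw d (s 0) e
    | some lam, (i, true) => tP d (pr (some lam)) s lam (a lam) i e
    | some lam, (i, false) => tQ d (pr (some lam)) s lam (a lam) i e
  have hR : ∀ x e, ∃ r : ℤ, ∀ c, (q c : ℤ) ∣ r - T c x e := fun x e =>
    crt q hqpos hqcop (fun c => T c x e)
  choose R hR using hR
  set Q : ℕ := ∏ i, q i with hQdef
  have hQ : 0 < Q := Finset.prod_pos (fun i _ => hqpos i)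
  set E : ℕ := 2 * n * (N + d).choose d with hE
  refine ⟨(1 / (2 * Q)) ^ E, by positivity, Q, ?_⟩
  intro H hH
  have h1 := count_aux Q hQ R H
  have hcard : Fintype.card (Fin n × Bool) * Fintype.card (Sym (Fin (N + 1)) d) = E := by
    rw [Fintype.card_prod, Fintype.card_fin, Fintype.card_bool, Sym.card_sym_eq_choose,
      Fintype.card_fin, hE]
    have h2 : N + 1 + d - 1 = N + d := by omega
    rw [h2]
    ring
  rw [hcard] at h1
  set Target : Set ((Fin n → Sym (Fin (N + 1)) d → ℤ) × (Fin n → Sym (Fin (N + 1)) d → ℤ)) :=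
    {f | (∀ i e, |f.1 i e| ≤ H ∧ |f.2 i e| ≤ H) ∧
          (∃ y : Fin (N + 1) → ℂ, y ≠ 0 ∧ (∀ k, eval y (G k) = 0) ∧ (∀ i, ev (f.2 i) y ≠ 0) ∧
            AlgebraicIndependent ℚ (fun i : Fin m =>
              ev (f.1 (Fin.castLE hmn.le i)) y / ev (f.2 (Fin.castLE hmn.le i)) y)) ∧
          (∀ (r : ℕ) (Z : SpecialDatum n r) (x : Fin n → ℂ), x ∈ Z.locus →
            ∀ y : Fin (N + 1) → ℂ, y ≠ 0 → (∀ k, eval y (G k) = 0) →
            (∀ i, ev (f.2 i) y * x i = ev (f.1 i) y) →
            ∀ S : Finset (Fin n), AlgebraicIndependent ℚ (fun i : S => x i) →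
              S.card + (n - m) ≤ r)} with hTarget
  have hfin : Target.Finite := by
    have hb : ({f : Fin n → Sym (Fin (N + 1)) d → ℤ | ∀ i e, |f i e| ≤ H}).Finite := box_finite H
    refine (hb.prod hb).subset fun f hf => ?_
    exact ⟨fun i e => (hf.1 i e).1, fun i e => (hf.1 i e).2⟩
  have h2 : {F : Fin n × Bool → Sym (Fin (N + 1)) d → ℤ | (∀ m e, |F m e| ≤ H) ∧
      ∀ m e, (Q : ℤ) ∣ F m e - R m e}.ncard ≤ Target.ncard := by
    refine Set.ncard_le_ncard_of_injOn
      (fun F => ((fun i => F (i, true)), (fun i => F (i, false)))) ?_ ?_ hfin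
    · rintro F ⟨hF1, hF2⟩
      have hF3 : ∀ c x e, (q c : ℤ) ∣ F x e - T c x e := by
        intro c x e
        have h3 : (q c : ℤ) ∣ (Q : ℤ) := by
          rw [hQdef]
          exact_mod_cast Finset.dvd_prod_of_mem q (Finset.mem_univ c)
        have h4 := dvd_add (h3.trans (hF2 x e)) (hR x e c)
        rwa [sub_add_sub_cancel] at h4
      refine ⟨fun i e => ⟨hF1 _ e, hF1 _ e⟩, ?_, ?_⟩
      · refine dominant hd hmn G s (pr none) (hprime none) (hgood _ (hprime none) (hprD none))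
          hdim2 (fun i => F (i, true)) (fun i => F (i, false)) ?_ ?_
        · intro i e
          have h4 := hF3 none (Fin.castLE hmn.le i, true) e
          have h5 : T none (Fin.castLE hmn.le i, true) e = pw d (s i.succ) e := by
            show (if h : ((Fin.castLE hmn.le i : Fin n) : ℕ) < m then
              pw d (s (Fin.succ ⟨(Fin.castLE hmn.le i : Fin n), h⟩)) e else pw d (s 0) e) = _
            have hi : ((Fin.castLE hmn.le i : Fin n) : ℕ) < m := i.2
            rw [dif_pos hi]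
            rfl
          rw [h5] at h4
          refine (Dvd.dvd.trans ?_ h4)
          show ((pr none : ℕ) : ℤ) ∣ ((pr none ^ (n + 2) : ℕ) : ℤ)
          rw [Nat.cast_pow]
          exact dvd_pow_self _ (by omega)
        · intro i e
          have h4 := hF3 none (i, false) e
          refine (Dvd.dvd.trans ?_ h4)
          show ((pr none : ℕ) : ℤ) ∣ ((pr none ^ (n + 2) : ℕ) : ℤ)
          rw [Nat.cast_pow]
          exact dvd_pow_self _ (by omega)
      · intro r Z x hx y hy hyG hxy S hS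
        refine criterion' hmn G s D hgood a ha (fun i => F (i, true)) (fun i => F (i, false)) ?_
          r Z x hx y hy hyG hxy S hS
        intro lam
        refine ⟨pr (some lam), hprime _, hprD _, cong_of_target _ _ _ _ _ _ _ ?_ ?_⟩
        · intro i e
          have h4 := hF3 (some lam) (i, true) e
          have h5 : ((q (some lam) : ℕ) : ℤ) = ((pr (some lam) : ℕ) : ℤ) ^ (n + 2) := by
            show ((pr (some lam) ^ (n + 2) : ℕ) : ℤ) = _
            rw [Nat.cast_pow]
          rw [h5] at h4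
          exact h4
        · intro i e
          have h4 := hF3 (some lam) (i, false) e
          have h5 : ((q (some lam) : ℕ) : ℤ) = ((pr (some lam) : ℕ) : ℤ) ^ (n + 2) := by
            show ((pr (some lam) ^ (n + 2) : ℕ) : ℤ) = _
            rw [Nat.cast_pow]
          rw [h5] at h4
          exact h4
    · intro F _ F' _ h
      funext x
      obtain ⟨i, b⟩ := x
      rw [Prod.mk.injEq] at h
      cases b
      · exact congrFun h.2 i
      · exact congrFun h.1 i
  have h3 := h1.trans h2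
  have hQR : (0 : ℝ) < Q := by exact_mod_cast hQ
  have h4 : 1 / (2 * (Q : ℝ)) * (2 * H + 1) ≤ (((2 * H + 1) / Q : ℕ) : ℝ) := by
    have h4 : ((2 * H + 1 : ℕ) : ℝ) / Q < (((2 * H + 1) / Q : ℕ) : ℝ) + 1 := by
      have := Nat.lt_floor_add_one (((2 * H + 1 : ℕ) : ℝ) / Q)
      rwa [Nat.floor_div_eq_div] at this
    have h5 : (1 : ℝ) ≤ ((2 * H + 1 : ℕ) : ℝ) / Q / 2 := by
      rw [le_div_iff₀ (by norm_num), le_div_iff₀ hQR]
      push_cast
      have : (Q : ℝ) ≤ H := by exact_mod_cast hH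
      linarith
    have h6 : 1 / (2 * (Q : ℝ)) * (2 * H + 1) = ((2 * H + 1 : ℕ) : ℝ) / Q / 2 := by
      push_cast
      field_simp
    rw [h6]
    linarith
  calc (1 / (2 * (Q : ℝ))) ^ E * (2 * H + 1) ^ E
      = (1 / (2 * (Q : ℝ)) * (2 * H + 1)) ^ E := (mul_pow _ _ _).symm
    _ ≤ ((((2 * H + 1) / Q : ℕ)) : ℝ) ^ E := by
        apply pow_le_pow_left₀ (by positivity) h4
    _ = ((((2 * H + 1) / Q) ^ E : ℕ) : ℝ) := by push_cast; rfl
    _ ≤ _ := by exact_mod_cast h3

end Pool.Agent.W466.ZP
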