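import Pool.Agent.W466.ZE

/-!
Nullstellensatz certificate, normalisation of points, and the sign pattern of a special subvariety
(helper file for Zilber-Pink in `Y(1)^n`).
-/

open Function MvPolynomial

namespace Pool.Agent.W466.ZP

variable {σ : Type} [Fintype σ] [DecidableEq σ]

omit [Fintype σ] [DecidableEq σ] in
/-- A polynomial with algebraic coefficients lifts to the field of algebraic numbers. -/
theorem lift_poly (G : MvPolynomial σ ℂ) (hG : ∀ s, IsAlgebraic ℚ (G.coeff s)) :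
    ∃ G' : MvPolynomial σ (algebraicClosure ℚ ℂ),
      MvPolynomial.map (algebraMap (algebraicClosure ℚ ℂ) ℂ) G' = G := by
  refine ⟨∑ s ∈ G.support, monomial s (⟨G.coeff s, mem_algebraicClosure_iff.2 (hG s)⟩ : algebraicClosure ℚ ℂ), ?_⟩
  rw [map_sum]
  conv_rhs => rw [G.as_sum]
  refine Finset.sum_congr rfl fun s _ => ?_
  rw [map_monomial]
  rfl

/-- The certificate. -/
theorem certificate {κ : Type*} {m : ℕ} (G : κ → MvPolynomial σ ℂ)
    (hG : ∀ k s, IsAlgebraic ℚ ((G k).coeff s)) (s : Fin (m + 1) → σ → ℤ)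
    (hs : ∀ y : σ → ℂ, (∀ k, eval y (G k) = 0) → (∀ b, ∑ j, (s b j : ℂ) * y j = 0) → y = 0) :
    ∃ (M : ℕ) (A : σ → Fin (m + 1) → MvPolynomial σ (algebraicClosure ℚ ℂ)),
      ∀ y : σ → ℂ, (∀ k, eval y (G k) = 0) → ∀ j,
        y j ^ M = ∑ b, aeval y (A j b) * ∑ i, (s b i : ℂ) * y i := by
  classical
  choose G' hG' using fun k => lift_poly (G k) (hG k)
  have haev : ∀ y : σ → ℂ, ∀ k, aeval y (G' k) = eval y (G k) := by
    intro y k
    rw [← hG' k, eval_map]
    rfl
  let l : Fin (m + 1) → MvPolynomial σ (algebraicClosure ℚ ℂ) := fun b => ∑ j, C (s b j : algebraicClosure ℚ ℂ) * X j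
  have hl : ∀ y : σ → ℂ, ∀ b, aeval y (l b) = ∑ j, (s b j : ℂ) * y j := by
    intro y b
    simp only [l, map_sum, map_mul, aeval_X, map_intCast]
  let J1 : Ideal (MvPolynomial σ (algebraicClosure ℚ ℂ)) := Ideal.span (Set.range l)
  let J2 : Ideal (MvPolynomial σ (algebraicClosure ℚ ℂ)) := Ideal.span (Set.range G')
  have hrad : ∀ j, X j ∈ (J1 ⊔ J2).radical := by
    intro j
    rw [← vanishingIdeal_zeroLocus_eq_radical (K := ℂ), mem_vanishingIdeal_iff]
    intro y hy
    rw [mem_zeroLocus_iff] at hy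
    have hy0 : y = 0 := by
      apply hs y
      · intro k
        rw [← haev]
        exact hy _ (Ideal.mem_sup_right (Ideal.subset_span ⟨k, rfl⟩))
      · intro b
        rw [← hl]
        exact hy _ (Ideal.mem_sup_left (Ideal.subset_span ⟨b, rfl⟩))
    rw [aeval_X, hy0]
    rfl
  choose Mj hMj using hrad
  refine ⟨∑ j, Mj j, ?_⟩
  have h1 : ∀ j, (X j : MvPolynomial σ (algebraicClosure ℚ ℂ)) ^ (∑ j, Mj j) ∈ J1 ⊔ J2 := by
    intro j
    have h2 : ∑ j, Mj j = Mj j + (∑ j, Mj j - Mj j) :=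
      (Nat.add_sub_cancel' (Finset.single_le_sum (f := Mj) (fun i _ => Nat.zero_le _)
        (Finset.mem_univ j))).symm
    rw [h2, pow_add]
    exact Ideal.mul_mem_right _ _ (hMj j)
  have h2 : ∀ j, ∃ A : Fin (m + 1) → MvPolynomial σ (algebraicClosure ℚ ℂ),
      ∀ y : σ → ℂ, (∀ k, eval y (G k) = 0) →
        y j ^ (∑ j, Mj j) = ∑ b, aeval y (A b) * ∑ i, (s b i : ℂ) * y i := by
    intro j
    obtain ⟨u, hu, w, hw, huw⟩ := Submodule.mem_sup.1 (h1 j)
    obtain ⟨A, hA⟩ := (Ideal.mem_span_range_iff_exists_fun).1 hu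
    refine ⟨A, fun y hy => ?_⟩
    have hw0 : aeval y w = 0 := by
      have h3 : J2 ≤ RingHom.ker (aeval y : MvPolynomial σ (algebraicClosure ℚ ℂ) →ₐ[_] ℂ) := by
        rw [Ideal.span_le]
        rintro _ ⟨k, rfl⟩
        rw [SetLike.mem_coe, RingHom.mem_ker]
        rw [haev, hy]
      exact h3 hw
    have h4 := congrArg (aeval y) huw
    rw [map_add, hw0, add_zero, ← hA, map_sum, map_pow, aeval_X] at h4
    rw [← h4]
    refine Finset.sum_congr rfl fun b _ => ?_
    rw [map_mul, hl]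
  choose A hA using h2
  exact ⟨A, fun y hy j => hA j y hy⟩

omit [DecidableEq σ] in
/-- value of a polynomial with coefficients in the valuation ring -/
theorem aeval_mem (V : ValuationSubring ℂ) (A : MvPolynomial σ (algebraicClosure ℚ ℂ))
    (hA : ∀ s, ((A.coeff s : algebraicClosure ℚ ℂ) : ℂ) ∈ V) {y : σ → ℂ} (hy : ∀ j, y j ∈ V) :
    aeval y A ∈ V := by
  rw [aeval_def, eval₂_eq']
  refine sum_mem fun s _ => mul_mem (hA s) (prod_mem fun j _ => pow_mem (hy j) _)

/-- good primes -/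
theorem good_prime {κ : Type*} {m : ℕ} (G : κ → MvPolynomial σ ℂ)
    (hG : ∀ k s, IsAlgebraic ℚ ((G k).coeff s)) (hhom : ∀ k, ∃ e, (G k).IsHomogeneous e)
    (s : Fin (m + 1) → σ → ℤ)
    (hs : ∀ y : σ → ℂ, (∀ k, eval y (G k) = 0) → (∀ b, ∑ j, (s b j : ℂ) * y j = 0) → y = 0) :
    ∃ D : ℕ, 0 < D ∧ ∀ p : ℕ, p.Prime → ¬ p ∣ D → ∀ V : ValuationSubring ℂ,
      (p : ℂ) ∈ V.nonunits → ∀ y : σ → ℂ, y ≠ 0 → (∀ k, eval y (G k) = 0) →
        ∃ c : ℂ, c ≠ 0 ∧ (∀ j, (c • y) j ∈ V) ∧ (∀ k, eval (c • y) (G k) = 0) ∧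
          ∃ b, V.valuation (∑ j, (s b j : ℂ) * (c • y) j) = 1 := by
  classical
  obtain ⟨M, A, hA⟩ := certificate G hG s hs
  let ι := (j : σ) × (b : Fin (m + 1)) × (A j b).support
  let t : ι → ℂ := fun i => (((A i.1 i.2.1).coeff i.2.2.1 : algebraicClosure ℚ ℂ) : ℂ)
  obtain ⟨D, hD, hDp⟩ := alg_mem t (fun i => mem_algebraicClosure_iff.1 ((A i.1 i.2.1).coeff i.2.2.1).2)
  refine ⟨D, hD, fun p hp hpD V hV y hy0 hyG => ?_⟩
  have hAV : ∀ j b u, (((A j b).coeff u : algebraicClosure ℚ ℂ) : ℂ) ∈ V := by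
    intro j b u
    by_cases hu : u ∈ (A j b).support
    · exact hDp p hp hpD V hV ⟨j, b, u, hu⟩
    · rw [notMem_support_iff.1 hu]
      exact zero_mem _
  set v := V.valuation with hv
  have hne : (Finset.univ : Finset σ).Nonempty := by
    by_contra h
    rw [Finset.not_nonempty_iff_eq_empty, Finset.univ_eq_empty_iff] at h
    exact hy0 (funext fun j => (h.false j).elim)
  obtain ⟨j0, -, hj0⟩ := Finset.exists_max_image Finset.univ (fun j => v (y j)) hne
  have hyj0 : y j0 ≠ 0 := by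
    intro h
    apply hy0
    funext j
    have h1 := hj0 j (Finset.mem_univ j)
    simp only [h, map_zero, le_zero_iff] at h1
    exact (map_eq_zero v).1 h1
  refine ⟨(y j0)⁻¹, inv_ne_zero hyj0, ?_, ?_, ?_⟩
  · intro j
    rw [← ValuationSubring.valuation_le_one_iff, Pi.smul_apply, smul_eq_mul, map_mul, map_inv₀]
    have h1 := hj0 j (Finset.mem_univ j)
    have h2 : v (y j0) ≠ 0 := (map_ne_zero v).2 hyj0
    calc (v (y j0))⁻¹ * v (y j) ≤ (v (y j0))⁻¹ * v (y j0) := mul_le_mul_right h1 _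
      _ = 1 := inv_mul_cancel₀ h2
  · intro k
    obtain ⟨e, he⟩ := hhom k
    rw [eval_eq, ← mul_zero ((y j0)⁻¹ ^ e), ← hyG k, eval_eq, Finset.mul_sum]
    refine Finset.sum_congr rfl fun u hu => ?_
    have h1 : u.degree = e := by
      by_contra hne'
      exact (mem_support_iff.1 hu) (he.coeff_eq_zero hne')
    have h2 : ∏ i ∈ u.support, ((y j0)⁻¹ • y) i ^ u i =
        (y j0)⁻¹ ^ e * ∏ i ∈ u.support, y i ^ u i := by
      rw [← h1, Finsupp.degree_apply, ← Finset.prod_pow_eq_pow_sum, ← Finset.prod_mul_distrib]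
      refine Finset.prod_congr rfl fun i _ => ?_
      rw [Pi.smul_apply, smul_eq_mul, mul_pow]
    rw [h2]
    ring
  · by_contra hcon
    rw [not_exists] at hcon
    set z := (y j0)⁻¹ • y with hz
    have hzV : ∀ j, z j ∈ V := by
      intro j
      rw [← ValuationSubring.valuation_le_one_iff, hz, Pi.smul_apply, smul_eq_mul, map_mul, map_inv₀]
      have h1 := hj0 j (Finset.mem_univ j)
      have h2 : v (y j0) ≠ 0 := (map_ne_zero v).2 hyj0
      calc (v (y j0))⁻¹ * v (y j) ≤ (v (y j0))⁻¹ * v (y j0) := mul_le_mul_right h1 _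
        _ = 1 := inv_mul_cancel₀ h2
    have hlt : ∀ b, v (∑ j, (s b j : ℂ) * z j) < 1 := by
      intro b
      refine lt_of_le_of_ne ?_ (hcon b)
      rw [ValuationSubring.valuation_le_one_iff]
      exact sum_mem fun j _ => mul_mem (intCast_mem V _) (hzV j)
    have hzG : ∀ k, eval z (G k) = 0 := by
      intro k
      obtain ⟨e, he⟩ := hhom k
      rw [eval_eq, ← mul_zero ((y j0)⁻¹ ^ e), ← hyG k, eval_eq, Finset.mul_sum]
      refine Finset.sum_congr rfl fun u hu => ?_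
      have h1 : u.degree = e := by
        by_contra hne'
        exact (mem_support_iff.1 hu) (he.coeff_eq_zero hne')
      have h2 : ∏ i ∈ u.support, z i ^ u i =
          (y j0)⁻¹ ^ e * ∏ i ∈ u.support, y i ^ u i := by
        rw [← h1, Finsupp.degree_apply, ← Finset.prod_pow_eq_pow_sum, ← Finset.prod_mul_distrib]
        refine Finset.prod_congr rfl fun i _ => ?_
        rw [hz, Pi.smul_apply, smul_eq_mul, mul_pow]
      rw [h2]
      ring
    have h1 := hA z hzG j0
    have h2 : z j0 = 1 := by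
      rw [hz, Pi.smul_apply, smul_eq_mul, inv_mul_cancel₀ hyj0]
    rw [h2, one_pow] at h1
    have h3 : v (∑ b, aeval z (A j0 b) * ∑ i, (s b i : ℂ) * z i) < 1 := by
      refine Valuation.map_sum_lt _ one_ne_zero fun b _ => ?_
      rw [map_mul]
      exact (mul_le_of_le_one_left' ((ValuationSubring.valuation_le_one_iff _ _).2
        (aeval_mem V _ (hAV j0 b) hzV))).trans_lt (hlt b)
    rw [← h1, map_one] at h3
    exact lt_irrefl _ h3

end Pool.Agent.W466.ZP
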