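import Pool.Agent.W466.ZN

/-!
The sign pattern of a special subvariety, and the criterion (helper file for Zilber-Pink in
`Y(1)^n`).
-/

open Function MvPolynomial H294ZP

namespace Pool.Agent.W466.ZP

/-- A special subvariety and a set of algebraically independent coordinates of one of its points
give a labelling by the remaining classes. -/
theorem pattern {n r k : ℕ} (Z : SpecialDatum n r) (x : Fin n → ℂ) (hx : x ∈ Z.locus)
    (S : Finset (Fin n)) (hS : AlgebraicIndependent ℚ (fun i : S => x i)) (hk : r ≤ S.card + k) :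
    ∃ lam : Fin n → Option (Fin k), ∀ B : ValuationSubring ℂ, (∀ i : S, x i ∈ B) →
      (∀ i, lam i = none → x i ∈ B) ∧
      (∀ i i', lam i ≠ none → lam i' = lam i → x i ∈ B → x i' ∈ B) := by
  classical
  have hTD := isogenous_integral
  have hTE := singular_modulus_integral
  -- constant coordinates are algebraic integers
  have hconst : ∀ i, Z.cls i = none → IsIntegral ℤ (x i) := by
    intro i hi
    obtain ⟨z, hz⟩ := hx
    rw [(hz i).1 hi]
    exact hTE _ (Z.isCM i)
  have hSnone : ∀ i ∈ S, Z.cls i ≠ none := by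
    intro i hi hn
    have h1 := hS.transcendental ⟨i, hi⟩
    apply h1
    have h2 : IsAlgebraic ℤ (x i) := (hconst i hn).isAlgebraic
    exact h2.extendScalars (R := ℤ) (S := ℚ) (Int.cast_injective (α := ℚ))
  have hSinj : ∀ i ∈ S, ∀ i' ∈ S, Z.cls i = Z.cls i' → i = i' := by
    intro i hi i' hi' he
    by_contra hne
    obtain ⟨k', hk⟩ := Option.ne_none_iff_exists'.1 (hSnone i hi)
    have hrel := rel_of_class hTD Z hx hk (he ▸ hk)
    have hSZ : AlgebraicIndependent ℤ (fun i : S => x i) :=
      hS.restrictScalars (Int.cast_injective (α := ℚ))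
    have h1 := hSZ.transcendental_adjoin (s := {⟨i, hi⟩}) (i := ⟨i', hi'⟩)
      (by
        intro h
        rw [Set.mem_singleton_iff, Subtype.mk.injEq] at h
        exact hne h.symm)
    apply h1
    rw [Set.image_singleton]
    exact hrel.isAlgebraic
  -- the classes hit by S
  let Hs : Finset (Option (Fin r)) := S.image Z.cls
  have hHs : Hs.card = S.card := by
    apply Finset.card_image_of_injOn
    intro i hi i' hi' he
    exact hSinj i hi i' hi' he
  let Cc : Finset (Fin r) := Finset.univ.filter (fun c => some c ∉ Hs)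
  have hCc : Cc.card ≤ k := by
    let Hc : Finset (Fin r) := Finset.univ.filter (fun c => some c ∈ Hs)
    have h1 : Hc.card + Cc.card = r := by
      have := Finset.card_filter_add_card_filter_not (s := (Finset.univ : Finset (Fin r)))
        (fun c => some c ∈ Hs)
      simpa using this
    have h2 : Hs = Hc.image some := by
      ext c
      simp only [Hs, Hc, Finset.mem_image, Finset.mem_filter, Finset.mem_univ, true_and]
      constructor
      · rintro ⟨i, hi, rfl⟩
        obtain ⟨c', hc'⟩ := Option.ne_none_iff_exists'.1 (hSnone i hi)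
        exact ⟨c', ⟨i, hi, hc'⟩, hc'.symm⟩
      · rintro ⟨c', ⟨i, hi, hc'⟩, rfl⟩
        exact ⟨i, hi, hc'⟩
    have h3 : Hs.card = Hc.card := by
      rw [h2]
      exact Finset.card_image_of_injective _ (Option.some_injective _)
    omega
  let lam : Fin n → Option (Fin k) := fun i =>
    match Z.cls i with
    | none => none
    | some c => if h : c ∈ Cc then some (Fin.castLE hCc (Cc.equivFin ⟨c, h⟩)) else none
  refine ⟨lam, fun B hBx => ⟨?_, ?_⟩⟩
  · intro i hi
    cases hc : Z.cls i with
    | none => exact mem_of_integral_int B (hconst i hc)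
    | some c =>
      simp only [lam, hc] at hi
      split_ifs at hi with hmem
      simp only [Cc, Finset.mem_filter, Finset.mem_univ, true_and, not_not, Hs,
        Finset.mem_image] at hmem
      obtain ⟨i0, hi0, hci0⟩ := hmem
      exact mem_of_integral B (hBx ⟨i0, hi0⟩) (rel_of_class hTD Z hx hci0 hc)
  · intro i i' hne hi' hxi
    obtain ⟨j, hi⟩ := Option.ne_none_iff_exists'.1 hne
    rw [hi] at hi'
    cases hc : Z.cls i with
    | none => simp [lam, hc] at hi
    | some c =>
      cases hc' : Z.cls i' with
      | none => simp [lam, hc'] at hi'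
      | some c' =>
        simp only [lam, hc] at hi
        simp only [lam, hc'] at hi'
        split_ifs at hi with h1
        split_ifs at hi' with h2
        have h3 : Fin.castLE hCc (Cc.equivFin ⟨c, h1⟩) = Fin.castLE hCc (Cc.equivFin ⟨c', h2⟩) :=
          Option.some_injective _ (hi.trans hi'.symm)
        have h4 := Cc.equivFin.injective (Fin.castLE_injective hCc h3)
        rw [Subtype.mk.injEq] at h4
        subst h4
        exact mem_of_integral B hxi (rel_of_class hTD Z hx hc hc')

/-- many relation elements -/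
theorem exists_surj {n k m : ℕ} (h : k + (m + 1) ≤ n) (lam : Fin n → Option (Fin k)) :
    ∃ a : Fin n → Fin (m + 1), ∀ b, ∃ i, (lam i = none ∨ ∃ i' < i, lam i' = lam i) ∧ a i = b := by
  classical
  let R : Finset (Fin n) := Finset.univ.filter (fun i => lam i = none ∨ ∃ i' < i, lam i' = lam i)
  have hR : m + 1 ≤ R.card := by
    let R' : Finset (Fin n) := Finset.univ.filter
      (fun i => ¬ (lam i = none ∨ ∃ i' < i, lam i' = lam i))
    have h1 : R.card + R'.card = n := by
      have := Finset.card_filter_add_card_filter_not (s := (Finset.univ : Finset (Fin n)))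
        (fun i => lam i = none ∨ ∃ i' < i, lam i' = lam i)
      rw [Finset.card_univ, Fintype.card_fin] at this
      exact this
    have h2 : R'.card ≤ k := by
      have h3 : (R'.image lam).card = R'.card := by
        apply Finset.card_image_of_injOn
        intro i hi i' hi' he
        simp only [R', Finset.coe_filter, Finset.mem_univ, true_and, Set.mem_ofPred_eq,
          not_or, not_exists, not_and] at hi hi'
        rcases lt_trichotomy i i' with hlt | heq | hgt
        · exact absurd he (hi'.2 i hlt)
        · exact heq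
        · exact absurd he.symm (hi.2 i' hgt)
      have h4 : R'.image lam ⊆ (Finset.univ : Finset (Fin k)).image some := by
        intro c hc
        obtain ⟨i, hi, rfl⟩ := Finset.mem_image.1 hc
        simp only [R', Finset.mem_filter, Finset.mem_univ, true_and, not_or] at hi
        obtain ⟨c', hc'⟩ := Option.ne_none_iff_exists'.1 hi.1
        rw [hc']
        exact Finset.mem_image_of_mem _ (Finset.mem_univ _)
      have h5 := Finset.card_le_card h4
      rw [h3, Finset.card_image_of_injective _ (Option.some_injective _), Finset.card_univ,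
        Fintype.card_fin] at h5
      exact h5
    omega
  let f : Fin (m + 1) → R := fun b => R.equivFin.symm (Fin.castLE hR b)
  have hf : Injective f := fun b b' hbb =>
    Fin.castLE_injective hR (R.equivFin.symm.injective hbb)
  refine ⟨fun i => if hi : ∃ b, (f b : Fin n) = i then hi.choose else 0, fun b => ?_⟩
  refine ⟨f b, ?_, ?_⟩
  · have := (f b).2
    simpa only [R, Finset.mem_filter, Finset.mem_univ, true_and] using this
  · have hex : ∃ b', (f b' : Fin n) = f b := ⟨b, rfl⟩
    show (if hi : ∃ b', (f b' : Fin n) = (f b : Fin n) then hi.choose else 0) = b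
    rw [dif_pos hex]
    exact hf (Subtype.ext hex.choose_spec)

/-- The criterion: no atypical intersections. -/
theorem criterion' {σ : Type} [Fintype σ] [DecidableEq σ] {κ : Type*} {n m d : ℕ} (hmn : m < n)
    (G : κ → MvPolynomial σ ℂ) (s : Fin (m + 1) → σ → ℤ) (D : ℕ)
    (hgood : ∀ p : ℕ, p.Prime → ¬ p ∣ D → ∀ V : ValuationSubring ℂ,
      (p : ℂ) ∈ V.nonunits → ∀ y : σ → ℂ, y ≠ 0 → (∀ k, eval y (G k) = 0) →
        ∃ c : ℂ, c ≠ 0 ∧ (∀ j, (c • y) j ∈ V) ∧ (∀ k, eval (c • y) (G k) = 0) ∧
          ∃ b, V.valuation (∑ j, (s b j : ℂ) * (c • y) j) = 1)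
    (a : (Fin n → Option (Fin (n - m - 1))) → Fin n → Fin (m + 1))
    (ha : ∀ lam, ∀ b, ∃ i, (lam i = none ∨ ∃ i' < i, lam i' = lam i) ∧ a lam i = b)
    (P Q : Fin n → Sym σ d → ℤ)
    (hC : ∀ lam, ∃ p : ℕ, p.Prime ∧ ¬ p ∣ D ∧ Cong n (n - m - 1) m d p lam s (a lam) P Q)
    (r : ℕ) (Z : SpecialDatum n r) (x : Fin n → ℂ) (hx : x ∈ Z.locus) (y : σ → ℂ) (hy : y ≠ 0)
    (hyG : ∀ k, eval y (G k) = 0) (hxy : ∀ i, ev (Q i) y * x i = ev (P i) y)
    (S : Finset (Fin n)) (hS : AlgebraicIndependent ℚ (fun i : S => x i)) :
    S.card + (n - m) ≤ r := by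
  by_contra hcon
  obtain ⟨lam, hlam⟩ := pattern (k := n - m - 1) Z x hx S hS (by omega)
  obtain ⟨p, hp, hpD, hCp⟩ := hC lam
  obtain ⟨V, hVp, hVx⟩ := exists_val (fun i : S => x i) hS hp
  obtain ⟨c, hc, hcy, hcG, hunit⟩ := hgood p hp hpD V hVp y hy hyG
  obtain ⟨h1, h2⟩ := hlam V hVx
  refine core hp lam s (a lam) (ha lam) P Q hCp V hVp (c • y) hcy hunit x ?_ h1 h2
  intro i
  rw [ev_smul, ev_smul, mul_assoc, hxy]

end Pool.Agent.W466.ZP
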