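import Pool.Agent.H294ZP.Main

/-!
Valuation rings of the complex numbers (helper file for Zilber-Pink in `Y(1)^n`).
-/

open Function

namespace Pool.Agent.W466.ZP

/-- integers prime to `p` are units in a valuation ring over `p` -/
theorem int_unit (V : ValuationSubring ℂ) {p : ℕ} (hp : p.Prime) (hV : (p : ℂ) ∈ V.nonunits)
    (z : ℤ) (hz : ¬ (p : ℤ) ∣ z) : V.valuation (z : ℂ) = 1 := by
  have hint : ∀ w : ℤ, V.valuation (w : ℂ) ≤ 1 := by
    intro w
    rw [ValuationSubring.valuation_le_one_iff]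
    exact intCast_mem V w
  have hvp : V.valuation (p : ℂ) < 1 := by
    rwa [ValuationSubring.mem_nonunits_iff] at hV
  have hcop : IsCoprime (p : ℤ) z :=
    (Prime.coprime_iff_not_dvd (Nat.prime_iff_prime_int.1 hp)).2 hz
  obtain ⟨a, b, hab⟩ := hcop
  refine le_antisymm (hint z) ?_
  by_contra hlt
  rw [not_le] at hlt
  have h1 : V.valuation ((a * p + b * z : ℤ) : ℂ) < 1 := by
    push_cast
    refine Valuation.map_add_lt _ ?_ ?_
    · rw [map_mul]
      exact (mul_le_of_le_one_left' (hint a)).trans_lt hvp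
    · rw [map_mul]
      exact (mul_le_of_le_one_left' (hint b)).trans_lt hlt
  rw [hab, Int.cast_one, map_one] at h1
  exact lt_irrefl _ h1

/-- algebraic numbers are integral outside finitely many primes -/
theorem alg_mem {ι : Type*} [Finite ι] (t : ι → ℂ) (ht : ∀ i, IsAlgebraic ℚ (t i)) :
    ∃ D : ℕ, 0 < D ∧ ∀ p : ℕ, p.Prime → ¬ p ∣ D → ∀ V : ValuationSubring ℂ,
      (p : ℂ) ∈ V.nonunits → ∀ i, t i ∈ V := by
  classical
  have := Fintype.ofFinite ι
  have h1 : ∀ i, ∃ a : ℤ, a ≠ 0 ∧ IsIntegral ℤ (a • t i) := by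
    intro i
    have h2 : IsAlgebraic ℤ (t i) := by
      rw [IsFractionRing.isAlgebraic_iff ℤ ℚ ℂ]
      exact ht i
    exact h2.exists_integral_multiple
  choose a ha hint using h1
  refine ⟨∏ i, (a i).natAbs, Finset.prod_pos fun i _ => Int.natAbs_pos.2 (ha i), ?_⟩
  intro p hp hpD V hV i
  have h3 : ¬ (p : ℤ) ∣ a i := by
    intro h
    apply hpD
    have h4 : p ∣ (a i).natAbs := Int.natCast_dvd.1 h
    exact h4.trans (Finset.dvd_prod_of_mem _ (Finset.mem_univ i))
  have h5 := int_unit V hp hV (a i) h3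
  have h6 := H294ZP.mem_of_integral_int V (hint i)
  rw [← ValuationSubring.valuation_le_one_iff, zsmul_eq_mul, map_mul, h5, one_mul] at h6
  exact (ValuationSubring.valuation_le_one_iff _ _).1 h6

/-- Gauss valuations: a valuation ring over `p` such that the residues of given algebraically
independent numbers are algebraically independent: all polynomials in them that are not divisible
by `p` are units. -/
theorem exists_gauss {ι : Type*} (y : ι → ℂ) (hy : AlgebraicIndependent ℚ y) {p : ℕ}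
    (hp : p.Prime) :
    ∃ V : ValuationSubring ℂ, (p : ℂ) ∈ V.nonunits ∧ (∀ i, y i ∈ V) ∧
      ∀ f : MvPolynomial ι ℤ, ¬ (MvPolynomial.C (p : ℤ) ∣ f) →
        V.valuation (MvPolynomial.aeval y f) = 1 := by
  classical
  have hyZ : AlgebraicIndependent ℤ y := hy.restrictScalars (Int.cast_injective (α := ℚ))
  -- the multiplicative set of polynomials not divisible by `p`
  have hprime : Prime (MvPolynomial.C (σ := ι) (p : ℤ)) :=
    (MvPolynomial.prime_C_iff ι).2 (Nat.prime_iff_prime_int.1 hp)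
  let A : Subring ℂ :=
    { carrier := {z | ∃ f g : MvPolynomial ι ℤ, ¬ (MvPolynomial.C (p : ℤ) ∣ g) ∧
        z * MvPolynomial.aeval y g = MvPolynomial.aeval y f}
      mul_mem' := by
        rintro a b ⟨f, g, hg, h⟩ ⟨f', g', hg', h'⟩
        refine ⟨f * f', g * g', fun hd => (hprime.dvd_or_dvd hd).elim hg hg', ?_⟩
        rw [map_mul, map_mul]
        linear_combination (MvPolynomial.aeval y f') * h + a * (MvPolynomial.aeval y g) * h'
      one_mem' := ⟨1, 1, fun hd => hprime.not_isUnit (isUnit_of_dvd_one hd), by simp⟩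
      add_mem' := by
        rintro a b ⟨f, g, hg, h⟩ ⟨f', g', hg', h'⟩
        refine ⟨f * g' + f' * g, g * g', fun hd => (hprime.dvd_or_dvd hd).elim hg hg', ?_⟩
        rw [map_mul, map_add, map_mul, map_mul]
        linear_combination (MvPolynomial.aeval y g') * h + (MvPolynomial.aeval y g) * h'
      zero_mem' := ⟨0, 1, fun hd => hprime.not_isUnit (isUnit_of_dvd_one hd), by simp⟩
      neg_mem' := by
        rintro a ⟨f, g, hg, h⟩
        refine ⟨-f, g, hg, ?_⟩
        rw [map_neg]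
        linear_combination -h }
  have hmem : ∀ f : MvPolynomial ι ℤ, MvPolynomial.aeval y f ∈ A := fun f =>
    ⟨f, 1, fun hd => hprime.not_isUnit (isUnit_of_dvd_one hd), by simp⟩
  have hne : ∀ g : MvPolynomial ι ℤ, ¬ (MvPolynomial.C (p : ℤ) ∣ g) →
      MvPolynomial.aeval y g ≠ 0 := by
    intro g hg h0
    apply hg
    have : g = 0 := hyZ (by rw [h0, map_zero])
    rw [this]
    exact dvd_zero _
  have hinv : ∀ g : MvPolynomial ι ℤ, ¬ (MvPolynomial.C (p : ℤ) ∣ g) →
      (MvPolynomial.aeval y g)⁻¹ ∈ A := by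
    intro g hg
    refine ⟨1, g, hg, ?_⟩
    rw [inv_mul_cancel₀ (hne g hg), map_one]
  have hpA : (p : ℂ) ∈ A := natCast_mem A p
  let I : Ideal A := Ideal.span {(⟨(p : ℂ), hpA⟩ : A)}
  have hI : I ≠ ⊤ := by
    intro h
    rw [Ideal.span_singleton_eq_top, isUnit_iff_exists_inv] at h
    obtain ⟨⟨b, f, g, hg, hb⟩, h1⟩ := h
    have h2 : (p : ℂ) * b = 1 := congrArg Subtype.val h1
    apply hg
    have h3 : MvPolynomial.aeval y g = MvPolynomial.aeval y (MvPolynomial.C (p : ℤ) * f) := by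
      rw [map_mul, ← hb, MvPolynomial.aeval_C]
      have h4 : (algebraMap ℤ ℂ) (p : ℤ) = (p : ℂ) := by simp
      rw [h4, ← mul_assoc, h2, one_mul]
    exact ⟨f, hyZ h3⟩
  obtain ⟨V, hV1, hV2⟩ := Ideal.image_subset_nonunits_valuationSubring I hI
  refine ⟨V, ?_, ?_, ?_⟩
  · apply hV2
    exact ⟨⟨(p : ℂ), hpA⟩, Ideal.subset_span rfl, rfl⟩
  · intro i
    apply hV1
    have := hmem (MvPolynomial.X i)
    rwa [MvPolynomial.aeval_X] at this
  · intro f hf
    have h1 : V.valuation (MvPolynomial.aeval y f) ≤ 1 :=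
      (ValuationSubring.valuation_le_one_iff _ _).2 (hV1 (hmem f))
    have h2 : V.valuation (MvPolynomial.aeval y f)⁻¹ ≤ 1 :=
      (ValuationSubring.valuation_le_one_iff _ _).2 (hV1 (hinv f hf))
    rw [map_inv₀] at h2
    have h3 : V.valuation (MvPolynomial.aeval y f) ≠ 0 := (Valuation.ne_zero_iff _).2 (hne f hf)
    refine le_antisymm h1 ?_
    exact (inv_le_one₀ (zero_lt_iff.2 h3)).1 h2

/-- arbitrarily many algebraically independent complex numbers -/
theorem exists_algInd (m : ℕ) : ∃ y : Fin m → ℂ, AlgebraicIndependent ℚ y := by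
  obtain ⟨s, hs⟩ := exists_isTranscendenceBasis ℚ ℂ
  have h1 : Infinite s := by
    by_contra hfin
    rw [not_infinite_iff_finite] at hfin
    have h2 := IsAlgClosed.cardinal_eq_cardinal_transcendence_basis_of_aleph0_lt (R := ℚ)
      (K := ℂ) _ hs (by simp) (by rw [Cardinal.mk_complex]; exact Cardinal.aleph0_lt_continuum)
    have h3 : Cardinal.mk s < Cardinal.aleph0 := Cardinal.lt_aleph0_of_finite s
    rw [Cardinal.lift_id, Cardinal.lift_id, Cardinal.mk_complex] at h2
    have h4 : Cardinal.mk {x // x ∈ s} < Cardinal.aleph0 := h3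
    rw [← h2] at h4
    exact absurd h4 (not_lt.2 Cardinal.aleph0_lt_continuum.le)
  obtain ⟨e⟩ : Nonempty (Fin m ↪ s) :=
    ⟨(⟨fun i => (i : ℕ), Fin.val_injective⟩ : Fin m ↪ ℕ).trans (Infinite.natEmbedding s)⟩
  exact ⟨fun i => (e i : ℂ), hs.1.comp e e.injective⟩

end Pool.Agent.W466.ZP
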